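import Pool.Agent.Helper240.Defs

/-!
Topology of the Milnor model, local systems, and the associated coverings.
-/

set_option autoImplicit false
set_option linter.unusedSectionVars false

open Filter Topology Set

namespace Pool.Agent.Helper240

namespace BGamma

theorem continuous_t (i : ℕ) : Continuous (fun b : BGamma => b.t i) := by
  rw [continuous_def]
  intro V hV
  exact TopologicalSpace.isOpen_generateFrom_of_mem (Or.inl ⟨i, V, hV, rfl⟩)

theorem isOpen_pos (i : ℕ) : IsOpen {b : BGamma | 0 < b.t i} :=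
  isOpen_Ioi.preimage (continuous_t i)

theorem continuousAt_γ {b : BGamma} {i j : ℕ} (hi : 0 < b.t i) (hj : 0 < b.t j) :
    ContinuousAt (fun b : BGamma => b.γ i j) b := by
  intro W' hW'
  obtain ⟨W, hWW, hW, hbW⟩ := mem_nhds_iff.mp hW'
  have ho : IsOpen {b : BGamma | 0 < b.t i ∧ 0 < b.t j ∧ b.γ i j ∈ W} :=
    TopologicalSpace.isOpen_generateFrom_of_mem (Or.inr ⟨i, j, W, hW, rfl⟩)
  have h1 : ∀ᶠ b' in 𝓝 b, b' ∈ {b : BGamma | 0 < b.t i ∧ 0 < b.t j ∧ b.γ i j ∈ W} :=
    ho.mem_nhds ⟨hi, hj, hbW⟩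
  show ∀ᶠ b' in 𝓝 b, b'.γ i j ∈ W'
  filter_upwards [h1] with b' hb'
  exact hWW hb'.2.2

theorem continuous_into {X : Type*} [TopologicalSpace X] (F : X → BGamma)
    (ht : ∀ i, Continuous fun x => (F x).t i)
    (hγ : ∀ i j x, 0 < (F x).t i → 0 < (F x).t j → ContinuousAt (fun x => (F x).γ i j) x) :
    Continuous F := by
  apply continuous_generateFrom_iff.mpr
  rintro S (⟨i, V, hV, rfl⟩ | ⟨i, j, W, hW, rfl⟩)
  · exact hV.preimage (ht i)
  · rw [isOpen_iff_mem_nhds]
    rintro x ⟨hx1, hx2, hx3⟩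
    have h1 : ∀ᶠ y in 𝓝 x, 0 < (F y).t i := (ht i).continuousAt.eventually (lt_mem_nhds hx1)
    have h2 : ∀ᶠ y in 𝓝 x, 0 < (F y).t j := (ht j).continuousAt.eventually (lt_mem_nhds hx2)
    have h3 : ∀ᶠ y in 𝓝 x, (F y).γ i j ∈ W := (hγ i j x hx1 hx2).eventually (hW.mem_nhds hx3)
    filter_upwards [h1, h2, h3] with y a1 a2 a3
    exact ⟨a1, a2, a3⟩

theorem exists_pos (b : BGamma) : ∃ i, 0 < b.t i := by
  by_contra hcon
  push Not at hcon
  have h0 : ∀ i, b.t i = 0 := fun i => le_antisymm (hcon i) (b.t_nonneg i)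
  have h1 := b.t_sum
  have h2 : b.t = fun _ => 0 := funext h0
  rw [h2] at h1
  simp at h1

end BGamma

/-- Locally constant multiplicative functions on the groupoid of germs (in path order). -/
structure LocSys (U : Type) [Group U] where
  φ : AnGerm → U
  comp : ∀ g h k, IsComp g h k → φ h * φ g = φ k
  loc : ∀ g, ∀ᶠ g' in 𝓝 g, φ g' = φ g

namespace LocSys

variable {U : Type} [Group U] [TopologicalSpace U] [DiscreteTopology U] (L : LocSys U)

omit [TopologicalSpace U] [DiscreteTopology U] in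
theorem diag {b : BGamma} {i : ℕ} (hi : 0 < b.t i) : L.φ (b.γ i i) = 1 := by
  have := L.comp _ _ _ (b.cocycle i i i hi hi hi)
  exact mul_eq_left.mp this

/-- The bundle core. -/
noncomputable def core : FiberBundleCore ℕ BGamma U where
  baseSet i := {b | 0 < b.t i}
  isOpen_baseSet := BGamma.isOpen_pos
  indexAt b := b.exists_pos.choose
  mem_baseSet_at b := b.exists_pos.choose_spec
  coordChange i j b u := u * L.φ (b.γ j i)
  coordChange_self i b hb u := by rw [L.diag hb, mul_one]
  continuousOn_coordChange i j := by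
    rintro ⟨b, u⟩ ⟨⟨hi, hj⟩, _⟩
    apply ContinuousAt.continuousWithinAt
    have h1 : ContinuousAt (fun p : BGamma × U => p.1.γ j i) (b, u) :=
      ContinuousAt.comp (g := fun b : BGamma => b.γ j i) (f := fun p : BGamma × U => p.1)
        (BGamma.continuousAt_γ hj hi) continuousAt_fst
    have h2 : ∀ᶠ p : BGamma × U in 𝓝 (b, u), L.φ (p.1.γ j i) = L.φ (b.γ j i) :=
      h1.eventually (L.loc _)
    have h3 : ∀ᶠ p : BGamma × U in 𝓝 (b, u), p.2 = u :=
      (continuousAt_snd (p := (b, u))).eventually (p := fun v => v = u)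
        (by rw [nhds_discrete]; exact rfl)
    have h4 : ∀ᶠ p : BGamma × U in 𝓝 (b, u), p.2 * L.φ (p.1.γ j i) = u * L.φ (b.γ j i) := by
      filter_upwards [h2, h3] with p a1 a2
      rw [a1, a2]
    exact (continuousAt_const (y := u * L.φ (b.γ j i))).congr (h4.mono fun _ h => h.symm)
  coordChange_comp i j k b := by
    rintro ⟨⟨hi, hj⟩, hk⟩ u
    rw [mul_assoc, L.comp _ _ _ (b.cocycle k j i hk hj hi)]

/-- The covering space. -/
abbrev Tot := L.core.TotalSpace

theorem isCoveringMap : IsCoveringMap (L.core.proj) :=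
  IsFiberBundle.isCoveringMap fun b =>
    ⟨L.core.localTriv (L.core.indexAt b), L.core.mem_baseSet_at b⟩

/-- The coordinate of a point of the covering space in the chart `i`. -/
noncomputable def cd (i : ℕ) (e : L.Tot) : U := (L.core.localTriv i e).2

theorem cd_compat {i j : ℕ} {e : L.Tot} (hi : 0 < e.proj.t i) (hj : 0 < e.proj.t j) :
    L.cd j e = L.cd i e * L.φ (e.proj.γ j i) := by
  have := L.core.coordChange_comp (L.core.indexAt e.proj) i j e.proj
    ⟨⟨L.core.mem_baseSet_at _, hi⟩, hj⟩ e.2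
  exact this.symm

theorem cd_loc {i : ℕ} {e : L.Tot} (hi : 0 < e.proj.t i) :
    ∀ᶠ e' in 𝓝 e, L.cd i e' = L.cd i e := by
  have hs : e ∈ (L.core.localTriv i).source := hi
  have h1 : ContinuousAt (L.core.localTriv i) e := (L.core.localTriv i).continuousAt hs
  have h2 : ContinuousAt (fun e => L.cd i e) e := continuousAt_snd.comp h1
  exact h2.eventually (p := fun v => v = L.cd i e) (by rw [nhds_discrete]; exact rfl)

theorem ext_cd {i : ℕ} {e e' : L.Tot} (hp : e.proj = e'.proj) (hi : 0 < e.proj.t i)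
    (h : L.cd i e = L.cd i e') : e = e' := by
  have hs : e ∈ (L.core.localTriv i).source := hi
  have hs' : e' ∈ (L.core.localTriv i).source := by
    show 0 < e'.proj.t i
    rw [← hp]; exact hi
  exact (L.core.localTriv i).injOn hs hs' (Prod.ext hp h)

/-- Lifting a map to the covering, given its coordinates. -/
theorem exists_lift {X : Type*} [TopologicalSpace X] (f : C(X, BGamma)) (u : ℕ → X → U)
    (hloc : ∀ i x, 0 < (f x).t i → ∀ᶠ y in 𝓝 x, u i y = u i x)
    (hcomp : ∀ i j x, 0 < (f x).t i → 0 < (f x).t j → u j x = u i x * L.φ ((f x).γ j i)) :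
    ∃ F : C(X, L.Tot), (∀ x, (F x).proj = f x) ∧ ∀ i x, 0 < (f x).t i → L.cd i (F x) = u i x := by
  let F : X → L.Tot := fun x => ⟨f x, u (L.core.indexAt (f x)) x⟩
  have hcd : ∀ i x, 0 < (f x).t i → L.cd i (F x) = u i x := by
    intro i x hi
    exact (hcomp (L.core.indexAt (f x)) i x (L.core.mem_baseSet_at _) hi).symm
  have hcont : Continuous F := by
    rw [continuous_iff_continuousAt]
    intro x
    rw [FiberBundle.continuousAt_totalSpace]
    refine ⟨f.continuous.continuousAt, ?_⟩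
    set i := L.core.indexAt (f x) with hi
    have hx : 0 < (f x).t i := L.core.mem_baseSet_at _
    have h1 : ∀ᶠ y in 𝓝 x, 0 < (f y).t i :=
      ((BGamma.continuous_t i).comp f.continuous).continuousAt.eventually (lt_mem_nhds hx)
    have h2 : ∀ᶠ y in 𝓝 x, L.cd i (F y) = u i x := by
      filter_upwards [h1, hloc i x hx] with y a1 a2
      rw [hcd i y a1, a2]
    exact (continuousAt_const (y := u i x)).congr (h2.mono fun _ h => h.symm)
  exact ⟨⟨F, hcont⟩, fun x => rfl, hcd⟩

end LocSys

end Pool.Agent.Helper240
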