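import Pool.Agent.Helper240.Loops

/-!
The classifying space is path connected.
-/

set_option autoImplicit false
set_option linter.unusedSectionVars false

open Filter Topology Set

namespace Pool.Agent.Helper240

/-- Barycentric coordinates. -/
structure Bary where
  t : ℕ → ℝ
  nonneg : ∀ i, 0 ≤ t i
  fin : {i | t i ≠ 0}.Finite
  sum : ∑ᶠ i, t i = 1

/-- The barycentric coordinates of a point. -/
def BGamma.bary (b : BGamma) : Bary := ⟨b.t, b.t_nonneg, b.t_finite, b.t_sum⟩

/-- The vertex `i`. -/
noncomputable def vtx (i : ℕ) : Bary where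
  t j := if j = i then 1 else 0
  nonneg j := by split_ifs <;> norm_num
  fin := by
    refine (Set.finite_singleton i).subset ?_
    intro j hj
    by_contra h
    exact hj (if_neg h)
  sum := by
    rw [finsum_eq_single _ i (fun j hj => if_neg hj)]
    simp

/-- Convex combination. -/
noncomputable def mix (s : unitInterval) (a b : Bary) : Bary where
  t i := (1 - (s : ℝ)) * a.t i + s * b.t i
  nonneg i := by
    have h1 := s.2.1
    have h2 := s.2.2
    have := a.nonneg i
    have := b.nonneg i
    have h3 : 0 ≤ 1 - (s : ℝ) := by linarith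
    positivity
  fin := by
    refine (a.fin.union b.fin).subset ?_
    intro i hi
    by_contra h
    simp only [mem_union, not_or, mem_ofPred, not_not] at h
    apply hi
    rw [h.1, h.2]; ring
  sum := by
    have h1 : (Function.support fun i => (1 - (s : ℝ)) * a.t i).Finite :=
      a.fin.subset fun i hi h => hi (by simp only; rw [h]; ring)
    have h2 : (Function.support fun i => (s : ℝ) * b.t i).Finite :=
      b.fin.subset fun i hi h => hi (by simp only; rw [h]; ring)
    rw [finsum_add_distrib h1 h2, ← mul_finsum a.t, ← mul_finsum b.t, a.sum, b.sum]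
    ring

open Classical in
/-- A point given by barycentric coordinates and a cocycle defined on a larger support. -/
noncomputable def mkPt (a : Bary) (c : ℕ → ℕ → AnGerm)
    (h : ∀ i j k, 0 < a.t i → 0 < a.t j → 0 < a.t k → IsComp (c i j) (c j k) (c i k)) : BGamma where
  t := a.t
  γ i j := if 0 < a.t i ∧ 0 < a.t j then c i j else unitZero
  t_nonneg := a.nonneg
  t_finite := a.fin
  t_sum := a.sum
  cocycle i j k hi hj hk := by
    rw [if_pos ⟨hi, hj⟩, if_pos ⟨hj, hk⟩, if_pos ⟨hi, hk⟩]
    exact h i j k hi hj hk
  junk i j hij := if_neg hij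

/-- The identity germ at `x`. -/
noncomputable def idg (x : ℝ) : AnGerm := germOf (fun y => y) x (isAn_id x)

theorem idg_spec (x : ℝ) : IsGermOf (idg x) (fun y => y) x := isGermOf_germOf _

theorem idg_comp (x : ℝ) : IsComp (idg x) (idg x) (idg x) :=
  isComp_of (idg_spec x) (idg_spec x) rfl (idg_spec x) EventuallyEq.rfl

/-- Points with trivial cocycle. -/
noncomputable def triv (a : Bary) (x : ℝ) : BGamma := mkPt a (fun _ _ => idg x) fun _ _ _ _ _ _ => idg_comp x

theorem joined_triv (a b : Bary) (x y : ℝ) : Joined (triv a x) (triv b y) := by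
  have hc : Continuous fun s : unitInterval => triv (mix s a b) ((1 - (s : ℝ)) * x + s * y) := by
    apply BGamma.continuous_into
    · intro i
      show Continuous fun s : unitInterval => (1 - (s : ℝ)) * a.t i + s * b.t i
      fun_prop
    · intro i j s hi hj
      refine continuousAt_germ _ (fun s : unitInterval => (1 - (s : ℝ)) * x + s * y) (fun y => y) ?_ ?_
      · exact Continuous.continuousAt (by fun_prop)
      · have h1 : ∀ k, Continuous fun s : unitInterval => (mix s a b).t k := by
          intro k
          show Continuous fun s : unitInterval => (1 - (s : ℝ)) * a.t k + s * b.t k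
          fun_prop
        have hi' : 0 < (mix s a b).t i := hi
        have hj' : 0 < (mix s a b).t j := hj
        filter_upwards [(h1 i).continuousAt.eventually (lt_mem_nhds hi'),
          (h1 j).continuousAt.eventually (lt_mem_nhds hj')] with s' a1 a2
        have : (triv (mix s' a b) ((1 - (s' : ℝ)) * x + s' * y)).γ i j =
            idg ((1 - (s' : ℝ)) * x + s' * y) := if_pos ⟨a1, a2⟩
        rw [this]
        exact idg_spec _
  refine ⟨⟨⟨_, hc⟩, ?_, ?_⟩⟩
  · show triv (mix 0 a b) _ = triv a x
    have h1 : mix 0 a b = a := by
      cases a; cases b; simp [mix]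
    rw [h1]; simp
  · show triv (mix 1 a b) _ = triv b y
    have h1 : mix 1 a b = b := by
      cases a; cases b; simp [mix]
    rw [h1]; simp

theorem joined_vtx (b : BGamma) {i : ℕ} (hi : 0 < b.t i) : Joined b (triv (vtx i) (b.coord i)) := by
  have hpos : ∀ (s : unitInterval) j, 0 < (mix s b.bary (vtx i)).t j → 0 < b.t j := by
    intro s j hj
    by_contra h
    have h0 : b.t j = 0 := le_antisymm (not_lt.mp h) (b.t_nonneg j)
    have hji : j ≠ i := by
      rintro rfl
      exact h hi
    have : (mix s b.bary (vtx i)).t j = (1 - (s : ℝ)) * b.t j + s * (if j = i then 1 else 0) := rfl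
    rw [this, h0, if_neg hji] at hj
    simp at hj
  have hc : Continuous fun s : unitInterval => mkPt (mix s b.bary (vtx i)) b.γ
      fun j k l hj hk hl => b.cocycle j k l (hpos s j hj) (hpos s k hk) (hpos s l hl) := by
    apply BGamma.continuous_into
    · intro j
      show Continuous fun s : unitInterval => (1 - (s : ℝ)) * b.t j + s * (vtx i).t j
      fun_prop
    · intro j k s hj hk
      have h1 : ∀ k, Continuous fun s : unitInterval => (mix s b.bary (vtx i)).t k := by
        intro k
        show Continuous fun s : unitInterval => (1 - (s : ℝ)) * b.t k + s * (vtx i).t k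
        fun_prop
      have hj' : 0 < (mix s b.bary (vtx i)).t j := hj
      have hk' : 0 < (mix s b.bary (vtx i)).t k := hk
      refine (continuousAt_const (y := b.γ j k)).congr ?_
      filter_upwards [(h1 j).continuousAt.eventually (lt_mem_nhds hj'),
        (h1 k).continuousAt.eventually (lt_mem_nhds hk')] with s' a1 a2
      exact (if_pos ⟨a1, a2⟩).symm
  refine ⟨⟨⟨_, hc⟩, ?_, ?_⟩⟩
  · apply BGamma.ext
    · funext j
      show (1 - ((0 : unitInterval) : ℝ)) * b.t j + ((0 : unitInterval) : ℝ) * (vtx i).t j = b.t j
      simp
    · funext j k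
      show (if 0 < (mix 0 b.bary (vtx i)).t j ∧ 0 < (mix 0 b.bary (vtx i)).t k then b.γ j k
        else unitZero) = b.γ j k
      have h0 : ∀ j, (mix 0 b.bary (vtx i)).t j = b.t j := by
        intro j
        show (1 - ((0 : unitInterval) : ℝ)) * b.t j + ((0 : unitInterval) : ℝ) * (vtx i).t j = b.t j
        simp
      rw [h0, h0]
      split_ifs with h
      · rfl
      · exact (b.junk j k h).symm
  · have ht : ∀ j, (mix 1 b.bary (vtx i)).t j = (vtx i).t j := by
      intro j
      show (1 - ((1 : unitInterval) : ℝ)) * b.t j + ((1 : unitInterval) : ℝ) * (vtx i).t j = _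
      simp
    have hv : ∀ j, 0 < (vtx i).t j → j = i := by
      intro j hj
      by_contra h
      have : (vtx i).t j = 0 := if_neg h
      rw [this] at hj
      exact absurd hj (lt_irrefl _)
    apply BGamma.ext
    · funext j
      exact ht j
    · funext j k
      show (if 0 < (mix 1 b.bary (vtx i)).t j ∧ 0 < (mix 1 b.bary (vtx i)).t k then b.γ j k
        else unitZero) = (if 0 < (vtx i).t j ∧ 0 < (vtx i).t k then idg (b.coord i) else unitZero)
      rw [ht, ht]
      split_ifs with h
      · rw [hv j h.1, hv k h.2]
        exact (b.diag_id hi).eq (idg_spec _)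
      · rfl

theorem joined_all (b b' : BGamma) : Joined b b' := by
  obtain ⟨i, hi⟩ := b.exists_pos
  obtain ⟨j, hj⟩ := b'.exists_pos
  exact (joined_vtx b hi).trans ((joined_triv _ _ _ _).trans (joined_vtx b' hj).symm)

end Pool.Agent.Helper240
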