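import Mathlib

/-!
# The classifying space of codimension one real analytic Haefliger structures

Germs of orientation preserving real analytic local diffeomorphisms of the line, with the sheaf
topology, and the Milnor model (as used by Haefliger) of the classifying space of this groupoid.
-/

set_option autoImplicit false

open Filter Topology Set

namespace Pool.Agent.Helper240

/-- The function `f` is, near `x`, an orientation preserving real analytic local diffeomorphism. -/
def IsAn (f : ℝ → ℝ) (x : ℝ) : Prop := AnalyticAt ℝ f x ∧ 0 < deriv f x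

/-- Two pairs (function, point) have the same germ. -/
def germSetoid : Setoid {p : (ℝ → ℝ) × ℝ // IsAn p.1 p.2} where
  r a b := a.1.2 = b.1.2 ∧ a.1.1 =ᶠ[𝓝 a.1.2] b.1.1
  iseqv := by
    refine ⟨fun a => ⟨rfl, EventuallyEq.rfl⟩, ?_, ?_⟩
    · rintro a b ⟨h1, h2⟩
      refine ⟨h1.symm, ?_⟩
      rw [← h1]
      exact h2.symm
    · rintro a b c ⟨h1, h2⟩ ⟨h3, h4⟩
      refine ⟨h1.trans h3, ?_⟩
      rw [← h1] at h4
      exact h2.trans h4

/-- The germs of orientation preserving real analytic local diffeomorphisms of `ℝ`. These are the
arrows of the groupoid; the objects are the points of `ℝ`. -/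
def AnGerm : Type := Quotient germSetoid

/-- `IsGermOf g f x`: the arrow `g` is the germ of `f` at the point `x`. -/
def IsGermOf (g : AnGerm) (f : ℝ → ℝ) (x : ℝ) : Prop :=
  ∃ h : IsAn f x, g = Quotient.mk germSetoid ⟨(f, x), h⟩

/-- The source of a germ: the point where it is taken. -/
def AnGerm.src (g : AnGerm) : ℝ :=
  Quotient.lift (s := germSetoid) (fun a => a.1.2) (fun _ _ h => h.1) g

/-- `IsComp g h k`: the composition `g ∘ h` of the germs `g` and `h` is defined (the source of `g`
is the target of `h`), and it is equal to `k`. -/
def IsComp (g h k : AnGerm) : Prop :=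
  ∃ (f f' : ℝ → ℝ) (x : ℝ), IsGermOf h f x ∧ IsGermOf g f' (f x) ∧
    IsGermOf k (fun y => f' (f y)) x

/-- The identity germ at `0` (only used as a conventional value). -/
def unitZero : AnGerm :=
  Quotient.mk germSetoid ⟨(fun y => y, 0), by
    refine ⟨analyticAt_id, ?_⟩
    simp⟩

/-- The sheaf topology on the space of germs: a basis of open sets is given by the sets of all
germs `f_x`, `x ∈ V`, of an orientation preserving real analytic local diffeomorphism `f` defined
on an open set `V`. -/
instance : TopologicalSpace AnGerm :=
  TopologicalSpace.generateFrom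
    {S | ∃ (f : ℝ → ℝ) (V : Set ℝ), IsOpen V ∧ (∀ x ∈ V, IsAn f x) ∧
      S = {g | ∃ x ∈ V, IsGermOf g f x}}

/-- The classifying space of the groupoid of germs of orientation preserving real analytic local
diffeomorphisms of `ℝ` (Milnor's construction, as used by Haefliger). A point consists of
barycentric coordinates `t i`, almost all zero, with sum one, and of a cocycle of germs `γ i j`,
indexed by the pairs `i, j` with `t i > 0` and `t j > 0`; by convention `γ i j` has the meaningless
value `unitZero` for the other pairs. -/
@[ext] structure BGamma where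
  t : ℕ → ℝ
  γ : ℕ → ℕ → AnGerm
  t_nonneg : ∀ i, 0 ≤ t i
  t_finite : {i | t i ≠ 0}.Finite
  t_sum : ∑ᶠ i, t i = 1
  cocycle : ∀ i j k, 0 < t i → 0 < t j → 0 < t k → IsComp (γ i j) (γ j k) (γ i k)
  junk : ∀ i j, ¬ (0 < t i ∧ 0 < t j) → γ i j = unitZero

/-- The coarsest topology for which all the functions `t i`, and all the functions `γ i j`
(defined on the sets where `t i > 0` and `t j > 0`), are continuous. -/
instance : TopologicalSpace BGamma :=
  TopologicalSpace.generateFrom
    ({S | ∃ (i : ℕ) (V : Set ℝ), IsOpen V ∧ S = {b | b.t i ∈ V}} ∪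
      {S | ∃ (i j : ℕ) (W : Set AnGerm), IsOpen W ∧ S = {b | 0 < b.t i ∧ 0 < b.t j ∧ b.γ i j ∈ W}})

/-- The `i`-th local coordinate (the map to `ℝ` given by the Haefliger structure on the open set
where `t i > 0`). -/
def BGamma.coord (b : BGamma) (i : ℕ) : ℝ := (b.γ i i).src

/-- A loop in the classifying space is transverse if the Haefliger structure it induces on the
circle is a foliation, that is, if its local coordinates are locally injective on the circle. -/
def IsTransverse (f : C(Circle, BGamma)) : Prop :=
  ∀ (z : Circle) (i : ℕ), 0 < (f z).t i →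
    ∃ N ∈ 𝓝 z, Set.InjOn (fun w => (f w).coord i) N

end Pool.Agent.Helper240
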