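import Pool.Agent.Helper240.Words

/-!
Pseudogroups of increasing local homeomorphisms of the line with unique continuation give an
instance of the abstract calculus.
-/

set_option autoImplicit false

open Filter Topology Set

namespace Pool.Agent.Helper240

/-- A pseudogroup of increasing local homeomorphisms of `ℝ` with unique continuation, given by the
predicate `P f x`: the germ of `f` at `x` belongs to the pseudogroup. -/
structure PG where
  P : (ℝ → ℝ) → ℝ → Prop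
  congr : ∀ {f g : ℝ → ℝ} {x : ℝ}, P f x → f =ᶠ[𝓝 x] g → P g x
  one : ∀ x : ℝ, P (fun y => y) x
  opn : ∀ {f : ℝ → ℝ} {x : ℝ}, P f x → ∀ᶠ y in 𝓝 x, P f y
  cont : ∀ {f : ℝ → ℝ} {x : ℝ}, P f x → ContinuousAt f x
  mono : ∀ {f : ℝ → ℝ} {x : ℝ}, P f x → ∃ s ∈ 𝓝 x, StrictMonoOn f s
  comp : ∀ {f g : ℝ → ℝ} {x : ℝ}, P f x → P g (f x) → P (fun y => g (f y)) x
  inv : ∀ {f : ℝ → ℝ} {x : ℝ}, P f x → ∃ g : ℝ → ℝ, P g (f x) ∧ ∀ᶠ y in 𝓝 x, g (f y) = y
  uniq : ∀ {f g : ℝ → ℝ} {x : ℝ}, P f x → P g x →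
    (f =ᶠ[𝓝[>] x] g ∨ f =ᶠ[𝓝[<] x] g) → f =ᶠ[𝓝 x] g

namespace PG

variable (G : PG)

theorem image_mem {f : ℝ → ℝ} {x : ℝ} (h : G.P f x) {s : Set ℝ} (hs : s ∈ 𝓝 x) :
    f '' s ∈ 𝓝 (f x) := by
  obtain ⟨t, ht, hmono⟩ := G.mono h
  have h1 : s ∩ t ∩ {y | G.P f y} ∈ 𝓝 x := inter_mem (inter_mem hs ht) (G.opn h)
  obtain ⟨ε, hε, hball⟩ := Metric.mem_nhds_iff.mp h1
  have hsub : Icc (x - ε / 2) (x + ε / 2) ⊆ s ∩ t ∩ {y | G.P f y} := by
    intro y hy
    apply hball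
    rw [Metric.mem_ball, Real.dist_eq, abs_lt]
    constructor <;> linarith [hy.1, hy.2]
  have hcont : ContinuousOn f (Icc (x - ε / 2) (x + ε / 2)) := fun y hy =>
    (G.cont (hsub hy).2).continuousWithinAt
  have hivt := intermediate_value_Icc (by linarith : x - ε / 2 ≤ x + ε / 2) hcont
  have hx : x ∈ Icc (x - ε / 2) (x + ε / 2) := ⟨by linarith, by linarith⟩
  have hl : f (x - ε / 2) < f x :=
    hmono (hsub ⟨le_rfl, by linarith⟩).1.2 (hsub hx).1.2 (by linarith)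
  have hr : f x < f (x + ε / 2) :=
    hmono (hsub hx).1.2 (hsub ⟨by linarith, le_rfl⟩).1.2 (by linarith)
  refine mem_of_superset (Icc_mem_nhds hl hr) (hivt.trans ?_)
  exact image_mono fun y hy => (hsub hy).1.1

theorem tendsto_nhds {f : ℝ → ℝ} {x : ℝ} (h : G.P f x) {p : ℝ → Prop}
    (hp : ∀ᶠ z in 𝓝 (f x), p z) : ∀ᶠ y in 𝓝 x, p (f y) :=
  (G.cont h).eventually hp

theorem of_image {f : ℝ → ℝ} {x : ℝ} (h : G.P f x) {p : ℝ → Prop}
    (hp : ∀ᶠ y in 𝓝 x, p (f y)) : ∀ᶠ z in 𝓝 (f x), p z := by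
  have := G.image_mem h hp
  refine mem_of_superset this ?_
  rintro _ ⟨y, hy, rfl⟩
  exact hy

/-- Unique continuation along an interval. -/
theorem continuation {f g : ℝ → ℝ} {x y : ℝ} (hf : ∀ z ∈ uIcc x y, G.P f z)
    (hg : ∀ z ∈ uIcc x y, G.P g z) (h : f =ᶠ[𝓝 x] g) : f =ᶠ[𝓝 y] g := by
  by_contra hcon
  let S : Set ℝ := {z | f =ᶠ[𝓝 z] g}
  have hSo : IsOpen S := by
    rw [isOpen_iff_mem_nhds]
    intro z hz
    exact eventually_eventually_nhds.mpr hz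
  rcases le_total x y with hxy | hxy
  · rw [uIcc_of_le hxy] at hf hg
    have hB : IsCompact (Icc x y \ S) := isCompact_Icc.diff hSo
    obtain ⟨b, hb, hbl⟩ := hB.exists_isLeast ⟨y, ⟨⟨hxy, le_rfl⟩, hcon⟩⟩
    have hxb : x < b := by
      rcases eq_or_lt_of_le hb.1.1 with h1 | h1
      · exact absurd (h1 ▸ h : f =ᶠ[𝓝 b] g) hb.2
      · exact h1
    apply hb.2
    apply G.uniq (hf b hb.1) (hg b hb.1)
    right
    have : Ioo x b ∈ 𝓝[<] b := Ioo_mem_nhdsLT hxb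
    refine mem_of_superset this ?_
    intro w hw
    have hwS : w ∈ S := by
      by_contra hwS
      have := hbl ⟨⟨hw.1.le, hw.2.le.trans hb.1.2⟩, hwS⟩
      exact absurd this (not_le.mpr hw.2)
    exact hwS.self_of_nhds
  · rw [uIcc_of_ge hxy] at hf hg
    have hB : IsCompact (Icc y x \ S) := isCompact_Icc.diff hSo
    obtain ⟨b, hb, hbl⟩ := hB.exists_isGreatest ⟨y, ⟨⟨le_rfl, hxy⟩, hcon⟩⟩
    have hxb : b < x := by
      rcases eq_or_lt_of_le hb.1.2 with h1 | h1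
      · exact absurd (h1 ▸ h : f =ᶠ[𝓝 b] g) hb.2
      · exact h1
    apply hb.2
    apply G.uniq (hf b hb.1) (hg b hb.1)
    left
    have : Ioo b x ∈ 𝓝[>] b := Ioo_mem_nhdsGT hxb
    refine mem_of_superset this ?_
    intro w hw
    have hwS : w ∈ S := by
      by_contra hwS
      have := hbl ⟨⟨hb.1.1.trans hw.1.le, hw.2.le⟩, hwS⟩
      exact absurd this (not_le.mpr hw.1)
    exact hwS.self_of_nhds

/-- A function in the pseudogroup along an interval is increasing there. -/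
theorem mono_le {f : ℝ → ℝ} {x y : ℝ} (hf : ∀ z ∈ Icc x y, G.P f z) (hxy : x ≤ y) :
    f x ≤ f y := by
  have hcont : ContinuousOn f (Icc x y) := fun z hz => (G.cont (hf z hz)).continuousWithinAt
  have hcl : IsClosed ({z | f x ≤ f z} ∩ Icc x y) := by
    have := hcont.preimage_isClosed_of_isClosed isClosed_Icc (isClosed_Ici (a := f x))
    rwa [inter_comm] at this
  have := hcl.Icc_subset_of_forall_mem_nhdsWithin (a := x) (b := y) (s := {z | f x ≤ f z})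
    (le_refl (f x)) ?_
  · exact this ⟨hxy, le_rfl⟩
  · rintro z ⟨hz1, hz2⟩
    obtain ⟨s, hs, hm⟩ := G.mono (hf z ⟨hz2.1, hz2.2.le⟩)
    have h1 : s ∩ Ioi z ∈ 𝓝[>] z := inter_mem (mem_nhdsWithin_of_mem_nhds hs) self_mem_nhdsWithin
    refine mem_of_superset h1 ?_
    rintro w ⟨hw1, hw2⟩
    exact le_trans hz1 (hm (mem_of_mem_nhds hs) hw1 hw2).le

theorem mapsTo_uIcc {f : ℝ → ℝ} {x y : ℝ} (hf : ∀ z ∈ uIcc x y, G.P f z) :
    ∀ z ∈ uIcc x y, f z ∈ uIcc (f x) (f y) := by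
  intro z hz
  rcases le_total x y with hxy | hxy
  · rw [uIcc_of_le hxy] at hf hz
    have h1 := G.mono_le (x := x) (y := z) (fun w hw => hf w ⟨hw.1, hw.2.trans hz.2⟩) hz.1
    have h2 := G.mono_le (x := z) (y := y) (fun w hw => hf w ⟨hz.1.trans hw.1, hw.2⟩) hz.2
    rw [uIcc_of_le (h1.trans h2)]
    exact ⟨h1, h2⟩
  · rw [uIcc_of_ge hxy] at hf hz
    have h1 := G.mono_le (x := y) (y := z) (fun w hw => hf w ⟨hw.1, hw.2.trans hz.2⟩) hz.1
    have h2 := G.mono_le (x := z) (y := x) (fun w hw => hf w ⟨hz.1.trans hw.1, hw.2⟩) hz.2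
    rw [uIcc_of_ge (h1.trans h2)]
    exact ⟨h1, h2⟩

/-- Pointed representatives of germs. -/
def Arr : Type := {p : (ℝ → ℝ) × ℝ // G.P p.1 p.2}

/-- Continuation of germs along an interval. -/
def Cont (p q : G.Arr) : Prop :=
  ∃ h : ℝ → ℝ, (∀ z ∈ uIcc p.1.2 q.1.2, G.P h z) ∧ p.1.1 =ᶠ[𝓝 p.1.2] h ∧ q.1.1 =ᶠ[𝓝 q.1.2] h

theorem glue_mid {h1 h2 : ℝ → ℝ} {x y z : ℝ} (hxy : x ≤ y) (hyz : y ≤ z)
    (H1 : ∀ w ∈ Icc x y, G.P h1 w) (H2 : ∀ w ∈ Icc y z, G.P h2 w) (h : h1 =ᶠ[𝓝 y] h2) :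
    ∃ k : ℝ → ℝ, (∀ w ∈ Icc x z, G.P k w) ∧ h1 =ᶠ[𝓝 x] k ∧ h2 =ᶠ[𝓝 z] k := by
  classical
  refine ⟨fun w => if w < y then h1 w else h2 w, ?_, ?_, ?_⟩
  · intro w hw
    rcases lt_trichotomy w y with h3 | h3 | h3
    · refine G.congr (H1 w ⟨hw.1, h3.le⟩) ?_
      filter_upwards [Iio_mem_nhds h3] with v hv
      rw [if_pos (show v < y from hv)]
    · subst h3
      refine G.congr (H1 w ⟨hw.1, le_rfl⟩) ?_
      filter_upwards [h] with v hv
      split_ifs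
      · rfl
      · exact hv
    · refine G.congr (H2 w ⟨h3.le, hw.2⟩) ?_
      filter_upwards [Ioi_mem_nhds h3] with v hv
      rw [if_neg (not_lt.mpr (le_of_lt hv))]
  · rcases eq_or_lt_of_le hxy with h3 | h3
    · subst h3
      filter_upwards [h] with v hv
      split_ifs
      · rfl
      · exact hv
    · filter_upwards [Iio_mem_nhds h3] with v hv
      rw [if_pos (show v < y from hv)]
  · rcases eq_or_lt_of_le hyz with h3 | h3
    · subst h3
      filter_upwards [h] with v hv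
      split_ifs
      · exact hv.symm
      · rfl
    · filter_upwards [Ioi_mem_nhds h3] with v hv
      rw [if_neg (not_lt.mpr (le_of_lt hv))]

theorem glue {h1 h2 : ℝ → ℝ} {x y z : ℝ}
    (H1 : ∀ w ∈ uIcc x y, G.P h1 w) (H2 : ∀ w ∈ uIcc y z, G.P h2 w) (h : h1 =ᶠ[𝓝 y] h2) :
    ∃ k : ℝ → ℝ, (∀ w ∈ uIcc x z, G.P k w) ∧ h1 =ᶠ[𝓝 x] k ∧ h2 =ᶠ[𝓝 z] k := by
  have hcases : (x ≤ y ∧ y ≤ z) ∨ (z ≤ y ∧ y ≤ x) ∨ (z ∈ uIcc x y) ∨ (x ∈ uIcc y z) := by
    rcases le_total x y with a | a <;> rcases le_total y z with b | b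
    · exact Or.inl ⟨a, b⟩
    · rcases le_total x z with c | c
      · right; right; left; rw [uIcc_of_le a]; exact ⟨c, b⟩
      · right; right; right; rw [uIcc_of_ge b]; exact ⟨c, a⟩
    · rcases le_total x z with c | c
      · right; right; right; rw [uIcc_of_le b]; exact ⟨a, c⟩
      · right; right; left; rw [uIcc_of_ge a]; exact ⟨b, c⟩
    · exact Or.inr (Or.inl ⟨b, a⟩)
  rcases hcases with ⟨a, b⟩ | ⟨a, b⟩ | a | a
  · rw [uIcc_of_le a] at H1
    rw [uIcc_of_le b] at H2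
    rw [uIcc_of_le (a.trans b)]
    exact G.glue_mid a b H1 H2 h
  · rw [uIcc_of_ge b] at H1
    rw [uIcc_of_ge a] at H2
    rw [uIcc_of_ge (a.trans b)]
    obtain ⟨k, hk1, hk2, hk3⟩ := G.glue_mid a b H2 H1 h.symm
    exact ⟨k, hk1, hk3, hk2⟩
  · -- z between x and y
    refine ⟨h1, fun w hw => H1 w (uIcc_subset_uIcc left_mem_uIcc a hw), EventuallyEq.rfl, ?_⟩
    refine (G.continuation (x := y) (y := z) (fun w hw => H1 w ?_) H2 h).symm
    exact uIcc_subset_uIcc right_mem_uIcc a hw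
  · refine ⟨h2, fun w hw => H2 w (uIcc_subset_uIcc a right_mem_uIcc hw), ?_, EventuallyEq.rfl⟩
    refine G.continuation (x := y) (y := x) (fun w hw => H1 w ?_) (fun w hw => H2 w ?_) h
    · rwa [uIcc_comm]
    · exact uIcc_subset_uIcc left_mem_uIcc a hw

/-- The equivalence relation of continuation. -/
def setoid : Setoid G.Arr where
  r := G.Cont
  iseqv := by
    refine ⟨?_, ?_, ?_⟩
    · intro p
      refine ⟨p.1.1, ?_, EventuallyEq.rfl, EventuallyEq.rfl⟩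
      intro z hz
      rw [uIcc_self, mem_singleton_iff] at hz
      rw [hz]; exact p.2
    · rintro p q ⟨h, h1, h2, h3⟩
      exact ⟨h, by rwa [uIcc_comm], h3, h2⟩
    · rintro p q r ⟨h, h1, h2, h3⟩ ⟨k, k1, k2, k3⟩
      obtain ⟨l, l1, l2, l3⟩ := G.glue h1 k1 (h3.symm.trans k2)
      exact ⟨l, l1, h2.trans l2, k3.trans l3⟩

/-- Maximal elements of the pseudogroup. -/
def Elt : Type := Quotient G.setoid

/-- The maximal element containing a given germ. -/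
def elt (f : ℝ → ℝ) (x : ℝ) (h : G.P f x) : G.Elt := Quotient.mk G.setoid ⟨(f, x), h⟩

theorem elt_eq_iff {f g : ℝ → ℝ} {x y : ℝ} (hf : G.P f x) (hg : G.P g y) :
    G.elt f x hf = G.elt g y hg ↔
      ∃ h : ℝ → ℝ, (∀ z ∈ uIcc x y, G.P h z) ∧ f =ᶠ[𝓝 x] h ∧ g =ᶠ[𝓝 y] h := by
  exact Quotient.eq (r := G.setoid)

theorem elt_eq_mk_iff {f g : ℝ → ℝ} {x : ℝ} (hf : G.P f x) (hg : G.P g x) :
    G.elt f x hf = G.elt g x hg ↔ f =ᶠ[𝓝 x] g := by
  rw [elt_eq_iff]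
  constructor
  · rintro ⟨h, _, h1, h2⟩; exact h1.trans h2.symm
  · intro h
    refine ⟨f, ?_, EventuallyEq.rfl, h.symm⟩
    intro z hz
    rw [uIcc_self, mem_singleton_iff] at hz
    rw [hz]; exact hf

theorem elt_congr {f g : ℝ → ℝ} {x y : ℝ} (hf : G.P f x) (hg : G.P g y) (hxy : x = y)
    (h : f =ᶠ[𝓝 x] g) : G.elt f x hf = G.elt g y hg := by
  subst hxy
  exact (G.elt_eq_mk_iff hf hg).mpr h

theorem elt_continuation {f : ℝ → ℝ} {x y : ℝ} (h : ∀ z ∈ uIcc x y, G.P f z) :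
    G.elt f x (h x left_mem_uIcc) = G.elt f y (h y right_mem_uIcc) := by
  rw [elt_eq_iff]
  exact ⟨f, h, EventuallyEq.rfl, EventuallyEq.rfl⟩

theorem exists_rep (a : G.Elt) : ∃ f x, ∃ h : G.P f x, G.elt f x h = a := by
  induction a using Quotient.inductionOn with
  | h p => exact ⟨p.1.1, p.1.2, p.2, rfl⟩

/-- Domain of a maximal element. -/
def dom (a : G.Elt) : Set ℝ := {x | ∃ f, ∃ h : G.P f x, G.elt f x h = a}

open Classical in
/-- Value of a maximal element. -/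
noncomputable def app (a : G.Elt) (x : ℝ) : ℝ :=
  if h : ∃ f, ∃ h : G.P f x, G.elt f x h = a then h.choose x else 0

theorem elt_dom {f : ℝ → ℝ} {x : ℝ} (h : G.P f x) : x ∈ G.dom (G.elt f x h) := ⟨f, h, rfl⟩

theorem elt_app {f : ℝ → ℝ} {x : ℝ} (h : G.P f x) : G.app (G.elt f x h) x = f x := by
  unfold app
  have hex : ∃ g, ∃ hg : G.P g x, G.elt g x hg = G.elt f x h := ⟨f, h, rfl⟩
  rw [dif_pos hex]
  obtain ⟨h1, h2⟩ := hex.choose_spec
  exact ((G.elt_eq_mk_iff h1 h).mp h2).self_of_nhds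

/-- A local inverse. -/
noncomputable def linv {f : ℝ → ℝ} {x : ℝ} (h : G.P f x) : ℝ → ℝ := (G.inv h).choose

theorem linv_P {f : ℝ → ℝ} {x : ℝ} (h : G.P f x) : G.P (G.linv h) (f x) :=
  (G.inv h).choose_spec.1

theorem linv_left {f : ℝ → ℝ} {x : ℝ} (h : G.P f x) : ∀ᶠ y in 𝓝 x, G.linv h (f y) = y :=
  (G.inv h).choose_spec.2

theorem right_of_left {f g : ℝ → ℝ} {x : ℝ} (h : G.P f x) (hg : ∀ᶠ y in 𝓝 x, g (f y) = y) :
    ∀ᶠ z in 𝓝 (f x), f (g z) = z := by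
  apply G.of_image h
  filter_upwards [hg] with y hy
  rw [hy]

theorem inv_unique {f g g' : ℝ → ℝ} {x : ℝ} (h : G.P f x) (hg : ∀ᶠ y in 𝓝 x, g (f y) = y)
    (hg' : ∀ᶠ y in 𝓝 x, g' (f y) = y) : g =ᶠ[𝓝 (f x)] g' := by
  apply G.of_image h
  filter_upwards [hg, hg'] with y hy hy'
  rw [hy, hy']

/-- Being constant along an interval follows from being locally constant. -/
theorem const_of_local {B : Type} {x y : ℝ} (F : ℝ → B)
    (h : ∀ z ∈ uIcc x y, ∀ᶠ w in 𝓝 z, w ∈ uIcc x y → F w = F z) : F x = F y := by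
  let _ : TopologicalSpace B := ⊥
  have _ : DiscreteTopology B := ⟨rfl⟩
  have hc : ContinuousOn F (uIcc x y) := by
    intro z hz
    have : ∀ᶠ w in 𝓝[uIcc x y] z, F w = F z := by
      rw [eventually_nhdsWithin_iff]; exact h z hz
    exact (continuousWithinAt_const (b := F z)).congr_of_eventuallyEq this rfl
  exact (isPreconnected_uIcc).constant hc left_mem_uIcc right_mem_uIcc

theorem inv_wd (p q : G.Arr) (hpq : G.Cont p q) :
    G.elt (G.linv p.2) (p.1.1 p.1.2) (G.linv_P p.2) = G.elt (G.linv q.2) (q.1.1 q.1.2) (G.linv_P q.2) := by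
  classical
  obtain ⟨h, h1, h2, h3⟩ := hpq
  set x := p.1.2 with hx
  set y := q.1.2 with hy
  have hPx := h1 x left_mem_uIcc
  have hPy := h1 y right_mem_uIcc
  -- replace p by (h, x), q by (h, y)
  have e1 : G.elt (G.linv p.2) (p.1.1 p.1.2) (G.linv_P p.2) = G.elt (G.linv hPx) (h x) (G.linv_P hPx) := by
    refine G.elt_congr _ _ h2.self_of_nhds ?_
    refine G.inv_unique p.2 (G.linv_left p.2) ?_
    filter_upwards [h2, G.linv_left hPx] with w hw1 hw2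
    rw [hw1, hw2]
  have e2 : G.elt (G.linv q.2) (q.1.1 q.1.2) (G.linv_P q.2) = G.elt (G.linv hPy) (h y) (G.linv_P hPy) := by
    refine G.elt_congr _ _ h3.self_of_nhds ?_
    refine G.inv_unique q.2 (G.linv_left q.2) ?_
    filter_upwards [h3, G.linv_left hPy] with w hw1 hw2
    rw [hw1, hw2]
  rw [e1, e2]
  let F : ℝ → G.Elt := fun z => if hz : G.P h z then G.elt (G.linv hz) (h z) (G.linv_P hz)
    else G.elt (fun y => y) 0 (G.one 0)
  have hFx : F x = G.elt (G.linv hPx) (h x) (G.linv_P hPx) := by simp only [F]; rw [dif_pos hPx]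
  have hFy : F y = G.elt (G.linv hPy) (h y) (G.linv_P hPy) := by simp only [F]; rw [dif_pos hPy]
  rw [← hFx, ← hFy]
  apply const_of_local
  intro z hz
  have hPz := h1 z hz
  -- near z
  have a1 : ∀ᶠ w in 𝓝 z, G.P h w := G.opn hPz
  have a2 : ∀ᶠ w in 𝓝 z, ∀ᶠ v in 𝓝 w, G.linv hPz (h v) = v :=
    eventually_eventually_nhds.mpr (G.linv_left hPz)
  have a3 : ∀ᶠ w in 𝓝 z, ∀ v ∈ uIcc (h w) (h z), G.P (G.linv hPz) v := by
    obtain ⟨ε, hε, hball⟩ := Metric.eventually_nhds_iff_ball.mp (G.opn (G.linv_P hPz))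
    have : ∀ᶠ w in 𝓝 z, h w ∈ Metric.ball (h z) ε :=
      (G.cont hPz).eventually (Metric.ball_mem_nhds _ hε)
    filter_upwards [this] with w hw v hv
    apply hball
    rw [Metric.mem_ball, Real.dist_eq] at hw ⊢
    have := abs_sub_right_of_mem_uIcc hv
    rw [abs_sub_comm (h w)] at hw
    have h5 : |v - h z| ≤ |h w - h z| := by
      have := abs_sub_right_of_mem_uIcc hv
      rw [abs_sub_comm v, abs_sub_comm (h w)]
      exact this
    rw [abs_sub_comm (h z)] at hw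
    exact lt_of_le_of_lt h5 hw
  filter_upwards [a1, a2, a3] with w hw1 hw2 hw3 _
  simp only [F]
  rw [dif_pos hw1, dif_pos hPz]
  have b1 : G.elt (G.linv hw1) (h w) (G.linv_P hw1) =
      G.elt (G.linv hPz) (h w) (hw3 _ left_mem_uIcc) :=
    G.elt_congr _ _ rfl (G.inv_unique hw1 (G.linv_left hw1) hw2)
  rw [b1]
  exact G.elt_continuation hw3

/-- Inverse of a maximal element. -/
noncomputable def einv (a : G.Elt) : G.Elt :=
  Quotient.lift (fun p : G.Arr => G.elt (G.linv p.2) (p.1.1 p.1.2) (G.linv_P p.2)) (G.inv_wd) a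

theorem einv_elt {f : ℝ → ℝ} {x : ℝ} (h : G.P f x) :
    G.einv (G.elt f x h) = G.elt (G.linv h) (f x) (G.linv_P h) := rfl

theorem einv_elt' {f g : ℝ → ℝ} {x : ℝ} (h : G.P f x) (hg : G.P g (f x))
    (hgf : ∀ᶠ y in 𝓝 x, g (f y) = y) : G.einv (G.elt f x h) = G.elt g (f x) hg := by
  rw [einv_elt]
  exact G.elt_congr _ _ rfl (G.inv_unique h (G.linv_left h) hgf)

/-- Composition of maximal elements in path order. -/
def ecomp (a b c : G.Elt) : Prop :=
  ∃ (x : ℝ) (f g : ℝ → ℝ) (hf : G.P f x) (hg : G.P g (f x)),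
    G.elt f x hf = a ∧ G.elt g (f x) hg = b ∧ G.elt (fun y => g (f y)) x (G.comp hf hg) = c

theorem ecomp_uniq {a b c c' : G.Elt} (h : G.ecomp a b c) (h' : G.ecomp a b c') : c = c' := by
  obtain ⟨x, f, g, hf, hg, rfl, rfl, rfl⟩ := h
  obtain ⟨x', f', g', hf', hg', ha, hb, rfl⟩ := h'
  obtain ⟨h, h1, h2, h3⟩ := (G.elt_eq_iff _ _).mp ha.symm
  obtain ⟨k, k1, k2, k3⟩ := (G.elt_eq_iff _ _).mp hb.symm
  have e1 : f x = h x := h2.self_of_nhds
  have e2 : f' x' = h x' := h3.self_of_nhds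
  rw [elt_eq_iff]
  refine ⟨fun y => k (h y), ?_, ?_, ?_⟩
  · intro z hz
    refine G.comp (h1 z hz) (k1 _ ?_)
    rw [e1, e2]
    exact G.mapsTo_uIcc h1 z hz
  · have := (G.cont hf).eventually k2
    filter_upwards [h2, this] with w hw1 hw2
    rw [← hw1]; exact hw2
  · have := (G.cont hf').eventually k3
    filter_upwards [h3, this] with w hw1 hw2
    rw [← hw1]; exact hw2

theorem ecomp_elt {f g : ℝ → ℝ} {x : ℝ} (hf : G.P f x) (hg : G.P g (f x)) :
    G.ecomp (G.elt f x hf) (G.elt g (f x) hg) (G.elt (fun y => g (f y)) x (G.comp hf hg)) :=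
  ⟨x, f, g, hf, hg, rfl, rfl, rfl⟩

theorem rep_of_dom {a : G.Elt} {x : ℝ} (h : x ∈ G.dom a) :
    ∃ f, ∃ hf : G.P f x, G.elt f x hf = a ∧ G.app a x = f x := by
  obtain ⟨f, hf, rfl⟩ := h
  exact ⟨f, hf, rfl, G.elt_app hf⟩

theorem ecomp_at {a b : G.Elt} {x : ℝ} (ha : x ∈ G.dom a) (hb : G.app a x ∈ G.dom b) :
    ∃ (f g : ℝ → ℝ) (hf : G.P f x) (hg : G.P g (f x)), G.elt f x hf = a ∧ G.elt g (f x) hg = b ∧
      G.app a x = f x ∧ G.app b (f x) = g (f x) ∧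
      G.ecomp a b (G.elt (fun y => g (f y)) x (G.comp hf hg)) := by
  obtain ⟨f, hf, h1, h2⟩ := G.rep_of_dom ha
  rw [h2] at hb
  obtain ⟨g, hg, h3, h4⟩ := G.rep_of_dom hb
  refine ⟨f, g, hf, hg, h1, h3, h2, h4, ?_⟩
  rw [← h1, ← h3]
  exact G.ecomp_elt hf hg

theorem elt_one (x y : ℝ) : G.elt (fun y => y) x (G.one x) = G.elt (fun y => y) y (G.one y) :=
  G.elt_continuation fun z _ => G.one z

/-- The calculus attached to a pseudogroup with unique continuation. -/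
noncomputable def lineCalc : LineCalc G.Elt where
  dom := G.dom
  app := G.app
  one := G.elt (fun y => y) 0 (G.one 0)
  inv := G.einv
  comp := G.ecomp
  dom_oc := by
    intro a
    rw [ordConnected_iff_uIcc_subset]
    rintro x ⟨f, hf, rfl⟩ y ⟨g, hg, hfg⟩ z hz
    obtain ⟨h, h1, h2, h3⟩ := (G.elt_eq_iff _ _).mp hfg.symm
    refine ⟨h, h1 z hz, ?_⟩
    rw [← G.elt_continuation (x := x) (y := z)
      (fun w hw => h1 w (uIcc_subset_uIcc left_mem_uIcc hz hw))]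
    exact G.elt_congr _ _ rfl h2.symm
  mono := by
    rintro a x ⟨f, hf, rfl⟩ y ⟨g, hg, hfg⟩ hxy
    obtain ⟨h, h1, h2, h3⟩ := (G.elt_eq_iff _ _).mp hfg.symm
    rw [G.elt_app hf, ← hfg, G.elt_app hg, h2.self_of_nhds, h3.self_of_nhds]
    rw [uIcc_of_le hxy] at h1
    exact G.mono_le h1 hxy
  one_dom := by
    intro x
    exact ⟨_, G.one x, G.elt_one x 0⟩
  one_app := by
    intro x
    rw [← G.elt_one x 0, G.elt_app]
  inv_dom := by
    rintro a x ⟨f, hf, rfl⟩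
    rw [G.elt_app, G.einv_elt]
    exact G.elt_dom _
  inv_app := by
    rintro a x ⟨f, hf, rfl⟩
    rw [G.elt_app, G.einv_elt, G.elt_app]
    exact (G.linv_left hf).self_of_nhds
  inv_inv := by
    intro a
    obtain ⟨f, x, hf, rfl⟩ := G.exists_rep a
    rw [G.einv_elt]
    have hx : G.linv hf (f x) = x := (G.linv_left hf).self_of_nhds
    have hf' : G.P f (G.linv hf (f x)) := by rw [hx]; exact hf
    rw [G.einv_elt' (G.linv_P hf) hf' (G.right_of_left hf (G.linv_left hf))]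
    exact G.elt_congr _ _ hx EventuallyEq.rfl
  comp_ex := by
    rintro a b c ⟨x, f, g, hf, hg, rfl, rfl, rfl⟩
    exact ⟨x, G.elt_dom hf, by rw [G.elt_app]; exact G.elt_dom hg⟩
  comp_mk := by
    intro a b x ha hb
    obtain ⟨f, g, hf, hg, _, _, _, _, h⟩ := G.ecomp_at ha hb
    exact ⟨_, h⟩
  comp_uniq := fun a b c c' h h' => G.ecomp_uniq h h'
  comp_dom := by
    intro a b c x h ha hb
    obtain ⟨f, g, hf, hg, _, _, _, _, h'⟩ := G.ecomp_at ha hb
    rw [G.ecomp_uniq h h']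
    exact G.elt_dom _
  comp_app := by
    intro a b c x h ha hb
    obtain ⟨f, g, hf, hg, _, _, h3, h4, h'⟩ := G.ecomp_at ha hb
    rw [G.ecomp_uniq h h', G.elt_app, h3, h4]
  comp_inv_left := by
    rintro a b c ⟨x, f, g, hf, hg, rfl, rfl, rfl⟩
    rw [G.einv_elt]
    have hx : G.linv hf (f x) = x := (G.linv_left hf).self_of_nhds
    have hgf : G.P (fun y => g (f y)) (G.linv hf (f x)) := by rw [hx]; exact G.comp hf hg
    refine ⟨f x, G.linv hf, fun y => g (f y), G.linv_P hf, hgf, rfl, ?_, ?_⟩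
    · exact G.elt_congr _ _ hx EventuallyEq.rfl
    · refine G.elt_congr _ _ rfl ?_
      filter_upwards [G.right_of_left hf (G.linv_left hf)] with z hz
      rw [hz]
  comp_inv_right := by
    rintro a b c ⟨x, f, g, hf, hg, rfl, rfl, rfl⟩
    rw [G.einv_elt]
    refine ⟨x, fun y => g (f y), G.linv hg, G.comp hf hg, G.linv_P hg, rfl, rfl, ?_⟩
    refine G.elt_congr _ _ rfl ?_
    exact (G.cont hf).eventually (G.linv_left hg)
  comp_one := by
    intro a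
    obtain ⟨f, x, hf, rfl⟩ := G.exists_rep a
    exact ⟨x, f, fun y => y, hf, G.one _, rfl, G.elt_one _ _, rfl⟩
  one_comp := by
    intro a
    obtain ⟨f, x, hf, rfl⟩ := G.exists_rep a
    exact ⟨x, fun y => y, f, G.one x, hf, G.elt_one _ _, rfl, rfl⟩
  assoc := by
    intro a b c d e f x ha hb hc hab hbc hdc
    obtain ⟨p, q, hp, hq, h1, h2, h3, h4, h5⟩ := G.ecomp_at ha hb
    rw [h3, h4] at hc
    obtain ⟨r, hr, h6, h7⟩ := G.rep_of_dom hc
    have hd := G.ecomp_uniq hab h5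
    have he : e = G.elt (fun y => r (q y)) (p x) (G.comp hq hr) := by
      refine G.ecomp_uniq hbc ?_
      rw [← h2, ← h6]
      exact G.ecomp_elt hq hr
    have hf : f = G.elt (fun y => r (q (p y))) x (G.comp (G.comp hp hq) hr) := by
      refine G.ecomp_uniq hdc ?_
      rw [hd, ← h6]
      exact G.ecomp_elt (G.comp hp hq) hr
    rw [he, hf, ← h1]
    exact G.ecomp_elt hp (G.comp hq hr)

end PG

end Pool.Agent.Helper240
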