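import Pool.Agent.Helper240.Defs
import Pool.Agent.Helper240.Pseudo

/-!
Two pseudogroups with unique continuation: real analytic diffeomorphisms, and the larger one of
homeomorphisms with analytically parametrized graph.
-/

set_option autoImplicit false

open Filter Topology Set

namespace Pool.Agent.Helper240

theorem deriv_analyticAt {f : ℝ → ℝ} {x : ℝ} (h : AnalyticAt ℝ f x) : AnalyticAt ℝ (deriv f) x :=
  h.deriv

theorem IsAn.congr {f g : ℝ → ℝ} {x : ℝ} (h : IsAn f x) (hfg : f =ᶠ[𝓝 x] g) : IsAn g x :=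
  ⟨h.1.congr hfg, by rw [← hfg.deriv_eq]; exact h.2⟩

theorem IsAn.opn {f : ℝ → ℝ} {x : ℝ} (h : IsAn f x) : ∀ᶠ y in 𝓝 x, IsAn f y := by
  have h1 := h.1.eventually_analyticAt
  have h2 : ∀ᶠ y in 𝓝 x, 0 < deriv f y := (h.1.deriv.continuousAt).eventually (lt_mem_nhds h.2)
  filter_upwards [h1, h2] with y hy1 hy2
  exact ⟨hy1, hy2⟩

theorem IsAn.mono {f : ℝ → ℝ} {x : ℝ} (h : IsAn f x) : ∃ s ∈ 𝓝 x, StrictMonoOn f s := by
  obtain ⟨ε, hε, hball⟩ := Metric.eventually_nhds_iff_ball.mp h.opn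
  refine ⟨Metric.ball x ε, Metric.ball_mem_nhds _ hε, ?_⟩
  apply strictMonoOn_of_deriv_pos (convex_ball x ε)
  · intro y hy
    exact (hball y hy).1.continuousAt.continuousWithinAt
  · intro y hy
    rw [Metric.isOpen_ball.interior_eq] at hy
    exact (hball y hy).2

theorem IsAn.comp {f g : ℝ → ℝ} {x : ℝ} (hf : IsAn f x) (hg : IsAn g (f x)) :
    IsAn (fun y => g (f y)) x := by
  refine ⟨hg.1.comp hf.1, ?_⟩
  have : deriv (fun y => g (f y)) x = deriv g (f x) * deriv f x :=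
    deriv_comp x hg.1.differentiableAt hf.1.differentiableAt
  rw [this]
  exact mul_pos hg.2 hf.2

theorem IsAn.inv {f : ℝ → ℝ} {x : ℝ} (hf : IsAn f x) :
    ∃ g : ℝ → ℝ, IsAn g (f x) ∧ (∀ᶠ y in 𝓝 x, g (f y) = y) ∧ ∀ᶠ z in 𝓝 (f x), f (g z) = z := by
  have hne : deriv f x ≠ 0 := hf.2.ne'
  refine ⟨hf.1.hasStrictDerivAt.localInverse _ _ _ hne, ⟨hf.1.analyticAt_localInverse hne, ?_⟩,
    hf.1.hasStrictDerivAt.eventually_left_inverse hne,
    hf.1.hasStrictDerivAt.eventually_right_inverse hne⟩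
  rw [(hf.1.hasStrictDerivAt.to_localInverse hne).hasDerivAt.deriv]
  exact inv_pos.mpr hf.2

theorem analytic_uniq {f g : ℝ → ℝ} {x : ℝ} (hf : AnalyticAt ℝ f x) (hg : AnalyticAt ℝ g x)
    (h : f =ᶠ[𝓝[>] x] g ∨ f =ᶠ[𝓝[<] x] g) : f =ᶠ[𝓝 x] g := by
  have key : ∃ᶠ z in 𝓝[≠] x, f z = g z := by
    rcases h with h | h
    · exact h.frequently.filter_mono (nhdsWithin_mono x fun y hy => ne_of_gt hy)
    · exact h.frequently.filter_mono (nhdsWithin_mono x fun y hy => ne_of_lt hy)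
  exact (hf.frequently_eq_iff_eventually_eq hg).mp key

/-- The pseudogroup of increasing real analytic local diffeomorphisms. -/
def anPG : PG where
  P := IsAn
  congr := IsAn.congr
  one := fun x => ⟨analyticAt_id, by simp⟩
  opn := IsAn.opn
  cont := fun h => h.1.continuousAt
  mono := IsAn.mono
  comp := IsAn.comp
  inv := fun h => by
    obtain ⟨g, h1, h2, _⟩ := h.inv
    exact ⟨g, h1, h2⟩
  uniq := fun hf hg h => analytic_uniq hf.1 hg.1 h

/-- Analytic parametrizations at `0`. -/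
def Good (u : ℝ → ℝ) : Prop := AnalyticAt ℝ u 0 ∧ ∃ s ∈ 𝓝 (0 : ℝ), StrictMonoOn u s

theorem good_image_mem {u : ℝ → ℝ} (h : Good u) {s : Set ℝ} (hs : s ∈ 𝓝 (0 : ℝ)) :
    u '' s ∈ 𝓝 (u 0) := by
  obtain ⟨hu, t, ht, hmono⟩ := h
  have h1 : s ∩ t ∩ {y | AnalyticAt ℝ u y} ∈ 𝓝 (0 : ℝ) :=
    inter_mem (inter_mem hs ht) hu.eventually_analyticAt
  obtain ⟨ε, hε, hball⟩ := Metric.mem_nhds_iff.mp h1
  have hsub : Icc (-(ε / 2)) (ε / 2) ⊆ s ∩ t ∩ {y | AnalyticAt ℝ u y} := by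
    intro y hy
    apply hball
    rw [Metric.mem_ball, Real.dist_eq, abs_lt]
    constructor <;> linarith [hy.1, hy.2]
  have hcont : ContinuousOn u (Icc (-(ε / 2)) (ε / 2)) := fun y hy =>
    (hsub hy).2.continuousAt.continuousWithinAt
  have hivt := intermediate_value_Icc (by linarith : -(ε / 2) ≤ ε / 2) hcont
  have hx : (0 : ℝ) ∈ Icc (-(ε / 2)) (ε / 2) := ⟨by linarith, by linarith⟩
  have hl : u (-(ε / 2)) < u 0 :=
    hmono (hsub ⟨le_rfl, by linarith⟩).1.2 (hsub hx).1.2 (by linarith)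
  have hr : u 0 < u (ε / 2) :=
    hmono (hsub hx).1.2 (hsub ⟨by linarith, le_rfl⟩).1.2 (by linarith)
  refine mem_of_superset (Icc_mem_nhds hl hr) (hivt.trans ?_)
  exact image_mono fun y hy => (hsub hy).1.1

theorem good_of_image {u : ℝ → ℝ} (h : Good u) {p : ℝ → Prop} (hp : ∀ᶠ t in 𝓝 (0 : ℝ), p (u t)) :
    ∀ᶠ z in 𝓝 (u 0), p z := by
  refine mem_of_superset (good_image_mem h hp) ?_
  rintro _ ⟨y, hy, rfl⟩
  exact hy

theorem Good.comp {u s : ℝ → ℝ} (hu : Good u) (hs : Good s) (hs0 : s 0 = 0) :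
    Good (fun t => u (s t)) := by
  obtain ⟨hu1, a, ha, hu2⟩ := hu
  obtain ⟨hs1, b, hb, hs2⟩ := hs
  refine ⟨AnalyticAt.comp (by rw [hs0]; exact hu1) hs1, b ∩ s ⁻¹' a, inter_mem hb ?_, ?_⟩
  · apply hs1.continuousAt
    rw [hs0]; exact ha
  · intro x hx y hy hxy
    exact hu2 hx.2 hy.2 (hs2 hx.1 hy.1 hxy)

theorem Good.shift {u : ℝ → ℝ} (hu : Good u) : ∀ᶠ a in 𝓝 (0 : ℝ), Good (fun t => u (a + t)) := by
  obtain ⟨hu1, s, hs, hu2⟩ := hu
  filter_upwards [hu1.eventually_analyticAt, eventually_eventually_nhds.mpr hs] with a ha hsa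
  have hc : ContinuousAt (fun t : ℝ => a + t) 0 := by fun_prop
  refine ⟨AnalyticAt.comp (g := u) (f := fun t => a + t) (by simpa using ha) (by fun_prop),
    (fun t => a + t) ⁻¹' s, ?_, ?_⟩
  · apply hc
    show s ∈ 𝓝 (a + 0)
    rw [add_zero]; exact hsa
  · intro x hx y hy hxy
    exact hu2 hx hy (by linarith)

theorem good_of_isAn {u : ℝ → ℝ} (h : IsAn u 0) : Good u := ⟨h.1, h.mono⟩

/-- Normal form of an analytic parametrization. -/
theorem Good.normal {u : ℝ → ℝ} (hu : Good u) :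
    ∃ (k : ℕ) (D : ℝ → ℝ), Odd k ∧ IsAn D 0 ∧ D 0 = 0 ∧ ∀ᶠ t in 𝓝 (0 : ℝ), u t = u 0 + D t ^ k := by
  obtain ⟨hu1, s, hs, hmono⟩ := hu
  have h0s : (0 : ℝ) ∈ s := mem_of_mem_nhds hs
  have han : AnalyticAt ℝ (fun t => u t - u 0) 0 := hu1.sub analyticAt_const
  have hne : ¬ ∀ᶠ z in 𝓝 (0 : ℝ), (fun t => u t - u 0) z = 0 := by
    intro hcon
    have h1 : ∀ᶠ z in 𝓝[>] (0 : ℝ), z ∈ s ∧ u z - u 0 = 0 ∧ 0 < z := by
      filter_upwards [mem_nhdsWithin_of_mem_nhds hs, mem_nhdsWithin_of_mem_nhds hcon,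
        self_mem_nhdsWithin] with z h1 h2 h3
      exact ⟨h1, h2, h3⟩
    obtain ⟨z, hz1, hz2, hz3⟩ := h1.exists
    have := hmono h0s hz1 hz3
    linarith
  obtain ⟨k, g, hg, hg0, heq⟩ := han.exists_eventuallyEq_pow_smul_nonzero_iff.mpr hne
  simp only [sub_zero, smul_eq_mul] at heq
  -- sign of `g` near 0
  have hk0 : k ≠ 0 := by
    intro hk
    have := heq.self_of_nhds
    rw [hk] at this
    simp at this
    exact hg0 this.symm
  have hgpos : 0 < g 0 := by
    by_contra hcon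
    have hneg : g 0 < 0 := lt_of_le_of_ne (not_lt.mp hcon) hg0
    have h1 : ∀ᶠ z in 𝓝 (0 : ℝ), g z < 0 := hg.continuousAt.eventually (gt_mem_nhds hneg)
    have h2 : ∀ᶠ z in 𝓝[>] (0 : ℝ), z ∈ s ∧ u z - u 0 = z ^ k * g z ∧ 0 < z ∧ g z < 0 := by
      filter_upwards [mem_nhdsWithin_of_mem_nhds hs, mem_nhdsWithin_of_mem_nhds heq,
        self_mem_nhdsWithin, mem_nhdsWithin_of_mem_nhds h1] with z a1 a2 a3 a4
      exact ⟨a1, a2, a3, a4⟩
    obtain ⟨z, z1, z2, z3, z4⟩ := h2.exists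
    have := hmono h0s z1 z3
    have h5 : 0 < z ^ k := pow_pos z3 k
    nlinarith
  have hodd : Odd k := by
    by_contra hcon
    rw [Nat.not_odd_iff_even] at hcon
    have h1 : ∀ᶠ z in 𝓝 (0 : ℝ), 0 < g z := hg.continuousAt.eventually (lt_mem_nhds hgpos)
    have h2 : ∀ᶠ z in 𝓝[<] (0 : ℝ), z ∈ s ∧ u z - u 0 = z ^ k * g z ∧ z < 0 ∧ 0 < g z := by
      filter_upwards [mem_nhdsWithin_of_mem_nhds hs, mem_nhdsWithin_of_mem_nhds heq,
        self_mem_nhdsWithin, mem_nhdsWithin_of_mem_nhds h1] with z a1 a2 a3 a4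
      exact ⟨a1, a2, a3, a4⟩
    obtain ⟨z, z1, z2, z3, z4⟩ := h2.exists
    have h3 := hmono z1 h0s z3
    have h5 : 0 ≤ z ^ k := hcon.pow_nonneg z
    nlinarith
  have hkR : (k : ℝ) ≠ 0 := by exact_mod_cast hk0
  refine ⟨k, fun t => t * Real.exp (Real.log (g t) / k), hodd, ?_, by simp, ?_⟩
  · have hlog : AnalyticAt ℝ (fun t => Real.exp (Real.log (g t) / k)) 0 := by
      have h1 : AnalyticAt ℝ (fun t => Real.log (g t)) 0 := hg.log hgpos
      have h2 : AnalyticAt ℝ (fun t => Real.log (g t) / k) 0 := h1.div analyticAt_const hkR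
      exact h2.rexp
    refine ⟨analyticAt_id.mul hlog, ?_⟩
    have hd : deriv (fun t => t * Real.exp (Real.log (g t) / k)) 0 = Real.exp (Real.log (g 0) / k) := by
      have h3 : HasDerivAt (fun t => t * Real.exp (Real.log (g t) / k))
          (1 * Real.exp (Real.log (g 0) / k) +
            0 * deriv (fun t => Real.exp (Real.log (g t) / k)) 0) 0 :=
        (hasDerivAt_id' (0 : ℝ)).mul hlog.differentiableAt.hasDerivAt
      rw [h3.deriv]; ring
    rw [hd]
    exact Real.exp_pos _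
  · have h1 : ∀ᶠ z in 𝓝 (0 : ℝ), 0 < g z := hg.continuousAt.eventually (lt_mem_nhds hgpos)
    filter_upwards [heq, h1] with t ht1 ht2
    have h5 : Real.exp (Real.log (g t) / k) ^ k = g t := by
      rw [← Real.exp_nat_mul, mul_div_cancel₀ _ hkR, Real.exp_log ht2]
    rw [mul_pow, h5]
    linarith

theorem good_pow {k : ℕ} (hk : Odd k) : Good (fun t : ℝ => t ^ k) :=
  ⟨by fun_prop, univ, univ_mem, (hk.strictMono_pow).strictMonoOn _⟩

/-- Common reparametrization. -/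
theorem Good.common {u v : ℝ → ℝ} (hu : Good u) (hv : Good v) (huv : u 0 = v 0) :
    ∃ s s' : ℝ → ℝ, Good s ∧ Good s' ∧ s 0 = 0 ∧ s' 0 = 0 ∧ ∀ᶠ t in 𝓝 (0 : ℝ), u (s t) = v (s' t) := by
  obtain ⟨k, D, hk, hD, hD0, hDu⟩ := hu.normal
  obtain ⟨l, E, hl, hE, hE0, hEv⟩ := hv.normal
  obtain ⟨D', hD'1, hD'2, hD'3⟩ := hD.inv
  obtain ⟨E', hE'1, hE'2, hE'3⟩ := hE.inv
  rw [hD0] at hD'1 hD'3
  rw [hE0] at hE'1 hE'3
  have hD'0 : D' 0 = 0 := by have := hD'2.self_of_nhds; rwa [hD0] at this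
  have hE'0 : E' 0 = 0 := by have := hE'2.self_of_nhds; rwa [hE0] at this
  have hk0 : (0 : ℝ) ^ k = 0 := zero_pow hk.pos.ne'
  have hl0 : (0 : ℝ) ^ l = 0 := zero_pow hl.pos.ne'
  refine ⟨fun t => D' (t ^ l), fun t => E' (t ^ k), (good_of_isAn hD'1).comp (good_pow hl) hl0,
    (good_of_isAn hE'1).comp (good_pow hk) hk0, by simp only [hl0, hD'0], by simp only [hk0, hE'0], ?_⟩
  have c1 : Tendsto (fun t : ℝ => t ^ l) (𝓝 0) (𝓝 0) := by
    have := (continuous_pow l (M := ℝ)).tendsto 0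
    rwa [hl0] at this
  have c2 : Tendsto (fun t : ℝ => t ^ k) (𝓝 0) (𝓝 0) := by
    have := (continuous_pow k (M := ℝ)).tendsto 0
    rwa [hk0] at this
  have d1 : Tendsto (fun t : ℝ => D' (t ^ l)) (𝓝 0) (𝓝 0) := by
    have := (hD'1.1.continuousAt.tendsto).comp c1
    rwa [hD'0] at this
  have d2 : Tendsto (fun t : ℝ => E' (t ^ k)) (𝓝 0) (𝓝 0) := by
    have := (hE'1.1.continuousAt.tendsto).comp c2
    rwa [hE'0] at this
  filter_upwards [c1.eventually hD'3, c2.eventually hE'3, d1.eventually hDu, d2.eventually hEv]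
    with t h1 h2 h3 h4
  rw [h3, h4, h1, h2, huv, ← pow_mul, ← pow_mul, mul_comm]

/-- The germ of `f` at `x` has an analytically parametrized increasing graph. -/
def IsPx (f : ℝ → ℝ) (x : ℝ) : Prop :=
  ∃ u v : ℝ → ℝ, Good u ∧ Good v ∧ u 0 = x ∧ ∀ᶠ t in 𝓝 (0 : ℝ), f (u t) = v t

theorem IsPx.mono {f : ℝ → ℝ} {x : ℝ} (h : IsPx f x) : ∃ s ∈ 𝓝 x, StrictMonoOn f s := by
  obtain ⟨u, v, hu, hv, rfl, huv⟩ := h
  obtain ⟨a, ha, hua⟩ := hu.2
  obtain ⟨b, hb, hvb⟩ := hv.2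
  refine ⟨u '' (a ∩ b ∩ {t | f (u t) = v t}), good_image_mem hu (inter_mem (inter_mem ha hb) huv), ?_⟩
  rintro _ ⟨t, ht, rfl⟩ _ ⟨t', ht', rfl⟩ htt
  have h1 : t < t' := (hua.lt_iff_lt ht.1.1 ht'.1.1).mp htt
  rw [ht.2, ht'.2]
  exact hvb ht.1.2 ht'.1.2 h1

/-- The pseudogroup of local homeomorphisms with analytically parametrized increasing graph. -/
noncomputable def pxPG : PG where
  P := IsPx
  congr := by
    rintro f g x ⟨u, v, hu, hv, rfl, huv⟩ hfg
    refine ⟨u, v, hu, hv, rfl, ?_⟩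
    filter_upwards [huv, hu.1.continuousAt.eventually hfg] with t h1 h2
    rw [← h2, h1]
  one := by
    intro x
    have hg : Good (fun t => x + t) :=
      ⟨by fun_prop, univ, univ_mem, fun a _ b _ hab => by simpa using hab⟩
    exact ⟨fun t => x + t, fun t => x + t, hg, hg, by simp, Eventually.of_forall fun t => rfl⟩
  opn := by
    rintro f x ⟨u, v, hu, hv, rfl, huv⟩
    apply good_of_image hu
    filter_upwards [hu.shift, hv.shift, eventually_eventually_nhds.mpr huv] with a h1 h2 h3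
    refine ⟨fun t => u (a + t), fun t => v (a + t), h1, h2, by simp, ?_⟩
    have hc : Tendsto (fun t : ℝ => a + t) (𝓝 0) (𝓝 a) := by
      have : ContinuousAt (fun t : ℝ => a + t) 0 := by fun_prop
      simpa using this.tendsto
    exact hc.eventually h3
  cont := by
    rintro f x ⟨u, v, hu, hv, rfl, huv⟩
    intro W hW
    have h0 : f (u 0) = v 0 := huv.self_of_nhds
    rw [h0] at hW
    have h1 : ∀ᶠ t in 𝓝 (0 : ℝ), v t ∈ W := hv.1.continuousAt hW
    show ∀ᶠ y in 𝓝 (u 0), f y ∈ W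
    apply good_of_image hu
    filter_upwards [h1, huv] with t h2 h3
    rwa [h3]
  mono := IsPx.mono
  comp := by
    rintro f g x ⟨u, v, hu, hv, rfl, huv⟩ ⟨u', v', hu', hv', hx, huv'⟩
    have h0 : f (u 0) = v 0 := huv.self_of_nhds
    obtain ⟨s, s', hs, hs', hs0, hs0', hss⟩ := hv.common hu' (by rw [hx, h0])
    refine ⟨fun t => u (s t), fun t => v' (s' t), hu.comp hs hs0, hv'.comp hs' hs0', by simp only [hs0], ?_⟩
    have c1 : Tendsto s (𝓝 0) (𝓝 0) := by have := hs.1.continuousAt.tendsto; rwa [hs0] at this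
    have c2 : Tendsto s' (𝓝 0) (𝓝 0) := by have := hs'.1.continuousAt.tendsto; rwa [hs0'] at this
    filter_upwards [hss, c1.eventually huv, c2.eventually huv'] with t h1 h2 h3
    show g (f (u (s t))) = v' (s' t)
    rw [h2, h1, h3]
  inv := by
    intro f x h
    obtain ⟨s, hs, hmono⟩ := h.mono
    obtain ⟨u, v, hu, hv, rfl, huv⟩ := h
    have hinj : InjOn f s := hmono.injOn
    have hleft : ∀ y ∈ s, Function.invFunOn f s (f y) = y := fun y hy => hinj.leftInvOn_invFunOn hy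
    refine ⟨Function.invFunOn f s, ⟨v, u, hv, hu, (huv.self_of_nhds).symm, ?_⟩, ?_⟩
    · filter_upwards [huv, hu.1.continuousAt.eventually hs] with t h1 h2
      rw [← h1]; exact hleft _ h2
    · filter_upwards [hs] with y hy
      exact hleft y hy
  uniq := by
    rintro f g x ⟨u, v, hu, hv, rfl, huv⟩ ⟨u', v', hu', hv', hx, huv'⟩ h
    obtain ⟨s, s', hs, hs', hs0, hs0', hss⟩ := hu.common hu' hx.symm
    have hus := hu.comp hs hs0
    have hvs := hv.comp hs hs0
    have hvs' := hv'.comp hs' hs0'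
    have c1 : Tendsto s (𝓝 0) (𝓝 0) := by have := hs.1.continuousAt.tendsto; rwa [hs0] at this
    have c2 : Tendsto s' (𝓝 0) (𝓝 0) := by have := hs'.1.continuousAt.tendsto; rwa [hs0'] at this
    have e1 : ∀ᶠ t in 𝓝 (0 : ℝ), f (u (s t)) = v (s t) := c1.eventually huv
    have e2 : ∀ᶠ t in 𝓝 (0 : ℝ), g (u (s t)) = v' (s' t) := by
      filter_upwards [hss, c2.eventually huv'] with t h1 h2
      rw [h1, h2]
    have c3 : Tendsto (fun t => u (s t)) (𝓝 0) (𝓝 (u 0)) := by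
      have := hus.1.continuousAt.tendsto
      simp only [hs0] at this
      exact this
    obtain ⟨a, ha, hmono⟩ := hus.2
    have ha0 : (0 : ℝ) ∈ a := mem_of_mem_nhds ha
    have key : (fun t => v (s t)) =ᶠ[𝓝[>] 0] (fun t => v' (s' t)) ∨
        (fun t => v (s t)) =ᶠ[𝓝[<] 0] (fun t => v' (s' t)) := by
      rcases h with h | h
      · left
        have hT : Tendsto (fun t => u (s t)) (𝓝[>] 0) (𝓝[>] (u 0)) := by
          rw [tendsto_nhdsWithin_iff]
          refine ⟨c3.mono_left nhdsWithin_le_nhds, ?_⟩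
          filter_upwards [mem_nhdsWithin_of_mem_nhds ha, self_mem_nhdsWithin] with t t1 t2
          have := hmono ha0 t1 t2
          simp only [hs0] at this
          exact this
        filter_upwards [hT.eventually h, mem_nhdsWithin_of_mem_nhds e1,
          mem_nhdsWithin_of_mem_nhds e2] with t t1 t2 t3
        have t2' : f (u (s t)) = v (s t) := t2
        have t3' : g (u (s t)) = v' (s' t) := t3
        rw [← t2', ← t3', t1]
      · right
        have hT : Tendsto (fun t => u (s t)) (𝓝[<] 0) (𝓝[<] (u 0)) := by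
          rw [tendsto_nhdsWithin_iff]
          refine ⟨c3.mono_left nhdsWithin_le_nhds, ?_⟩
          filter_upwards [mem_nhdsWithin_of_mem_nhds ha, self_mem_nhdsWithin] with t t1 t2
          have := hmono t1 ha0 t2
          simp only [hs0] at this
          exact this
        filter_upwards [hT.eventually h, mem_nhdsWithin_of_mem_nhds e1,
          mem_nhdsWithin_of_mem_nhds e2] with t t1 t2 t3
        have t2' : f (u (s t)) = v (s t) := t2
        have t3' : g (u (s t)) = v' (s' t) := t3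
        rw [← t2', ← t3', t1]
    have key2 := analytic_uniq hvs.1 hvs'.1 key
    have : ∀ᶠ z in 𝓝 ((fun t => u (s t)) 0), f z = g z := by
      apply good_of_image hus
      filter_upwards [key2, e1, e2] with t t1 t2 t3
      rw [t2, t3]; exact t1
    simp only [hs0] at this
    exact this

theorem isPx_of_isAn {f : ℝ → ℝ} {x : ℝ} (h : IsAn f x) : IsPx f x := by
  have hg : Good (fun t => x + t) :=
    ⟨by fun_prop, univ, univ_mem, fun a _ b _ hab => by simpa using hab⟩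
  have hsh : IsAn (fun t => x + t) 0 := ⟨by fun_prop, by simp⟩
  refine ⟨fun t => x + t, fun t => f (x + t), hg, good_of_isAn ?_, by simp,
    Eventually.of_forall fun t => rfl⟩
  exact hsh.comp (g := f) (by simpa using h)

theorem isPx_cube (x : ℝ) : IsPx (fun y => y ^ 3) x := by
  have hg : Good (fun t => x + t) :=
    ⟨by fun_prop, univ, univ_mem, fun a _ b _ hab => by simpa using hab⟩
  refine ⟨fun t => x + t, fun t => (x + t) ^ 3, hg, ⟨by fun_prop, univ, univ_mem, ?_⟩, by simp,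
    Eventually.of_forall fun t => rfl⟩
  intro a _ b _ hab
  have h3 : Odd 3 := by decide
  exact h3.strictMono_pow (by linarith : x + a < x + b)

end Pool.Agent.Helper240
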