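import Pool.Agent.Helper240.Trans

/-!
Explicit loops in the classifying space.
-/

set_option autoImplicit false
set_option linter.unusedSectionVars false

open Filter Topology Set

namespace Pool.Agent.Helper240

open Classical in
/-- The germ of `f` at `x` if it makes sense. -/
noncomputable def gm (f : ℝ → ℝ) (x : ℝ) : AnGerm :=
  if h : IsAn f x then germOf f x h else unitZero

theorem gm_spec {f : ℝ → ℝ} {x : ℝ} (h : IsAn f x) : IsGermOf (gm f x) f x := by
  unfold gm
  rw [dif_pos h]
  exact isGermOf_germOf h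

theorem isAn_id (x : ℝ) : IsAn (fun y => y) x := ⟨analyticAt_id, by simp⟩

theorem isComp_of {g h k : AnGerm} {f f' f'' : ℝ → ℝ} {x y : ℝ} (h1 : IsGermOf h f x)
    (h2 : IsGermOf g f' y) (hy : f x = y) (h3 : IsGermOf k f'' x)
    (h4 : f'' =ᶠ[𝓝 x] fun z => f' (f z)) : IsComp g h k := by
  subst hy
  exact ⟨f, f', x, h1, h2, h3.congr h4⟩

/-- The data of a point on an edge. -/
structure EdgeData where
  s : ℝ
  x0 : ℝ
  x1 : ℝ
  f : ℝ → ℝ
  k : ℝ → ℝ
  s0 : 0 ≤ s
  s1 : s ≤ 1
  hf : 0 < s → s < 1 → IsAn f x0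
  hk : 0 < s → s < 1 → IsAn k x1
  hfx : 0 < s → s < 1 → f x0 = x1
  hkf : 0 < s → s < 1 → ∀ᶠ y in 𝓝 x0, k (f y) = y
  hfk : 0 < s → s < 1 → ∀ᶠ y in 𝓝 x1, f (k y) = y

namespace EdgeData

variable (E : EdgeData)

theorem hkx (h0 : 0 < E.s) (h1 : E.s < 1) : E.k E.x1 = E.x0 := by
  rw [← E.hfx h0 h1]
  exact (E.hkf h0 h1).self_of_nhds

/-- Barycentric coordinates. -/
def tt : ℕ → ℝ
  | 0 => 1 - E.s
  | 1 => E.s
  | _ => 0

open Classical in
/-- Cocycle. -/
noncomputable def gg : ℕ → ℕ → AnGerm
  | 0, 0 => if E.s < 1 then gm (fun y => y) E.x0 else unitZero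
  | 1, 0 => if 0 < E.s ∧ E.s < 1 then gm E.f E.x0 else unitZero
  | 0, 1 => if 0 < E.s ∧ E.s < 1 then gm E.k E.x1 else unitZero
  | 1, 1 => if 0 < E.s then gm (fun y => y) E.x1 else unitZero
  | _, _ => unitZero

theorem pos_cases {i : ℕ} (h : 0 < E.tt i) : (i = 0 ∧ E.s < 1) ∨ (i = 1 ∧ 0 < E.s) := by
  match i, h with
  | 0, h => left; exact ⟨rfl, by simp only [tt] at h; linarith⟩
  | 1, h => right; exact ⟨rfl, h⟩
  | (n + 2), h => exact absurd h (lt_irrefl _)

theorem gg00 (h1 : E.s < 1) : IsGermOf (E.gg 0 0) (fun y => y) E.x0 := by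
  simp only [gg]; rw [if_pos h1]; exact gm_spec (isAn_id _)

theorem gg11 (h0 : 0 < E.s) : IsGermOf (E.gg 1 1) (fun y => y) E.x1 := by
  simp only [gg]; rw [if_pos h0]; exact gm_spec (isAn_id _)

theorem gg10 (h0 : 0 < E.s) (h1 : E.s < 1) : IsGermOf (E.gg 1 0) E.f E.x0 := by
  simp only [gg]; rw [if_pos ⟨h0, h1⟩]; exact gm_spec (E.hf h0 h1)

theorem gg01 (h0 : 0 < E.s) (h1 : E.s < 1) : IsGermOf (E.gg 0 1) E.k E.x1 := by
  simp only [gg]; rw [if_pos ⟨h0, h1⟩]; exact gm_spec (E.hk h0 h1)

theorem cocycle' (i j k : ℕ) (hi : 0 < E.tt i) (hj : 0 < E.tt j) (hk : 0 < E.tt k) :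
    IsComp (E.gg i j) (E.gg j k) (E.gg i k) := by
  rcases E.pos_cases hi with ⟨rfl, a⟩ | ⟨rfl, a⟩ <;> rcases E.pos_cases hj with ⟨rfl, b⟩ | ⟨rfl, b⟩ <;>
    rcases E.pos_cases hk with ⟨rfl, c⟩ | ⟨rfl, c⟩
  · exact isComp_of (E.gg00 a) (E.gg00 a) rfl (E.gg00 a) EventuallyEq.rfl
  · exact isComp_of (E.gg01 c a) (E.gg00 a) (E.hkx c a) (E.gg01 c a) EventuallyEq.rfl
  · exact isComp_of (E.gg10 b a) (E.gg01 b a) (E.hfx b a) (E.gg00 a)
      ((E.hkf b a).mono fun _ h => h.symm)
  · exact isComp_of (E.gg11 b) (E.gg01 b a) rfl (E.gg01 b a) EventuallyEq.rfl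
  · exact isComp_of (E.gg00 b) (E.gg10 a b) rfl (E.gg10 a b) EventuallyEq.rfl
  · exact isComp_of (E.gg01 a b) (E.gg10 a b) (E.hkx a b) (E.gg11 a)
      ((E.hfk a b).mono fun _ h => h.symm)
  · exact isComp_of (E.gg10 a c) (E.gg11 a) (E.hfx a c) (E.gg10 a c) EventuallyEq.rfl
  · exact isComp_of (E.gg11 a) (E.gg11 a) rfl (E.gg11 a) EventuallyEq.rfl

theorem junk' (i j : ℕ) (h : ¬ (0 < E.tt i ∧ 0 < E.tt j)) : E.gg i j = unitZero := by
  match i, j, h with
  | 0, 0, h =>
    simp only [gg]; rw [if_neg]; intro h1; apply h; simp only [tt]; constructor <;> linarith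
  | 1, 0, h =>
    simp only [gg]; rw [if_neg]; intro h1; apply h; simp only [tt]; exact ⟨h1.1, by linarith [h1.2]⟩
  | 0, 1, h =>
    simp only [gg]; rw [if_neg]; intro h1; apply h; simp only [tt]; exact ⟨by linarith [h1.2], h1.1⟩
  | 1, 1, h =>
    simp only [gg]; rw [if_neg]; intro h1; apply h; simp only [tt]; exact ⟨h1, h1⟩
  | 0, (n + 2), _ => simp only [gg]
  | 1, (n + 2), _ => simp only [gg]
  | (n + 2), 0, _ => simp only [gg]
  | (n + 2), 1, _ => simp only [gg]
  | (n + 2), (m + 2), _ => simp only [gg]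

/-- The point of the classifying space. -/
noncomputable def pt : BGamma where
  t := E.tt
  γ := E.gg
  t_nonneg i := by
    match i with
    | 0 => simp only [tt]; linarith [E.s1]
    | 1 => exact E.s0
    | (n + 2) => exact le_refl _
  t_finite := by
    refine (Set.finite_Iio 2).subset ?_
    intro i hi
    match i, hi with
    | 0, _ => show (0 : ℕ) < 2; omega
    | 1, _ => show (1 : ℕ) < 2; omega
    | (n + 2), hi => exact absurd rfl hi
  t_sum := by
    have h : Function.support E.tt ⊆ ((Finset.range 2 : Finset ℕ) : Set ℕ) := by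
      intro i hi
      match i, hi with
      | 0, _ => simp
      | 1, _ => simp
      | (n + 2), hi => exact absurd rfl hi
    rw [finsum_eq_sum_of_support_subset _ h]
    simp [Finset.sum_range_succ, tt]
  cocycle := E.cocycle'
  junk := E.junk'

end EdgeData

/-- Continuity of a family of points on the edge. -/
theorem continuous_pt {X : Type*} [TopologicalSpace X] (E : X → EdgeData)
    (hs : Continuous fun x => (E x).s) (h0 : Continuous fun x => (E x).x0)
    (h1 : Continuous fun x => (E x).x1)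
    (hfk : ∀ x, 0 < (E x).s → (E x).s < 1 → ∀ᶠ y in 𝓝 x, (E y).f = (E x).f ∧ (E y).k = (E x).k) :
    Continuous fun x => (E x).pt := by
  apply BGamma.continuous_into
  · intro i
    match i with
    | 0 => exact continuous_const.sub hs
    | 1 => exact hs
    | (n + 2) => exact continuous_const
  · intro i j x hi hj
    have hlt : ∀ x, (E x).s < 1 → ∀ᶠ y in 𝓝 x, (E y).s < 1 := fun x h =>
      hs.continuousAt.eventually (gt_mem_nhds h)
    have hgt : ∀ x, 0 < (E x).s → ∀ᶠ y in 𝓝 x, 0 < (E y).s := fun x h =>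
      hs.continuousAt.eventually (lt_mem_nhds h)
    rcases (E x).pos_cases hi with ⟨rfl, a⟩ | ⟨rfl, a⟩ <;>
      rcases (E x).pos_cases hj with ⟨rfl, b⟩ | ⟨rfl, b⟩
    · refine continuousAt_germ _ (fun x => (E x).x0) (fun y => y) h0.continuousAt ?_
      filter_upwards [hlt x a] with y hy
      exact (E y).gg00 hy
    · refine continuousAt_germ _ (fun x => (E x).x1) (E x).k h1.continuousAt ?_
      filter_upwards [hlt x a, hgt x b, hfk x b a] with y hy hy' hy''
      rw [← hy''.2]
      exact (E y).gg01 hy' hy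
    · refine continuousAt_germ _ (fun x => (E x).x0) (E x).f h0.continuousAt ?_
      filter_upwards [hgt x a, hlt x b, hfk x a b] with y hy hy' hy''
      rw [← hy''.1]
      exact (E y).gg10 hy hy'
    · refine continuousAt_germ _ (fun x => (E x).x1) (fun y => y) h1.continuousAt ?_
      filter_upwards [hgt x a] with y hy
      exact (E y).gg11 hy

/-- Real and imaginary parts on the circle. -/
noncomputable def re (z : Circle) : ℝ := (z : ℂ).re
noncomputable def im (z : Circle) : ℝ := (z : ℂ).im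

theorem continuous_re : Continuous re := Complex.continuous_re.comp continuous_subtype_val
theorem continuous_im : Continuous im := Complex.continuous_im.comp continuous_subtype_val

theorem re_im (z : Circle) : re z ^ 2 + im z ^ 2 = 1 := by
  have h := Circle.normSq_coe z
  rw [Complex.normSq_apply] at h
  unfold re im
  nlinarith

theorem im_le (z : Circle) : im z ≤ 1 := by nlinarith [re_im z, sq_nonneg (re z), sq_nonneg (im z)]
theorem neg_le_im (z : Circle) : -1 ≤ im z := by
  nlinarith [re_im z, sq_nonneg (re z), sq_nonneg (im z)]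

theorem re_ne_zero {z : Circle} (h1 : -1 < im z) (h2 : im z < 1) : re z ≠ 0 := by
  intro h
  have := re_im z
  rw [h] at this
  nlinarith

theorem re_exp (s : ℝ) : re (Circle.exp s) = Real.cos s := by
  unfold re
  rw [Circle.coe_exp, Complex.exp_ofReal_mul_I_re]

theorem im_exp (s : ℝ) : im (Circle.exp s) = Real.sin s := by
  unfold im
  rw [Circle.coe_exp, Complex.exp_ofReal_mul_I_im]

theorem isAn_cube {x : ℝ} (hx : x ≠ 0) : IsAn (fun y => y ^ 3) x := by
  refine ⟨by fun_prop, ?_⟩
  have : deriv (fun y : ℝ => y ^ 3) x = 3 * x ^ 2 := by simp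
  rw [this]
  positivity

/-- The real cube root. -/
noncomputable def cbrt (y : ℝ) : ℝ :=
  if 0 < y then Real.exp (Real.log y / 3) else -Real.exp (Real.log (-y) / 3)

theorem cbrt_cube {x : ℝ} (hx : x ≠ 0) : cbrt (x ^ 3) = x := by
  unfold cbrt
  rcases lt_or_gt_of_ne hx with h | h
  · have h3 : x ^ 3 < 0 := by
      have : 0 < (-x) ^ 3 := pow_pos (by linarith) 3
      nlinarith
    rw [if_neg (not_lt.mpr h3.le)]
    have h4 : -x ^ 3 = (-x) ^ 3 := by ring
    rw [h4, Real.log_pow]
    have h5 : ((3 : ℕ) : ℝ) * Real.log (-x) / 3 = Real.log (-x) := by push_cast; ring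
    rw [h5, Real.exp_log (by linarith)]
    ring
  · have h3 : 0 < x ^ 3 := pow_pos h 3
    rw [if_pos h3, Real.log_pow]
    have h5 : ((3 : ℕ) : ℝ) * Real.log x / 3 = Real.log x := by push_cast; ring
    rw [h5, Real.exp_log h]

theorem cube_cbrt {y : ℝ} (hy : y ≠ 0) : cbrt y ^ 3 = y := by
  unfold cbrt
  rcases lt_or_gt_of_ne hy with h | h
  · rw [if_neg (not_lt.mpr h.le)]
    have : (-Real.exp (Real.log (-y) / 3)) ^ 3 = -(Real.exp (Real.log (-y) / 3) ^ 3) := by ring
    rw [this, ← Real.exp_nat_mul]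
    have h5 : ((3 : ℕ) : ℝ) * (Real.log (-y) / 3) = Real.log (-y) := by push_cast; ring
    rw [h5, Real.exp_log (by linarith)]
    ring
  · rw [if_pos h, ← Real.exp_nat_mul]
    have h5 : ((3 : ℕ) : ℝ) * (Real.log y / 3) = Real.log y := by push_cast; ring
    rw [h5, Real.exp_log h]

theorem isAn_cbrt {x : ℝ} (hx : x ≠ 0) : IsAn cbrt (x ^ 3) := by
  obtain ⟨g, h1, h2, _⟩ := (isAn_cube hx).inv
  refine IsAn.congr h1 ?_
  refine anPG.inv_unique (f := fun y => y ^ 3) (x := x) (isAn_cube hx) h2 ?_
  filter_upwards [isOpen_ne.mem_nhds hx] with y hy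
  exact cbrt_cube hy

/-- Edge data of the cube loop. -/
noncomputable def cubeData (z : Circle) : EdgeData where
  s := (1 + im z) / 2
  x0 := re z
  x1 := re z ^ 3
  f := fun y => y ^ 3
  k := cbrt
  s0 := by linarith [neg_le_im z]
  s1 := by linarith [im_le z]
  hf h0 h1 := isAn_cube (re_ne_zero (by linarith) (by linarith))
  hk h0 h1 := isAn_cbrt (re_ne_zero (by linarith) (by linarith))
  hfx _ _ := rfl
  hkf h0 h1 := by
    filter_upwards [isOpen_ne.mem_nhds (re_ne_zero (z := z) (by linarith) (by linarith))] with y hy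
    exact cbrt_cube hy
  hfk h0 h1 := by
    have h : re z ^ 3 ≠ 0 := pow_ne_zero 3 (re_ne_zero (z := z) (by linarith) (by linarith))
    filter_upwards [isOpen_ne.mem_nhds h] with y hy
    exact cube_cbrt hy

/-- The cube loop. -/
noncomputable def cubeLoop : C(Circle, BGamma) where
  toFun z := (cubeData z).pt
  continuous_toFun := by
    apply continuous_pt
    · exact (continuous_const.add continuous_im).div_const 2
    · exact continuous_re
    · exact continuous_re.pow 3
    · intro x _ _
      exact Eventually.of_forall fun y => ⟨rfl, rfl⟩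

theorem isAn_double (x : ℝ) : IsAn (fun y => 2 * y) x := by
  refine ⟨by fun_prop, ?_⟩
  have : deriv (fun y : ℝ => 2 * y) x = 2 := by simp
  rw [this]; norm_num

theorem isAn_half (x : ℝ) : IsAn (fun y => y / 2) x := by
  refine ⟨by fun_prop, ?_⟩
  have : deriv (fun y : ℝ => y / 2) x = 1 / 2 := by simp
  rw [this]; norm_num

open Classical in
/-- Edge data of the doubling loop. -/
noncomputable def doubleData (z : Circle) : EdgeData where
  s := (1 + im z) / 2
  x0 := 0
  x1 := 0
  f := if 0 < re z then fun y => 2 * y else fun y => y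
  k := if 0 < re z then fun y => y / 2 else fun y => y
  s0 := by linarith [neg_le_im z]
  s1 := by linarith [im_le z]
  hf h0 h1 := by split_ifs; exacts [isAn_double 0, isAn_id 0]
  hk h0 h1 := by split_ifs; exacts [isAn_half 0, isAn_id 0]
  hfx _ _ := by split_ifs <;> simp
  hkf h0 h1 := by
    refine Eventually.of_forall fun y => ?_
    split_ifs
    · ring
    · rfl
  hfk h0 h1 := by
    refine Eventually.of_forall fun y => ?_
    split_ifs
    · ring
    · rfl

/-- The doubling loop. -/
noncomputable def doubleLoop : C(Circle, BGamma) where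
  toFun z := (doubleData z).pt
  continuous_toFun := by
    apply continuous_pt
    · exact (continuous_const.add continuous_im).div_const 2
    · exact continuous_const
    · exact continuous_const
    · intro x h0 h1
      have hx : re x ≠ 0 := by
        have h0' : 0 < (1 + im x) / 2 := h0
        have h1' : (1 + im x) / 2 < 1 := h1
        exact re_ne_zero (by linarith) (by linarith)
      rcases lt_or_gt_of_ne hx with h | h
      · filter_upwards [continuous_re.continuousAt.eventually (gt_mem_nhds h)] with y hy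
        constructor
        · simp only [doubleData]; rw [if_neg (not_lt.mpr hy.le), if_neg (not_lt.mpr h.le)]
        · simp only [doubleData]; rw [if_neg (not_lt.mpr hy.le), if_neg (not_lt.mpr h.le)]
      · filter_upwards [continuous_re.continuousAt.eventually (lt_mem_nhds h)] with y hy
        constructor
        · simp only [doubleData]; rw [if_pos hy, if_pos h]
        · simp only [doubleData]; rw [if_pos hy, if_pos h]

/-- The closed path attached to a loop. -/
noncomputable def loopPath (g : C(Circle, BGamma)) : Path (g (Circle.exp 0)) (g (Circle.exp 0)) where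
  toFun s := g (Circle.exp (2 * Real.pi * (s : ℝ)))
  continuous_toFun := by
    refine g.continuous.comp (Circle.exp.continuous.comp ?_)
    exact continuous_const.mul continuous_subtype_val
  source' := by simp
  target' := by
    have e2π : Circle.exp (2 * Real.pi * ((1 : unitInterval) : ℝ)) = Circle.exp 0 := by
      rw [Circle.exp_eq_exp]; exact ⟨1, by simp⟩
    rw [e2π]

/-- If a loop on the edge has a closed lift, then the two transitions have the same value. -/
theorem eq_of_lift_path {U : Type} [Group U] [TopologicalSpace U] [DiscreteTopology U] (L : LocSys U)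
    (E : Circle → EdgeData) (g : C(Circle, BGamma)) (hg : ∀ z, g z = (E z).pt)
    (hs : ∀ z, (E z).s = (1 + im z) / 2)
    (F : C(unitInterval, L.Tot)) (hF : ∀ s : unitInterval, (F s).proj = loopPath g s)
    (hclosed : F 1 = F 0) :
    L.φ ((g (Circle.exp 0)).γ 1 0) = L.φ ((g (Circle.exp Real.pi)).γ 1 0) := by
  let P : ℝ → unitInterval := projIcc 0 1 zero_le_one
  have hP : ∀ s ∈ Icc (0 : ℝ) 1, ((P s : unitInterval) : ℝ) = s := by
    intro s hs'
    exact congrArg Subtype.val (projIcc_of_mem zero_le_one hs')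
  have hP0 : P 0 = 0 := projIcc_left _
  have hP1 : P 1 = 1 := projIcc_right _
  have hcF : Continuous (fun s : ℝ => F (P s)) := F.continuous.comp continuous_projIcc
  have ht0 : ∀ z, (g z).t 0 = 1 - (1 + im z) / 2 := by
    intro z; rw [hg, ← hs]; rfl
  have ht1 : ∀ z, (g z).t 1 = (1 + im z) / 2 := by
    intro z; rw [hg, ← hs]; rfl
  have hproj : ∀ s ∈ Icc (0 : ℝ) 1, (F (P s)).proj = g (Circle.exp (2 * Real.pi * s)) := by
    intro s hs'
    rw [hF]
    show g (Circle.exp (2 * Real.pi * ((P s : unitInterval) : ℝ))) = _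
    rw [hP s hs']
  have hpi := Real.pi_pos
  have hhalf : 2 * Real.pi * (1 / 2) = Real.pi := by ring
  have c1 : L.cd 1 (F (P 0)) = L.cd 1 (F (P (1 / 2))) := by
    apply PG.const_of_local (F := fun s => L.cd 1 (F (P s)))
    intro s hs'
    rw [uIcc_of_le (by norm_num)] at hs'
    have hsin : 0 ≤ Real.sin (2 * Real.pi * s) :=
      Real.sin_nonneg_of_nonneg_of_le_pi (by have := hs'.1; positivity) (by nlinarith [hs'.2])
    have : 0 < (F (P s)).proj.t 1 := by
      rw [hproj s ⟨hs'.1, by linarith [hs'.2]⟩, ht1, im_exp]; linarith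
    filter_upwards [hcF.continuousAt.eventually (L.cd_loc this)] with s' h1 _
    exact h1
  have c0 : L.cd 0 (F (P (1 / 2))) = L.cd 0 (F (P 1)) := by
    apply PG.const_of_local (F := fun s => L.cd 0 (F (P s)))
    intro s hs'
    rw [uIcc_of_le (by norm_num)] at hs'
    have hsin : Real.sin (2 * Real.pi * s) ≤ 0 := by
      have h1 : Real.sin (2 * Real.pi * s) = Real.sin (2 * Real.pi * s - 2 * Real.pi) := by
        rw [Real.sin_sub_two_pi]
      rw [h1]
      exact Real.sin_nonpos_of_nonpos_of_neg_pi_le (by nlinarith [hs'.2]) (by nlinarith [hs'.1])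
    have : 0 < (F (P s)).proj.t 0 := by
      rw [hproj s ⟨by linarith [hs'.1], hs'.2⟩, ht0, im_exp]; linarith
    filter_upwards [hcF.continuousAt.eventually (L.cd_loc this)] with s' h1 _
    exact h1
  have p0 : (F (P 0)).proj = g (Circle.exp 0) := by
    rw [hproj 0 ⟨le_rfl, zero_le_one⟩, mul_zero]
  have ph : (F (P (1 / 2))).proj = g (Circle.exp Real.pi) := by
    rw [hproj (1 / 2) ⟨by norm_num, by norm_num⟩, hhalf]
  have k0 := L.cd_compat (i := 0) (j := 1) (e := F (P 0))
    (by rw [p0, ht0, im_exp]; simp; norm_num) (by rw [p0, ht1, im_exp]; simp)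
  have k1 := L.cd_compat (i := 0) (j := 1) (e := F (P (1 / 2)))
    (by rw [ph, ht0, im_exp]; simp; norm_num) (by rw [ph, ht1, im_exp]; simp)
  have e01 : F (P 1) = F (P 0) := by rw [hP1, hP0]; exact hclosed
  rw [p0] at k0
  rw [ph] at k1
  rw [c1, k1, c0, e01] at k0
  exact (mul_left_cancel k0).symm

theorem cube_right : IsGermOf ((cubeLoop (Circle.exp 0)).γ 1 0) (fun y => y ^ 3) 1 := by
  have h := (cubeData (Circle.exp 0)).gg10
    (by show 0 < (1 + im (Circle.exp 0)) / 2; rw [im_exp]; simp)
    (by show (1 + im (Circle.exp 0)) / 2 < 1; rw [im_exp]; simp; norm_num)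
  have e : (cubeData (Circle.exp 0)).x0 = 1 := by
    show re (Circle.exp 0) = 1
    rw [re_exp, Real.cos_zero]
  rw [e] at h
  exact h

theorem cube_left : IsGermOf ((cubeLoop (Circle.exp Real.pi)).γ 1 0) (fun y => y ^ 3) (-1) := by
  have h := (cubeData (Circle.exp Real.pi)).gg10
    (by show 0 < (1 + im (Circle.exp Real.pi)) / 2; rw [im_exp]; simp)
    (by show (1 + im (Circle.exp Real.pi)) / 2 < 1; rw [im_exp]; simp; norm_num)
  have e : (cubeData (Circle.exp Real.pi)).x0 = -1 := by
    show re (Circle.exp Real.pi) = -1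
    rw [re_exp, Real.cos_pi]
  rw [e] at h
  exact h

theorem double_right : IsGermOf ((doubleLoop (Circle.exp 0)).γ 1 0) (fun y => 2 * y) 0 := by
  have h := (doubleData (Circle.exp 0)).gg10
    (by show 0 < (1 + im (Circle.exp 0)) / 2; rw [im_exp]; simp)
    (by show (1 + im (Circle.exp 0)) / 2 < 1; rw [im_exp]; simp; norm_num)
  have e : (doubleData (Circle.exp 0)).f = fun y => 2 * y := by
    simp only [doubleData]
    rw [if_pos (by rw [re_exp, Real.cos_zero]; exact one_pos)]
  rw [e] at h
  exact h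

theorem double_left : IsGermOf ((doubleLoop (Circle.exp Real.pi)).γ 1 0) (fun y => y) 0 := by
  have h := (doubleData (Circle.exp Real.pi)).gg10
    (by show 0 < (1 + im (Circle.exp Real.pi)) / 2; rw [im_exp]; simp)
    (by show (1 + im (Circle.exp Real.pi)) / 2 < 1; rw [im_exp]; simp; norm_num)
  have e : (doubleData (Circle.exp Real.pi)).f = fun y => y := by
    simp only [doubleData]
    rw [if_neg (by rw [re_exp, Real.cos_pi]; norm_num)]
  rw [e] at h
  exact h

theorem anPG_of : ∀ f x, IsAn f x → anPG.P f x := fun _ _ h => h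

theorem pxPG_of : ∀ f x, IsAn f x → pxPG.P f x := fun _ _ h => isPx_of_isAn h

/-- The local system of analytic germs. -/
noncomputable def anSys : LocSys (LineCalc.Univ anPG.lineCalc) := sys anPG anPG_of

/-- The local system of germs with analytically parametrized graph. -/
noncomputable def pxSys : LocSys (LineCalc.Univ pxPG.lineCalc) := sys pxPG pxPG_of

theorem cube_not_lift_path [TopologicalSpace (LineCalc.Univ anPG.lineCalc)]
    [DiscreteTopology (LineCalc.Univ anPG.lineCalc)] (F : C(unitInterval, anSys.Tot))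
    (hF : ∀ s : unitInterval, (F s).proj = loopPath cubeLoop s) (hclosed : F 1 = F 0) : False := by
  have h := eq_of_lift_path anSys cubeData cubeLoop (fun z => rfl) (fun z => rfl) F hF hclosed
  have h2 : toElt anPG anPG_of ((cubeLoop (Circle.exp 0)).γ 1 0) =
      toElt anPG anPG_of ((cubeLoop (Circle.exp Real.pi)).γ 1 0) :=
    LineCalc.gen_injective h
  rw [toElt_eq anPG anPG_of cube_right, toElt_eq anPG anPG_of cube_left, PG.elt_eq_iff] at h2
  obtain ⟨f, hf1, hf2, hf3⟩ := h2
  have hf1' : ∀ z ∈ uIcc (1 : ℝ) (-1), IsAn f z := hf1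
  rw [uIcc_of_ge (by norm_num)] at hf1'
  -- identity theorem on `[-1,1]`
  have han : AnalyticOnNhd ℝ f (Icc (-1) 1) := fun z hz => (hf1' z hz).1
  have hcube : AnalyticOnNhd ℝ (fun y : ℝ => y ^ 3) (Icc (-1) 1) := fun z _ => by fun_prop
  have heq := hcube.eqOn_of_preconnected_of_eventuallyEq han isPreconnected_Icc
    (show (1 : ℝ) ∈ Icc (-1 : ℝ) 1 by constructor <;> norm_num) hf2
  have hnear : f =ᶠ[𝓝 (0 : ℝ)] fun y => y ^ 3 := by
    filter_upwards [Icc_mem_nhds (show (-1 : ℝ) < 0 by norm_num) (show (0 : ℝ) < 1 by norm_num)]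
      with y hy
    exact (heq hy).symm
  have hd := (hf1' 0 ⟨by norm_num, by norm_num⟩).2
  rw [hnear.deriv_eq] at hd
  simp at hd

theorem double_not_lift_path [TopologicalSpace (LineCalc.Univ pxPG.lineCalc)]
    [DiscreteTopology (LineCalc.Univ pxPG.lineCalc)] (F : C(unitInterval, pxSys.Tot))
    (hF : ∀ s : unitInterval, (F s).proj = loopPath doubleLoop s) (hclosed : F 1 = F 0) :
    False := by
  have h := eq_of_lift_path pxSys doubleData doubleLoop (fun z => rfl) (fun z => rfl) F hF hclosed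
  have h2 : toElt pxPG pxPG_of ((doubleLoop (Circle.exp 0)).γ 1 0) =
      toElt pxPG pxPG_of ((doubleLoop (Circle.exp Real.pi)).γ 1 0) :=
    LineCalc.gen_injective h
  rw [toElt_eq pxPG pxPG_of double_right, toElt_eq pxPG pxPG_of double_left, PG.elt_eq_mk_iff] at h2
  have h3 : deriv (fun y : ℝ => 2 * y) 0 = deriv (fun y : ℝ => y) 0 := h2.deriv_eq
  simp at h3

/-- A lift on the circle gives a closed lift of the path. -/
noncomputable def pathOfLift {E : Type*} [TopologicalSpace E] (F : C(Circle, E)) :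
    C(unitInterval, E) where
  toFun s := F (Circle.exp (2 * Real.pi * (s : ℝ)))
  continuous_toFun := by
    refine F.continuous.comp (Circle.exp.continuous.comp ?_)
    exact continuous_const.mul continuous_subtype_val

theorem pathOfLift_one {E : Type*} [TopologicalSpace E] (F : C(Circle, E)) :
    pathOfLift F 1 = pathOfLift F 0 := by
  show F (Circle.exp (2 * Real.pi * ((1 : unitInterval) : ℝ))) =
    F (Circle.exp (2 * Real.pi * ((0 : unitInterval) : ℝ)))
  congr 1
  rw [Circle.exp_eq_exp]; exact ⟨1, by simp⟩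

theorem cube_not_lift [TopologicalSpace (LineCalc.Univ anPG.lineCalc)]
    [DiscreteTopology (LineCalc.Univ anPG.lineCalc)] (F : C(Circle, anSys.Tot))
    (hF : ∀ z, (F z).proj = cubeLoop z) : False :=
  cube_not_lift_path (pathOfLift F) (fun _ => hF _) (pathOfLift_one F)

/-- The cube loop lifts to the covering attached to the larger pseudogroup. -/
theorem cube_lift [TopologicalSpace (LineCalc.Univ pxPG.lineCalc)]
    [DiscreteTopology (LineCalc.Univ pxPG.lineCalc)] (c : LineCalc.Univ pxPG.lineCalc) :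
    ∃ F : C(Circle, pxSys.Tot), (∀ z, (F z).proj = cubeLoop z) ∧
      ∀ z, 0 < (cubeLoop z).t 0 → pxSys.cd 0 (F z) = c := by
  set κ := pxPG.lineCalc.gen (pxPG.elt (fun y => y ^ 3) 0 (isPx_cube 0)) with hκ
  have hκ10 : ∀ z, 0 < (cubeLoop z).t 0 → 0 < (cubeLoop z).t 1 →
      pxSys.φ ((cubeLoop z).γ 1 0) = κ := by
    intro z h0 h1
    have h0' : (cubeData z).s < 1 := by
      have : 0 < 1 - (cubeData z).s := h0
      linarith
    have hg : IsGermOf ((cubeLoop z).γ 1 0) (fun y => y ^ 3) (re z) := (cubeData z).gg10 h1 h0'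
    show pxPG.lineCalc.gen (toElt pxPG pxPG_of ((cubeLoop z).γ 1 0)) = κ
    rw [toElt_eq pxPG pxPG_of hg, hκ]
    congr 1
    have hc : ∀ w, pxPG.P (fun y => y ^ 3) w := fun w => isPx_cube w
    exact pxPG.elt_continuation (f := fun y => y ^ 3) fun w _ => hc w
  have hinv : ∀ i z, 0 < (cubeLoop z).t i → pxSys.φ ((cubeLoop z).γ i i) = 1 := fun i z hi =>
    pxSys.diag hi
  let u : ℕ → Circle → LineCalc.Univ pxPG.lineCalc := fun i _ => if i = 0 then c else c * κ
  obtain ⟨F, h1, h2⟩ := pxSys.exists_lift cubeLoop u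
    (fun i x _ => Eventually.of_forall fun y => rfl) (by
      intro i j z hi hj
      rcases (cubeData z).pos_cases hi with ⟨rfl, a⟩ | ⟨rfl, a⟩ <;>
        rcases (cubeData z).pos_cases hj with ⟨rfl, b⟩ | ⟨rfl, b⟩
      · rw [hinv 0 z hi, mul_one]
      · rw [hκ10 z hi hj]; simp [u]
      · have e1 := pxSys.comp _ _ _ ((cubeLoop z).cocycle 0 1 0 hj hi hj)
        rw [hκ10 z hj hi, hinv 0 z hj] at e1
        have e2 : pxSys.φ ((cubeLoop z).γ 0 1) = κ⁻¹ := eq_inv_of_mul_eq_one_right e1
        rw [e2]; simp [u]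
      · rw [hinv 1 z hi, mul_one])
  exact ⟨F, h1, fun z hz => by rw [h2 0 z hz]; simp [u]⟩

end Pool.Agent.Helper240
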