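import Pool.Agent.Helper240.NevLocal

/-!
The barrier function at a linearizable singularity.
-/

set_option autoImplicit false

open Set Metric Filter Topology
open scoped Manifold ComplexConjugate

namespace Pool.Agent.Helper240.Nev

open Pool.Agent.Helper240.NevJ

variable {E M : Type*} [NormedAddCommGroup E] [NormedSpace ℂ E] [TopologicalSpace M]
  [ChartedSpace E M] [IsManifold 𝓘(ℂ, E) 1 M] (ω : PosForm E M)

/-- Data attached to a linearizing chart. -/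
structure LinData (F : Foliation E M) (e : OpenPartialHomeomorph M E) (zp : E) (R cQ : ℝ)
    (n : ℕ) where
  A : E →L[ℂ] E
  P : E →L[ℂ] E
  B : E →L[ℂ] E
  ℓ : Fin n → (E →L[ℂ] ℂ)
  a₁ : ℝ
  a₂ : ℝ
  κ : ℝ
  heC : e ∈ IsManifold.maximalAtlas 𝓘(ℂ, E) 1 M
  hgen : GeneratedOn F.sing F.dir e A
  hPA : ∀ z, P (A z) = 0
  hPB : ∀ z, P z + B (A z) = z
  hBA : ∀ z, B (A (A z)) = A z
  hzp : A zp = 0
  hR0 : 0 < R
  hR : closedBall zp (3 * R) ⊆ e.target
  ha₁ : 0 < a₁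
  ha₂ : 0 < a₂
  hℓ₁ : ∀ y, ‖y‖ ^ 2 ≤ a₁ * ∑ j, ‖ℓ j y‖ ^ 2
  hℓ₂ : ∀ y, ∑ j, ‖ℓ j y‖ ^ 2 ≤ a₂ * ‖y‖ ^ 2
  hκ0 : 0 < κ
  hκ : ‖B‖ ^ 2 * a₁ ≤ (κ * R) ^ 2
  hcQ : 0 < cQ
  hQ : ∀ y ∈ closedBall zp (3 * R), ∀ η : E, cQ * ‖η‖ ^ 2 ≤ Qe ω e y η

namespace LinData

variable {ω} {F : Foliation E M} {e : OpenPartialHomeomorph M E} {zp : E} {R cQ : ℝ} {n : ℕ}
  (D : LinData ω F e zp R cQ n)

/-- the functionals `κ ℓⱼ ∘ A` -/
noncomputable def lam (j : Fin n) : E →L[ℂ] ℂ := (D.κ : ℂ) • (D.ℓ j).comp D.A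

noncomputable def Nf (z : E) : ℝ := ∑ j, ‖D.lam j z‖ ^ 2

theorem Nf_eq (z : E) : D.Nf z = D.κ ^ 2 * ∑ j, ‖D.ℓ j (D.A z)‖ ^ 2 := by
  unfold Nf
  rw [Finset.mul_sum]
  refine Finset.sum_congr rfl fun j _ => ?_
  have h : D.lam j z = (D.κ : ℂ) * D.ℓ j (D.A z) := rfl
  rw [h, norm_mul, Complex.norm_real, Real.norm_eq_abs, abs_of_pos D.hκ0]
  ring

theorem Nf_nonneg (z : E) : 0 ≤ D.Nf z := Finset.sum_nonneg fun _ _ => by positivity

theorem Nf_pos {z : E} (hz : D.A z ≠ 0) : 0 < D.Nf z := by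
  rw [D.Nf_eq]
  have h1 := D.hℓ₁ (D.A z)
  have h2 : 0 < ‖D.A z‖ ^ 2 := by
    have := norm_pos_iff.2 hz
    positivity
  have h3 : 0 < ∑ j, ‖D.ℓ j (D.A z)‖ ^ 2 := by
    by_contra h
    push Not at h
    nlinarith [D.ha₁]
  have := D.hκ0
  positivity

theorem continuous_Nf : Continuous D.Nf := by
  unfold Nf
  fun_prop

theorem BA_sq_le (z : E) : (‖D.B‖ * ‖D.A z‖) ^ 2 ≤ R ^ 2 * D.Nf z := by
  rw [D.Nf_eq, mul_pow]
  have h1 := D.hℓ₁ (D.A z)
  have h2 : 0 ≤ ‖D.B‖ ^ 2 := by positivity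
  have h3 : 0 ≤ ∑ j, ‖D.ℓ j (D.A z)‖ ^ 2 := Finset.sum_nonneg fun _ _ => by positivity
  have h4 := mul_le_mul_of_nonneg_left h1 h2
  have h5 := mul_le_mul_of_nonneg_right D.hκ h3
  calc ‖D.B‖ ^ 2 * ‖D.A z‖ ^ 2 ≤ ‖D.B‖ ^ 2 * (D.a₁ * ∑ j, ‖D.ℓ j (D.A z)‖ ^ 2) := h4
    _ = ‖D.B‖ ^ 2 * D.a₁ * ∑ j, ‖D.ℓ j (D.A z)‖ ^ 2 := by ring
    _ ≤ (D.κ * R) ^ 2 * ∑ j, ‖D.ℓ j (D.A z)‖ ^ 2 := h5
    _ = _ := by ring

theorem BA_le {z : E} (hz : D.A z ≠ 0) :
    ‖D.B‖ * ‖D.A z‖ ≤ R * Real.exp (-(-Real.log (D.Nf z)) / 2) := by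
  have hN := D.Nf_pos hz
  have h1 := D.BA_sq_le z
  have h2 : R ^ 2 * D.Nf z = (R * Real.exp (-(-Real.log (D.Nf z)) / 2)) ^ 2 := by
    rw [mul_pow, ← Real.exp_nat_mul, neg_neg]
    have : ((2 : ℕ) : ℝ) * (Real.log (D.Nf z) / 2) = Real.log (D.Nf z) := by
      push_cast; ring
    rw [this, Real.exp_log hN]
  rw [h2] at h1
  have h3 : 0 ≤ R * Real.exp (-(-Real.log (D.Nf z)) / 2) := by
    have := D.hR0; positivity
  exact le_of_sq_le_sq₀' h1 h3
where
  le_of_sq_le_sq₀' {a b : ℝ} (h : a ^ 2 ≤ b ^ 2) (hb : 0 ≤ b) : a ≤ b := abs_le_of_sq_le_sq' h hb |>.2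

open Classical in
/-- the barrier -/
noncomputable def W (x : M) : ℝ :=
  if x ∈ e.source then bump (‖D.P (e x - zp)‖ / R) * K (D.Nf (e x)) else 0

theorem W_nonneg (x : M) : 0 ≤ D.W x := by
  unfold W
  split_ifs
  · exact mul_nonneg (bump_nonneg _) (G_nonneg _)
  · exact le_rfl

/-- the inner neighbourhood -/
def inner : Set M :=
  e.source ∩ e ⁻¹' {y | ‖D.P (y - zp)‖ < R ∧ D.Nf y < Real.exp (-4)}

theorem isOpen_inner : IsOpen D.inner := by
  refine e.isOpen_inter_preimage ?_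
  have h1 : IsOpen {y | ‖D.P (y - zp)‖ < R} := isOpen_lt (by fun_prop) continuous_const
  have h2 : IsOpen {y | D.Nf y < Real.exp (-4)} := isOpen_lt D.continuous_Nf continuous_const
  exact h1.inter h2

theorem mem_inner {p : M} (hp : p ∈ e.source) (hzp : e p = zp) : p ∈ D.inner := by
  refine ⟨hp, ?_, ?_⟩
  · show ‖D.P (e p - zp)‖ < R
    rw [hzp, sub_self, map_zero, norm_zero]
    exact D.hR0
  · show D.Nf (e p) < Real.exp (-4)
    rw [hzp, D.Nf_eq, D.hzp]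
    simp [Real.exp_pos]

/-- the barrier is supported in a compact set of the chart -/
theorem mem_closedBall_of_ne {x : M} (h : bump (‖D.P (e x - zp)‖ / R) ≠ 0) (hN : D.Nf (e x) < 1) :
    e x ∈ closedBall zp (3 * R) := by
  have hR0 := D.hR0
  have h1 : ‖D.P (e x - zp)‖ < 2 * R := by
    have := lt_of_bump_ne_zero h
    rwa [div_lt_iff₀ hR0] at this
  have h2 : ‖D.B (D.A (e x))‖ ≤ R := by
    refine (D.B.le_opNorm _).trans ?_
    have h3 := D.BA_sq_le (e x)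
    have h4 : R ^ 2 * D.Nf (e x) ≤ R ^ 2 := by
      have : 0 < R ^ 2 := by positivity
      nlinarith
    exact (abs_le_of_sq_le_sq' (h3.trans h4) hR0.le).2
  rw [mem_closedBall, dist_eq_norm]
  have h3 := D.hPB (e x - zp)
  rw [map_sub D.A, D.hzp, sub_zero] at h3
  rw [← h3]
  refine (norm_add_le _ _).trans ?_
  linarith

/-- The estimates for the barrier along a universal covering, at a point of the chart domain. -/
theorem estimates [CompleteSpace E] {φ : ℂ → M} (hφ : F.IsUniversalCovering φ) {w : ℂ}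
    (hw : w ∈ H) (hsrc : φ (Complex.exp w) ∈ e.source) :
    ContDiffAt ℝ 2 (fun z => D.W (φ (Complex.exp z))) w ∧
    Lap (fun z => D.W (φ (Complex.exp z))) w ≤
      (24 * Real.exp 4 * (D.κ ^ 2 * D.a₂ * ‖D.A‖ ^ 2) / cQ + 1) *
        (pullback ω φ (Complex.exp w) * Real.exp (2 * w.re)) ∧
    (φ (Complex.exp w) ∈ D.inner → Lap (fun z => D.W (φ (Complex.exp z))) w ≤
      -(3 / (4 * (‖D.A‖ + 1) ^ 2 * (D.a₁ * D.a₂ * (‖D.B‖ ^ 2 + 1))) *
        (Real.exp (2 * w.re) / (1 - Real.exp (2 * w.re)) ^ 2))) := by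
  have hξ : Complex.exp w ∈ ball (0 : ℂ) 1 := exp_mem_ball hw
  have hmd : ∀ z ∈ ball (0 : ℂ) 1, MDifferentiableAt 𝓘(ℂ, ℂ) 𝓘(ℂ, E) φ z :=
    fun z hz => hφ.tangent.mdiffAt hz
  set zc : ℂ → E := fun z => e (φ (Complex.exp z)) with hzc
  have hana0 : AnalyticAt ℂ (fun z => e (φ z)) (Complex.exp w) :=
    analyticAt_chart hmd hξ ⟨D.heC, hsrc⟩
  have hana : AnalyticAt ℂ zc w := AnalyticAt.comp (g := fun z => e (φ z)) hana0
    (Complex.differentiable_exp.analyticAt w)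
  -- the open set where everything is in the chart
  set Ω : Set ℂ := H ∩ (fun z => φ (Complex.exp z)) ⁻¹' e.source with hΩ
  have hcont : ∀ z ∈ H, ContinuousAt (fun z => φ (Complex.exp z)) z := fun z hz =>
    ContinuousAt.comp (f := Complex.exp) (g := φ) (hφ.tangent.contAt (exp_mem_ball hz))
      Complex.continuous_exp.continuousAt
  have hΩn : ∀ z ∈ Ω, Ω ∈ 𝓝 z := fun z hz => Filter.inter_mem (isOpen_H.mem_nhds hz.1)
    ((hcont z hz.1).preimage_mem_nhds (e.open_source.mem_nhds hz.2))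
  have hwΩ : w ∈ Ω := ⟨hw, hsrc⟩
  -- derivative of zc
  have hder : ∀ z ∈ Ω, ∃ c : ℂ, HasDerivAt zc (c • D.A (zc z)) z := by
    intro z hz
    obtain ⟨c, hc⟩ := hφ.tangent.exists_deriv D.hgen (exp_mem_ball hz.1) ⟨D.heC, hz.2⟩
    refine ⟨Complex.exp z * c, ?_⟩
    have h1 := hc.scomp z (Complex.hasDerivAt_exp z)
    rw [mul_smul]
    exact h1
  -- P is constant along the curve near w
  have hPc : ∀ᶠ z in 𝓝 w, D.P (zc z) = D.P (zc w) := by
    obtain ⟨r, hr, hrb⟩ := Metric.mem_nhds_iff.1 (hΩn w hwΩ)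
    filter_upwards [ball_mem_nhds w hr] with z hz
    have hd : ∀ y ∈ ball w r, HasDerivAt (fun y => D.P (zc y)) 0 y := by
      intro y hy
      obtain ⟨c, hc⟩ := hder y (hrb hy)
      have h2 := D.P.hasFDerivAt.comp_hasDerivAt y hc
      refine h2.congr_deriv ?_
      rw [map_smul, D.hPA, smul_zero]
    exact isOpen_ball.is_const_of_deriv_eq_zero (convex_ball w r).isPreconnected
      (fun y hy => (hd y hy).differentiableAt.differentiableWithinAt)
      (fun y hy => (hd y hy).deriv) hz (mem_ball_self hr)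
  set Y : Fin n → ℂ → ℂ := fun j z => D.lam j (zc z) with hY
  have hYa : ∀ j, AnalyticAt ℂ (Y j) w := fun j =>
    ((D.lam j).analyticAt _).comp hana
  have hNN : ∀ z, NN Y z = D.Nf (zc z) := fun z => rfl
  have hns : φ (Complex.exp w) ∉ F.sing := (hφ.tangent.2 _ hξ).1
  have hAne : D.A (zc w) ≠ 0 := fun h => hns ((D.hgen _ hsrc).1.2 h)
  have hN0 : 0 < NN Y w := by rw [hNN]; exact D.Nf_pos hAne
  set χ : ℝ := bump (‖D.P (zc w - zp)‖ / R) with hχ
  have hχ0 : 0 ≤ χ := bump_nonneg _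
  have hχ1 : χ ≤ 1 := bump_le_one _
  have hU : (fun z => D.W (φ (Complex.exp z))) =ᶠ[𝓝 w] fun z => χ * K (NN Y z) := by
    filter_upwards [hΩn w hwΩ, hPc] with z hz hP
    show D.W (φ (Complex.exp z)) = _
    unfold W
    rw [if_pos (show φ (Complex.exp z) ∈ e.source from hz.2), hNN, hχ, map_sub D.P,
      map_sub D.P (zc w)]
    rw [show D.P (e (φ (Complex.exp z))) = D.P (zc w) from hP]
  have hCK : ContDiffAt ℝ 2 (fun z => K (NN Y z)) w := contDiffAt_KN hYa hN0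
  have hLap : Lap (fun z => D.W (φ (Complex.exp z))) w = χ * Lap (fun z => K (NN Y z)) w := by
    rw [Lap_congr hU, Lap_const_mul hCK]
  -- derivative data
  set η : E := deriv (fun z => e (φ z)) (Complex.exp w) with hη
  have hzcd : HasDerivAt zc (Complex.exp w • η) w :=
    hana0.differentiableAt.hasDerivAt.scomp w (Complex.hasDerivAt_exp w)
  have hYd : ∀ j, deriv (Y j) w = Complex.exp w * D.lam j η := by
    intro j
    have h1 : HasDerivAt (Y j) (D.lam j (Complex.exp w • η)) w :=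
      (D.lam j).hasFDerivAt.comp_hasDerivAt w hzcd
    rw [h1.deriv, map_smul, smul_eq_mul]
  have hexpn : ‖Complex.exp w‖ ^ 2 = Real.exp (2 * w.re) := by
    rw [Complex.norm_exp, ← Real.exp_nat_mul]
    norm_num
  have hAA : AA Y w = Real.exp (2 * w.re) * D.Nf η := by
    unfold AA LinData.Nf
    rw [Finset.mul_sum]
    refine Finset.sum_congr rfl fun j _ => ?_
    rw [hYd, norm_mul, mul_pow, hexpn]
  have hE0 : 0 < Real.exp (2 * w.re) := Real.exp_pos _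
  have hg0 : 0 ≤ pullback ω φ (Complex.exp w) := pullback_nonneg ω φ _
  have hpb : pullback ω φ (Complex.exp w) = Qe ω e (zc w) η :=
    pullback_chart ω (hmd _ hξ) ⟨D.heC, hsrc⟩
  refine ⟨(contDiffAt_const.mul hCK).congr_of_eventuallyEq hU, ?_, ?_⟩
  · rw [hLap]
    have hcQ := D.hcQ
    have hCpos : 0 ≤ 24 * Real.exp 4 * (D.κ ^ 2 * D.a₂ * ‖D.A‖ ^ 2) / cQ := by
      have := D.ha₂
      positivity
    have hRHS : 0 ≤ (24 * Real.exp 4 * (D.κ ^ 2 * D.a₂ * ‖D.A‖ ^ 2) / cQ + 1) *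
        (pullback ω φ (Complex.exp w) * Real.exp (2 * w.re)) := by positivity
    by_cases hN1 : 1 ≤ NN Y w
    · rw [Lap_KN_zero hYa hN1, mul_zero]
      exact hRHS
    push Not at hN1
    by_cases hχz : χ = 0
    · rw [hχz, zero_mul]
      exact hRHS
    by_cases hL : 4 ≤ -Real.log (NN Y w)
    · have h1 := Lap_KN_le' hYa hN0 hL
      have h2 : -3 * (AA Y w / NN Y w) / (-Real.log (NN Y w)) ^ 2 ≤ 0 := by
        have h3 : 0 ≤ AA Y w / NN Y w := div_nonneg (AA_nonneg w) hN0.le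
        have h4 : 0 < (-Real.log (NN Y w)) ^ 2 := by
          have : 0 < -Real.log (NN Y w) := by linarith
          positivity
        apply div_nonpos_of_nonpos_of_nonneg _ h4.le
        linarith
      exact (mul_nonpos_of_nonneg_of_nonpos hχ0 (h1.trans h2)).trans hRHS
    · push Not at hL
      have h1 := Lap_KN_le hYa hN0
      have h2 : AA Y w / NN Y w ≤ Real.exp 4 * AA Y w := by
        rw [div_le_iff₀ hN0]
        have h3 : Real.exp (-4) ≤ NN Y w := by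
          rw [← Real.le_log_iff_exp_le hN0]
          linarith
        have h4 : 1 ≤ Real.exp 4 * NN Y w := by
          have h5 := mul_le_mul_of_nonneg_left h3 (Real.exp_pos 4).le
          rw [← Real.exp_add] at h5
          simpa using h5
        have := AA_nonneg (Y := Y) w
        nlinarith
      have hin : zc w ∈ closedBall zp (3 * R) :=
        D.mem_closedBall_of_ne hχz (by rw [← hNN]; exact hN1)
      have h5 : cQ * ‖η‖ ^ 2 ≤ pullback ω φ (Complex.exp w) := by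
        rw [hpb]; exact D.hQ _ hin η
      have h6 : D.Nf η ≤ D.κ ^ 2 * D.a₂ * ‖D.A‖ ^ 2 * ‖η‖ ^ 2 := by
        rw [D.Nf_eq]
        have h7 := D.hℓ₂ (D.A η)
        have h8 : ‖D.A η‖ ^ 2 ≤ (‖D.A‖ * ‖η‖) ^ 2 :=
          pow_le_pow_left₀ (norm_nonneg _) (D.A.le_opNorm η) 2
        have h9 : 0 ≤ D.κ ^ 2 := by positivity
        calc D.κ ^ 2 * ∑ j, ‖D.ℓ j (D.A η)‖ ^ 2 ≤ D.κ ^ 2 * (D.a₂ * ‖D.A η‖ ^ 2) :=
              mul_le_mul_of_nonneg_left h7 h9
          _ ≤ D.κ ^ 2 * (D.a₂ * (‖D.A‖ * ‖η‖) ^ 2) := by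
              have := D.ha₂
              gcongr
          _ = _ := by ring
      have h7 : ‖η‖ ^ 2 ≤ pullback ω φ (Complex.exp w) / cQ := by
        rw [le_div_iff₀ hcQ]; linarith
      have hlapn : Lap (fun z => K (NN Y z)) w ≤
          24 * Real.exp 4 * (D.κ ^ 2 * D.a₂ * ‖D.A‖ ^ 2) / cQ *
            (pullback ω φ (Complex.exp w) * Real.exp (2 * w.re)) := by
        calc Lap (fun z => K (NN Y z)) w ≤ 24 * (AA Y w / NN Y w) := h1
          _ ≤ 24 * (Real.exp 4 * AA Y w) := by linarith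
          _ = 24 * Real.exp 4 * (Real.exp (2 * w.re) * D.Nf η) := by rw [hAA]; ring
          _ ≤ 24 * Real.exp 4 * (Real.exp (2 * w.re) *
                (D.κ ^ 2 * D.a₂ * ‖D.A‖ ^ 2 * (pullback ω φ (Complex.exp w) / cQ))) := by
              have h10 : D.Nf η ≤
                  D.κ ^ 2 * D.a₂ * ‖D.A‖ ^ 2 * (pullback ω φ (Complex.exp w) / cQ) := by
                refine h6.trans (mul_le_mul_of_nonneg_left h7 ?_)
                have := D.ha₂
                positivity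
              gcongr
          _ = _ := by ring
      have h11 : 0 ≤ pullback ω φ (Complex.exp w) * Real.exp (2 * w.re) := by positivity
      have h12 : 0 ≤ 24 * Real.exp 4 * (D.κ ^ 2 * D.a₂ * ‖D.A‖ ^ 2) / cQ *
            (pullback ω φ (Complex.exp w) * Real.exp (2 * w.re)) := mul_nonneg hCpos h11
      calc χ * Lap (fun z => K (NN Y z)) w
          ≤ χ * (24 * Real.exp 4 * (D.κ ^ 2 * D.a₂ * ‖D.A‖ ^ 2) / cQ *
            (pullback ω φ (Complex.exp w) * Real.exp (2 * w.re))) :=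
              mul_le_mul_of_nonneg_left hlapn hχ0
        _ ≤ 1 * (24 * Real.exp 4 * (D.κ ^ 2 * D.a₂ * ‖D.A‖ ^ 2) / cQ *
            (pullback ω φ (Complex.exp w) * Real.exp (2 * w.re))) :=
              mul_le_mul_of_nonneg_right hχ1 h12
        _ ≤ _ := by rw [one_mul, add_mul, one_mul]; linarith
  · rintro ⟨-, hinP, hinN⟩
    have hinP' : ‖D.P (zc w - zp)‖ < R := hinP
    have hinN' : NN Y w < Real.exp (-4) := hinN
    have hR0 := D.hR0
    have hχeq : χ = 1 := by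
      apply bump_eq_one
      rw [div_le_one hR0]
      exact hinP'.le
    rw [hLap, hχeq, one_mul]
    set L := -Real.log (NN Y w) with hL
    have hL4 : 4 < L := by
      rw [hL]
      have := Real.log_lt_log hN0 hinN'
      rw [Real.log_exp] at this
      linarith
    have h1 := Lap_KN_le' hYa hN0 (by rw [← hL]; exact hL4.le)
    rw [← hL] at h1
    -- the linear tangent disc
    set δ : ℝ := L / (2 * (‖D.A‖ + 1)) with hδ
    have hA1 : 0 < ‖D.A‖ + 1 := by positivity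
    have hL0 : 0 < L := by linarith
    have hδ0 : 0 < δ := by positivity
    have hδA : δ * ‖D.A‖ ≤ L / 2 := by
      rw [hδ, div_mul_eq_mul_div, div_le_div_iff₀ (by positivity) (by norm_num)]
      nlinarith [norm_nonneg D.A]
    have hBx : ‖D.B‖ * (Real.exp (δ * ‖D.A‖) * ‖D.A (zc w)‖) ≤ R := by
      have h2 := D.BA_le hAne
      rw [← hNN, ← hL] at h2
      calc ‖D.B‖ * (Real.exp (δ * ‖D.A‖) * ‖D.A (zc w)‖)
          = Real.exp (δ * ‖D.A‖) * (‖D.B‖ * ‖D.A (zc w)‖) := by ring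
        _ ≤ Real.exp (L / 2) * (R * Real.exp (-L / 2)) := by
            have := Real.exp_le_exp.2 hδA
            gcongr
        _ = R * (Real.exp (L / 2) * Real.exp (-L / 2)) := by ring
        _ = R := by
            rw [← Real.exp_add]
            have : L / 2 + -L / 2 = 0 := by ring
            rw [this, Real.exp_zero, mul_one]
    obtain ⟨ψ, hψ, hψ0, hψd⟩ := exists_linear_disc D.heC D.hgen D.hPA D.hPB D.hzp D.hR hsrc hAne
      hinP'.le hδ0 hBx
    obtain ⟨k, hk1, -, hk3⟩ := schwarz_lift ω hφ hψ hξ hψ0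
    have h3 := (hk3 e ⟨D.heC, hsrc⟩).unique hψd
    have h3' : k • η = (δ : ℂ) • D.A (zc w) := h3
    -- compare Nf
    have h4 : ‖k‖ ^ 2 * D.Nf η = δ ^ 2 * D.Nf (D.A (zc w)) := by
      unfold LinData.Nf
      rw [Finset.mul_sum, Finset.mul_sum]
      refine Finset.sum_congr rfl fun j _ => ?_
      have h5 : k * D.lam j η = (δ : ℂ) * D.lam j (D.A (zc w)) := by
        have := congrArg (D.lam j) h3'
        rwa [map_smul, map_smul, smul_eq_mul, smul_eq_mul] at this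
      rw [← mul_pow, ← norm_mul, h5, norm_mul, Complex.norm_real, Real.norm_eq_abs,
        abs_of_pos hδ0, mul_pow]
    set DD : ℝ := D.a₁ * D.a₂ * (‖D.B‖ ^ 2 + 1) with hDD
    have hDD0 : 0 < DD := by
      have := D.ha₁
      have := D.ha₂
      positivity
    have h6 : D.Nf (zc w) ≤ DD * D.Nf (D.A (zc w)) := by
      rw [D.Nf_eq, D.Nf_eq]
      have h7 := D.hℓ₂ (D.A (zc w))
      have h8 : ‖D.A (zc w)‖ ^ 2 ≤ ‖D.B‖ ^ 2 * ‖D.A (D.A (zc w))‖ ^ 2 := by
        have h9 : ‖D.A (zc w)‖ ≤ ‖D.B‖ * ‖D.A (D.A (zc w))‖ := by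
          have := D.B.le_opNorm (D.A (D.A (zc w)))
          rwa [D.hBA] at this
        calc ‖D.A (zc w)‖ ^ 2 ≤ (‖D.B‖ * ‖D.A (D.A (zc w))‖) ^ 2 :=
              pow_le_pow_left₀ (norm_nonneg _) h9 2
          _ = _ := by ring
      have h10 := D.hℓ₁ (D.A (D.A (zc w)))
      have ha₁ := D.ha₁
      have ha₂ := D.ha₂
      have h11 : 0 ≤ ∑ j, ‖D.ℓ j (D.A (D.A (zc w)))‖ ^ 2 :=
        Finset.sum_nonneg fun _ _ => by positivity
      calc D.κ ^ 2 * ∑ j, ‖D.ℓ j (D.A (zc w))‖ ^ 2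
          ≤ D.κ ^ 2 * (D.a₂ * ‖D.A (zc w)‖ ^ 2) := by gcongr
        _ ≤ D.κ ^ 2 * (D.a₂ * (‖D.B‖ ^ 2 * ‖D.A (D.A (zc w))‖ ^ 2)) := by gcongr
        _ ≤ D.κ ^ 2 * (D.a₂ * (‖D.B‖ ^ 2 *
              (D.a₁ * ∑ j, ‖D.ℓ j (D.A (D.A (zc w)))‖ ^ 2))) := by gcongr
        _ ≤ D.κ ^ 2 * (D.a₂ * ((‖D.B‖ ^ 2 + 1) *
              (D.a₁ * ∑ j, ‖D.ℓ j (D.A (D.A (zc w)))‖ ^ 2))) := by
            gcongr
            linarith
        _ = _ := by rw [hDD]; ring
    -- 1 - |ξ|²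
    have hξn : ‖Complex.exp w‖ ^ 2 < 1 := by
      rw [mem_ball_zero_iff] at hξ
      nlinarith [norm_nonneg (Complex.exp w)]
    rw [hexpn] at hξn hk1
    set q : ℝ := 1 - Real.exp (2 * w.re) with hq
    have hq0 : 0 < q := by linarith
    have h7 : ‖k‖ ^ 2 ≤ q ^ 2 := pow_le_pow_left₀ (norm_nonneg _) hk1 2
    have h8 : δ ^ 2 * NN Y w ≤ q ^ 2 * DD * D.Nf η := by
      have h9 := D.Nf_nonneg η
      calc δ ^ 2 * NN Y w ≤ δ ^ 2 * (DD * D.Nf (D.A (zc w))) := by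
            rw [hNN]; gcongr
        _ = DD * (‖k‖ ^ 2 * D.Nf η) := by rw [h4]; ring
        _ ≤ DD * (q ^ 2 * D.Nf η) := by gcongr
        _ = _ := by ring
    -- hence AA / NN is large
    have h9 : Real.exp (2 * w.re) * δ ^ 2 / (q ^ 2 * DD) ≤ AA Y w / NN Y w := by
      rw [div_le_div_iff₀ (by positivity) hN0, hAA]
      nlinarith
    have h10 : δ ^ 2 / L ^ 2 = 1 / (4 * (‖D.A‖ + 1) ^ 2) := by
      rw [hδ]
      field_simp
      norm_num
    calc Lap (fun z => K (NN Y z)) w ≤ -3 * (AA Y w / NN Y w) / L ^ 2 := h1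
      _ ≤ -3 * (Real.exp (2 * w.re) * δ ^ 2 / (q ^ 2 * DD)) / L ^ 2 := by
          rw [div_le_div_iff_of_pos_right (by positivity)]
          linarith
      _ = -(3 * (δ ^ 2 / L ^ 2) / DD * (Real.exp (2 * w.re) / q ^ 2)) := by
          field_simp
      _ = -(3 / (4 * (‖D.A‖ + 1) ^ 2 * DD) * (Real.exp (2 * w.re) / q ^ 2)) := by
          rw [h10]
          field_simp

end LinData

end Pool.Agent.Helper240.Nev
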