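import Mathlib

/-!
A Jensen type inequality for functions on the punctured disc, in logarithmic coordinates.
-/

set_option autoImplicit false

open Set Metric MeasureTheory Filter Topology
open scoped Real

namespace Pool.Agent.Helper240.NevJ

/-- directional derivative -/
noncomputable def D1 (U : ℂ → ℝ) (v w : ℂ) : ℝ := fderiv ℝ U w v

/-- second directional derivative -/
noncomputable def D2 (U : ℂ → ℝ) (v w : ℂ) : ℝ := fderiv ℝ (D1 U v) w v

/-- Laplacian -/
noncomputable def Lap (U : ℂ → ℝ) (w : ℂ) : ℝ := D2 U 1 w + D2 U Complex.I w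

def H : Set ℂ := {w | w.re < 0}

theorem isOpen_H : IsOpen H := isOpen_lt Complex.continuous_re continuous_const

theorem contDiffOn_D1 {U : ℂ → ℝ} (hU : ContDiffOn ℝ 2 U H) (v : ℂ) :
    ContDiffOn ℝ 1 (D1 U v) H := by
  intro w hw
  have h1 : ContDiffAt ℝ 2 U w := hU.contDiffAt (isOpen_H.mem_nhds hw)
  have h2 : ContDiffAt ℝ 1 (fderiv ℝ U) w := h1.fderiv_right (by norm_num)
  exact (h2.clm_apply contDiffAt_const).contDiffWithinAt

theorem continuousOn_D2 {U : ℂ → ℝ} (hU : ContDiffOn ℝ 2 U H) (v : ℂ) :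
    ContinuousOn (D2 U v) H := by
  intro w hw
  have h1 : ContDiffAt ℝ 1 (D1 U v) w :=
    (contDiffOn_D1 hU v).contDiffAt (isOpen_H.mem_nhds hw)
  have h2 : ContDiffAt ℝ 0 (fderiv ℝ (D1 U v)) w := h1.fderiv_right (by norm_num)
  exact (h2.continuousAt.clm_apply continuousAt_const).continuousWithinAt

theorem line_hasDerivAt {V : ℂ → ℝ} {w v : ℂ} (hV : DifferentiableAt ℝ V w) (t : ℝ) (a : ℂ)
    (h : w = a + t * v) :
    HasDerivAt (fun x : ℝ => V (a + x * v)) (fderiv ℝ V w v) t := by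
  have h1 : HasDerivAt (fun x : ℝ => a + (x : ℂ) * v) v t := by
    have := ((Complex.ofRealCLM.hasDerivAt (x := t)).mul_const v).const_add a
    simpa using this
  have h2 : HasFDerivAt V (fderiv ℝ V w) (a + t * v) := by rw [← h]; exact hV.hasFDerivAt
  exact h2.comp_hasDerivAt t h1

theorem mem_H_iff (s θ : ℝ) : ((s : ℂ) + θ * Complex.I) ∈ H ↔ s < 0 := by
  simp [H]

/-- differentiation of the mean over vertical segments -/
theorem hasDerivAt_mean {V : ℂ → ℝ} (hV : ContDiffOn ℝ 1 V H) {s : ℝ} (hs : s < 0) :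
    HasDerivAt (fun s : ℝ => ∫ θ in (-π)..π, V (s + θ * Complex.I))
      (∫ θ in (-π)..π, D1 V 1 (s + θ * Complex.I)) s := by
  -- a compact neighbourhood
  set a := s - 1 with ha
  set b := s / 2 with hb
  have hsab : s ∈ Ioo a b := ⟨by linarith, by linarith⟩
  have hb0 : b < 0 := by linarith
  have hcontD : ContinuousOn (D1 V 1) H := by
    intro w hw
    have h1 : ContDiffAt ℝ 1 V w := hV.contDiffAt (isOpen_H.mem_nhds hw)
    have h2 : ContDiffAt ℝ 0 (fderiv ℝ V) w := h1.fderiv_right (by norm_num)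
    exact (h2.continuousAt.clm_apply continuousAt_const).continuousWithinAt
  have hcontP : Continuous fun p : ℝ × ℝ => ((p.1 : ℂ) + p.2 * Complex.I) := by fun_prop
  have hK : IsCompact (Icc a b ×ˢ Icc (-π) π) := isCompact_Icc.prod isCompact_Icc
  have hmap : ∀ p ∈ Icc a b ×ˢ Icc (-π) π, ((p.1 : ℂ) + p.2 * Complex.I) ∈ H := by
    rintro ⟨x, y⟩ ⟨hx, _⟩
    rw [mem_H_iff]
    exact lt_of_le_of_lt hx.2 hb0
  have hcont2 : ContinuousOn (fun p : ℝ × ℝ => D1 V 1 ((p.1 : ℂ) + p.2 * Complex.I))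
      (Icc a b ×ˢ Icc (-π) π) := hcontD.comp hcontP.continuousOn hmap
  obtain ⟨B, hB⟩ := hK.exists_bound_of_continuousOn hcont2
  have hline : ∀ x < (0 : ℝ), Continuous fun θ : ℝ => V (x + θ * Complex.I) := by
    intro x hx
    have : ContinuousOn V H := hV.continuousOn
    exact this.comp_continuous (by fun_prop) (fun θ => (mem_H_iff x θ).2 hx)
  have hlineD : ∀ x < (0 : ℝ), Continuous fun θ : ℝ => D1 V 1 (x + θ * Complex.I) := by
    intro x hx
    exact hcontD.comp_continuous (by fun_prop) (fun θ => (mem_H_iff x θ).2 hx)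
  refine (intervalIntegral.hasDerivAt_integral_of_dominated_loc_of_deriv_le (s := Ioo a b)
    (F := fun (x : ℝ) (θ : ℝ) => V (x + θ * Complex.I))
    (F' := fun (x : ℝ) (θ : ℝ) => D1 V 1 (x + θ * Complex.I))
    (bound := fun _ => B) (Ioo_mem_nhds hsab.1 hsab.2) ?_ ?_ ?_ ?_ ?_ ?_).2
  · filter_upwards [Iio_mem_nhds hs] with x hx
    exact (hline x hx).aestronglyMeasurable
  · exact (hline s hs).intervalIntegrable _ _
  · exact (hlineD s hs).aestronglyMeasurable
  · refine Eventually.of_forall fun θ hθ x hx => ?_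
    rw [uIoc_of_le (by linarith [Real.pi_pos])] at hθ
    exact hB (x, θ) ⟨⟨hx.1.le, hx.2.le⟩, hθ.1.le, hθ.2⟩
  · exact intervalIntegrable_const
  · refine Eventually.of_forall fun θ _ x hx => ?_
    have hx0 : x < 0 := hx.2.trans hb0
    have hd : DifferentiableAt ℝ V ((x : ℂ) + θ * Complex.I) :=
      (hV.contDiffAt (isOpen_H.mem_nhds ((mem_H_iff x θ).2 hx0))).differentiableAt (by norm_num)
    have := line_hasDerivAt (v := 1) hd x (θ * Complex.I) (by ring)
    simp only [mul_one] at this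
    refine this.congr_of_eventuallyEq (Eventually.of_forall fun y => ?_)
    show V (y + θ * Complex.I) = V (θ * Complex.I + y)
    rw [add_comm]

/-- the integral of the second derivative in the periodic direction vanishes -/
theorem integral_D2_I {U : ℂ → ℝ} (hU : ContDiffOn ℝ 2 U H)
    (hper : ∀ w, U (w + 2 * π * Complex.I) = U w) {s : ℝ} (hs : s < 0) :
    ∫ θ in (-π)..π, D2 U Complex.I (s + θ * Complex.I) = 0 := by
  have h1 : ∀ θ : ℝ, HasDerivAt (fun θ : ℝ => D1 U Complex.I (s + θ * Complex.I))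
      (D2 U Complex.I (s + θ * Complex.I)) θ := by
    intro θ
    have hd : DifferentiableAt ℝ (D1 U Complex.I) ((s : ℂ) + θ * Complex.I) :=
      ((contDiffOn_D1 hU Complex.I).contDiffAt
        (isOpen_H.mem_nhds ((mem_H_iff s θ).2 hs))).differentiableAt (by norm_num)
    exact line_hasDerivAt hd θ s rfl
  have hc : Continuous fun θ : ℝ => D2 U Complex.I (s + θ * Complex.I) :=
    (continuousOn_D2 hU Complex.I).comp_continuous (by fun_prop) (fun θ => (mem_H_iff s θ).2 hs)
  rw [intervalIntegral.integral_eq_sub_of_hasDerivAt (fun θ _ => h1 θ)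
    (hc.intervalIntegrable _ _)]
  have hper' : ∀ w, fderiv ℝ U (w + 2 * π * Complex.I) = fderiv ℝ U w := by
    intro w
    have : U = fun z => U (z + 2 * π * Complex.I) := by
      funext z; exact (hper z).symm
    conv_rhs => rw [this]
    rw [fderiv_comp_add_right]
  have : (s : ℂ) + (π : ℝ) * Complex.I = (s + ((-π : ℝ) : ℂ) * Complex.I) + 2 * π * Complex.I := by
    push_cast; ring
  unfold D1
  rw [this, hper', sub_self]

/-- convexity argument: monotone derivative and boundedness near `-∞` -/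
theorem deriv_nonneg_of_bounded {Q Q' : ℝ → ℝ} (hQ : ∀ s < 0, HasDerivAt Q (Q' s) s)
    (hmono : MonotoneOn Q' (Iio 0)) {B : ℝ} (hB : ∀ s ≤ -1, Q s ≤ B) :
    ∀ s < 0, 0 ≤ Q' s := by
  intro s hs
  by_contra hneg
  push Not at hneg
  -- go far to the left
  set s1 := min s (-1) with hs1
  have hs1neg : s1 < 0 := lt_of_le_of_lt (min_le_left _ _) hs
  have hq1 : Q' s1 < 0 := lt_of_le_of_lt (hmono hs1neg hs (min_le_left _ _)) hneg
  set t := s1 - (B - Q s1 + 1) / (-Q' s1) with ht
  have hBQ : 0 ≤ B - Q s1 := by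
    have := hB s1 (min_le_right _ _)
    linarith
  have hpos : 0 < (B - Q s1 + 1) / (-Q' s1) := div_pos (by linarith) (by linarith)
  have hts : t < s1 := by linarith
  obtain ⟨c, hc, hceq⟩ := exists_hasDerivAt_eq_slope Q Q' hts
    (fun x hx => (hQ x (lt_of_le_of_lt hx.2 hs1neg)).continuousAt.continuousWithinAt)
    (fun x hx => hQ x (hx.2.trans hs1neg))
  have hc0 : c < 0 := hc.2.trans hs1neg
  have h1 : Q' c ≤ Q' s1 := hmono hc0 hs1neg hc.2.le
  rw [hceq, div_le_iff₀ (by linarith)] at h1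
  have h2 : s1 - t = (B - Q s1 + 1) / (-Q' s1) := by rw [ht]; ring
  rw [h2] at h1
  have hne : -Q' s1 ≠ 0 := by linarith
  have h3 : Q' s1 * ((B - Q s1 + 1) / (-Q' s1)) = -(B - Q s1 + 1) := by
    have : Q' s1 * ((B - Q s1 + 1) / (-Q' s1)) = -((-Q' s1) * ((B - Q s1 + 1) / (-Q' s1))) := by
      ring
    rw [this, mul_div_cancel₀ _ hne]
  rw [h3] at h1
  have h4 := hB t (by
    have := min_le_right s (-1)
    linarith)
  linarith

/-- integral over the circle of radius `ρ` -/
noncomputable def circ (g : ℂ → ℝ) (ρ : ℝ) : ℝ :=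
  ∫ θ in (-π)..π, g (ρ * (Real.cos θ + Real.sin θ * Complex.I))

theorem norm_pol (ρ θ : ℝ) : ‖(ρ : ℂ) * (Real.cos θ + Real.sin θ * Complex.I)‖ = |ρ| := by
  have := Complex.norm_polarCoord_symm (ρ, θ)
  rwa [Complex.polarCoord_symm_apply] at this

theorem exp_pol (s θ : ℝ) : Complex.exp (s + θ * Complex.I) =
    (Real.exp s : ℂ) * (Real.cos θ + Real.sin θ * Complex.I) := by
  rw [Complex.exp_add, Complex.exp_mul_I]
  push_cast
  rfl

theorem circ_continuousAt {g : ℂ → ℝ} (hg : ContinuousOn g (ball 0 1)) {ρ : ℝ} (h : |ρ| < 1) :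
    ContinuousAt (circ g) ρ := by
  obtain ⟨r, hr1, hr2⟩ := exists_between h
  have hr0 : 0 ≤ r := (abs_nonneg ρ).trans hr1.le
  have hsub : closedBall (0 : ℂ) r ⊆ ball 0 1 := closedBall_subset_ball hr2
  obtain ⟨B, hB⟩ := (isCompact_closedBall (0 : ℂ) r).exists_bound_of_continuousOn (hg.mono hsub)
  have hnb : ∀ᶠ x in 𝓝 ρ, |x| < r := (continuous_abs.continuousAt).eventually_lt
    continuousAt_const hr1
  refine intervalIntegral.continuousAt_of_dominated_interval (bound := fun _ => B) ?_ ?_ ?_ ?_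
  · filter_upwards [hnb] with x hx
    have : Continuous fun θ : ℝ => g (x * (Real.cos θ + Real.sin θ * Complex.I)) := by
      refine hg.comp_continuous (by fun_prop) fun θ => ?_
      rw [mem_ball_zero_iff, norm_pol]
      exact hx.trans hr2
    exact this.aestronglyMeasurable
  · filter_upwards [hnb] with x hx
    refine Eventually.of_forall fun θ _ => hB _ ?_
    rw [mem_closedBall_zero_iff, norm_pol]
    exact hx.le
  · exact intervalIntegrable_const
  · refine Eventually.of_forall fun θ _ => ?_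
    have h1 : ContinuousAt g ((ρ : ℂ) * (Real.cos θ + Real.sin θ * Complex.I)) := by
      refine hg.continuousAt (isOpen_ball.mem_nhds ?_)
      rw [mem_ball_zero_iff, norm_pol]
      exact h
    have h2 : ContinuousAt (fun x : ℝ => (x : ℂ) * (Real.cos θ + Real.sin θ * Complex.I)) ρ := by
      fun_prop
    exact ContinuousAt.comp (f := fun x : ℝ => (x : ℂ) * (Real.cos θ + Real.sin θ * Complex.I))
      (g := g) h1 h2

theorem area_eq {g : ℂ → ℝ} (hg : ContinuousOn g (ball 0 1)) {t : ℝ} (ht0 : 0 < t) (ht1 : t < 1) :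
    ∫ ξ in ball (0 : ℂ) t, g ξ = ∫ ρ in (0 : ℝ)..t, ρ * circ g ρ := by
  have hpi := Real.pi_pos
  rw [← integral_indicator measurableSet_ball, ← Complex.integral_comp_polarCoord_symm]
  have h1 : ∀ p ∈ polarCoord.target,
      p.1 • (ball (0 : ℂ) t).indicator g (Complex.polarCoord.symm p) =
      (Ioo (0 : ℝ) t ×ˢ Ioo (-π) π).indicator
        (fun p : ℝ × ℝ => p.1 * g (p.1 * (Real.cos p.2 + Real.sin p.2 * Complex.I))) p := by
    rintro ⟨x, y⟩ ⟨hx, hy⟩
    simp only [mem_Ioi] at hx
    have hy' : y ∈ Ioo (-π) π := hy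
    have hn : ‖Complex.polarCoord.symm (x, y)‖ = x := by
      rw [Complex.norm_polarCoord_symm]; exact abs_of_pos hx
    by_cases hxt : x < t
    · rw [indicator_of_mem (by rw [mem_ball_zero_iff, hn]; exact hxt),
        indicator_of_mem (show (x, y) ∈ Ioo (0 : ℝ) t ×ˢ Ioo (-π) π from ⟨⟨hx, hxt⟩, hy'⟩),
        Complex.polarCoord_symm_apply]
      rfl
    · rw [indicator_of_notMem (by rw [mem_ball_zero_iff, hn]; exact hxt),
        indicator_of_notMem (fun h => hxt h.1.2), smul_zero]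
  rw [setIntegral_congr_fun polarCoord.open_target.measurableSet h1,
    setIntegral_indicator (measurableSet_Ioo.prod measurableSet_Ioo)]
  have h2 : polarCoord.target ∩ Ioo (0 : ℝ) t ×ˢ Ioo (-π) π = Ioo (0 : ℝ) t ×ˢ Ioo (-π) π := by
    apply inter_eq_self_of_subset_right
    rintro ⟨x, y⟩ ⟨hx, hy⟩
    exact ⟨hx.1, hy⟩
  rw [h2]
  have hcont : ContinuousOn
      (fun p : ℝ × ℝ => p.1 * g (p.1 * (Real.cos p.2 + Real.sin p.2 * Complex.I)))
      (Icc (0 : ℝ) t ×ˢ Icc (-π) π) := by
    refine continuousOn_fst.mul (hg.comp (by fun_prop) ?_)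
    rintro ⟨x, y⟩ ⟨hx, _⟩
    rw [mem_ball_zero_iff, norm_pol, abs_of_nonneg hx.1]
    exact lt_of_le_of_lt hx.2 ht1
  have hint : IntegrableOn
      (fun p : ℝ × ℝ => p.1 * g (p.1 * (Real.cos p.2 + Real.sin p.2 * Complex.I)))
      (Ioo (0 : ℝ) t ×ˢ Ioo (-π) π) (volume.prod volume) :=
    (hcont.integrableOn_compact (isCompact_Icc.prod isCompact_Icc)).mono_set
      (prod_mono Ioo_subset_Icc_self Ioo_subset_Icc_self)
  have h3 := setIntegral_prod _ hint
  refine Eq.trans h3 ?_
  rw [intervalIntegral.integral_of_le ht0.le, integral_Ioc_eq_integral_Ioo]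
  refine setIntegral_congr_fun measurableSet_Ioo fun x _ => ?_
  show ∫ y in Ioo (-π) π, x * g (x * (Real.cos y + Real.sin y * Complex.I)) = x * circ g x
  rw [circ, intervalIntegral.integral_of_le (by linarith), integral_Ioc_eq_integral_Ioo,
    integral_const_mul]

theorem area_hasDerivAt {g : ℂ → ℝ} (hg : ContinuousOn g (ball 0 1)) {t : ℝ} (ht0 : 0 < t)
    (ht1 : t < 1) :
    HasDerivAt (fun t => ∫ ξ in ball (0 : ℂ) t, g ξ) (t * circ g t) t := by
  have hc : ContinuousOn (fun ρ => ρ * circ g ρ) (Ioo (-1) 1) := by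
    intro x hx
    exact (continuousAt_id.mul (circ_continuousAt hg (abs_lt.2 ⟨hx.1, hx.2⟩))).continuousWithinAt
  have h1 : HasDerivAt (fun t => ∫ ρ in (0 : ℝ)..t, ρ * circ g ρ) (t * circ g t) t := by
    refine intervalIntegral.integral_hasDerivAt_right ?_ ?_ ?_
    · refine (hc.mono ?_).intervalIntegrable
      rw [uIcc_of_le ht0.le]
      intro x hx
      exact ⟨by linarith [hx.1], lt_of_le_of_lt hx.2 ht1⟩
    · exact hc.stronglyMeasurableAtFilter isOpen_Ioo t ⟨by linarith, ht1⟩
    · exact hc.continuousAt (isOpen_Ioo.mem_nhds ⟨by linarith, ht1⟩)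
  refine h1.congr_of_eventuallyEq ?_
  filter_upwards [Ioo_mem_nhds ht0 ht1] with x hx
  exact area_eq hg hx.1 hx.2

/-- the characteristic -/
noncomputable def chr (g : ℂ → ℝ) (r : ℝ) : ℝ :=
  ∫ t in (0 : ℝ)..r, (∫ ξ in ball (0 : ℂ) t, g ξ) / t

theorem area_bound {g : ℂ → ℝ} (hg : ContinuousOn g (ball 0 1)) {r : ℝ} (hr0 : 0 < r)
    (hr1 : r < 1) : ∃ B, ∀ t ∈ Ioc 0 r, |(∫ ξ in ball (0 : ℂ) t, g ξ) / t| ≤ B := by
  have hsub : closedBall (0 : ℂ) r ⊆ ball 0 1 := closedBall_subset_ball hr1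
  obtain ⟨B, hB⟩ := (isCompact_closedBall (0 : ℂ) r).exists_bound_of_continuousOn (hg.mono hsub)
  have hB0 : 0 ≤ B := (norm_nonneg _).trans (hB 0 (mem_closedBall_self hr0.le))
  refine ⟨B * (2 * π), fun t ht => ?_⟩
  rw [area_eq hg ht.1 (lt_of_le_of_lt ht.2 hr1), abs_div, abs_of_pos ht.1, div_le_iff₀ ht.1]
  have h1 : ∀ ρ ∈ uIoc (0 : ℝ) t, ‖ρ * circ g ρ‖ ≤ B * (2 * π) := by
    intro ρ hρ
    rw [uIoc_of_le ht.1.le] at hρ
    have hρ1 : ρ ≤ 1 := by linarith [hρ.2, ht.2]
    have h2 : ‖circ g ρ‖ ≤ B * |π - (-π)| := by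
      refine intervalIntegral.norm_integral_le_of_norm_le_const fun θ _ => hB _ ?_
      rw [mem_closedBall_zero_iff, norm_pol, abs_of_pos hρ.1]
      exact hρ.2.trans ht.2
    have h3 : |π - (-π)| = 2 * π := by
      rw [abs_of_pos (by linarith [Real.pi_pos])]; ring
    rw [h3] at h2
    rw [norm_mul, Real.norm_eq_abs, abs_of_pos hρ.1]
    have h4 : 0 ≤ B * (2 * π) := by positivity
    calc ρ * ‖circ g ρ‖ ≤ 1 * (B * (2 * π)) :=
          mul_le_mul hρ1 h2 (norm_nonneg _) zero_le_one
      _ = _ := one_mul _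
  have := intervalIntegral.norm_integral_le_of_norm_le_const h1
  simpa [abs_of_pos ht.1] using this

theorem chr_integrable {g : ℂ → ℝ} (hg : ContinuousOn g (ball 0 1)) {r : ℝ} (hr0 : 0 < r)
    (hr1 : r < 1) :
    IntervalIntegrable (fun t => (∫ ξ in ball (0 : ℂ) t, g ξ) / t) volume 0 r := by
  obtain ⟨B, hB⟩ := area_bound hg hr0 hr1
  rw [intervalIntegrable_iff_integrableOn_Ioc_of_le hr0.le]
  have hc : ContinuousOn (fun t => (∫ ξ in ball (0 : ℂ) t, g ξ) / t) (Ioc 0 r) := by
    intro x hx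
    exact ((area_hasDerivAt hg hx.1 (lt_of_le_of_lt hx.2 hr1)).continuousAt.div continuousAt_id
      hx.1.ne').continuousWithinAt
  refine Integrable.of_bound (hc.aestronglyMeasurable measurableSet_Ioc) B ?_
  exact (ae_restrict_iff' measurableSet_Ioc).2 (Eventually.of_forall fun x hx => hB x hx)

theorem chr_hasDerivAt {g : ℂ → ℝ} (hg : ContinuousOn g (ball 0 1)) {r : ℝ} (hr0 : 0 < r)
    (hr1 : r < 1) : HasDerivAt (chr g) ((∫ ξ in ball (0 : ℂ) r, g ξ) / r) r := by
  have hc : ContinuousOn (fun t => (∫ ξ in ball (0 : ℂ) t, g ξ) / t) (Ioo 0 1) := by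
    intro x hx
    exact ((area_hasDerivAt hg hx.1 hx.2).continuousAt.div continuousAt_id
      hx.1.ne').continuousWithinAt
  exact intervalIntegral.integral_hasDerivAt_right (chr_integrable hg hr0 hr1)
    (hc.stronglyMeasurableAtFilter isOpen_Ioo r ⟨hr0, hr1⟩)
    (hc.continuousAt (isOpen_Ioo.mem_nhds ⟨hr0, hr1⟩))

theorem area_nonneg {g : ℂ → ℝ} (hg0 : ∀ z ∈ ball (0 : ℂ) 1, 0 ≤ g z) {t : ℝ} (ht1 : t < 1) :
    0 ≤ ∫ ξ in ball (0 : ℂ) t, g ξ :=
  setIntegral_nonneg measurableSet_ball fun z hz => hg0 z (ball_subset_ball ht1.le hz)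

theorem exp_lt_one' {s : ℝ} (h : s < 0) : Real.exp s < 1 := by
  rw [← Real.exp_zero]
  exact Real.exp_lt_exp.2 h

theorem exp_mem_ball {w : ℂ} (hw : w ∈ H) : Complex.exp w ∈ ball (0 : ℂ) 1 := by
  rw [mem_ball_zero_iff, Complex.norm_exp]
  exact exp_lt_one' hw

theorem circ_eq (g : ℂ → ℝ) (s : ℝ) :
    ∫ θ in (-π)..π, g (Complex.exp (s + θ * Complex.I)) = circ g (Real.exp s) := by
  unfold circ
  refine intervalIntegral.integral_congr fun θ _ => ?_
  show g (Complex.exp (s + θ * Complex.I)) = _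
  rw [exp_pol]

/-- The comparison theorem: a nonnegative periodic `C²` function on the left half plane whose
Laplacian is at most `C g - c |Poincare|²` forces logarithmic growth of the characteristic. -/
theorem jensen {U : ℂ → ℝ} (hU : ContDiffOn ℝ 2 U H)
    (hper : ∀ w, U (w + 2 * π * Complex.I) = U w) (hU0 : ∀ w ∈ H, 0 ≤ U w)
    {g : ℂ → ℝ} (hg : ContinuousOn g (ball 0 1)) (hg0 : ∀ z ∈ ball (0 : ℂ) 1, 0 ≤ g z)
    {C c : ℝ} (hC : 0 < C) (hc : 0 < c)
    (hlap : ∀ w ∈ H, Lap U w ≤ C * (g (Complex.exp w) * Real.exp (2 * w.re)) -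
      c * (Real.exp (2 * w.re) / (1 - Real.exp (2 * w.re)) ^ 2)) :
    ∃ k > 0, ∃ r₀ < 1, ∀ r, r₀ < r → r < 1 → k * Real.log (1 / (1 - r)) ≤ chr g r := by
  have hpi := Real.pi_pos
  set P : ℝ → ℝ := fun s => -(1 / 4) * Real.log (1 - Real.exp (2 * s)) with hP
  set P' : ℝ → ℝ := fun s => Real.exp (2 * s) / (2 * (1 - Real.exp (2 * s))) with hP'
  set m : ℝ → ℝ := fun s => ∫ θ in (-π)..π, U (s + θ * Complex.I) with hm
  set m' : ℝ → ℝ := fun s => ∫ θ in (-π)..π, D1 U 1 (s + θ * Complex.I) with hm'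
  set m'' : ℝ → ℝ := fun s => ∫ θ in (-π)..π, D2 U 1 (s + θ * Complex.I) with hm''
  set A : ℝ → ℝ := fun t => ∫ ξ in ball (0 : ℂ) t, g ξ with hA
  have hexp1 : ∀ s < (0 : ℝ), Real.exp s < 1 := fun s hs => exp_lt_one' hs
  have hexp2 : ∀ s < (0 : ℝ), 0 < 1 - Real.exp (2 * s) := fun s hs => by
    have := exp_lt_one' (show 2 * s < 0 by linarith)
    linarith
  have hPd : ∀ s < (0 : ℝ), HasDerivAt P (P' s) s := by
    intro s hs
    have h1 : HasDerivAt (fun s : ℝ => 1 - Real.exp (2 * s)) (-(Real.exp (2 * s) * 2)) s := by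
      have := ((hasDerivAt_id s).const_mul 2).exp.const_sub 1
      simpa using this
    have h2 := (h1.log (hexp2 s hs).ne').const_mul (-(1 / 4))
    refine h2.congr_deriv ?_
    show _ = Real.exp (2 * s) / (2 * (1 - Real.exp (2 * s)))
    have := (hexp2 s hs).ne'
    field_simp
    ring
  have hP'd : ∀ s < (0 : ℝ), HasDerivAt P'
      (Real.exp (2 * s) / (1 - Real.exp (2 * s)) ^ 2) s := by
    intro s hs
    have h0 : HasDerivAt (fun s : ℝ => Real.exp (2 * s)) (Real.exp (2 * s) * 2) s := by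
      have := ((hasDerivAt_id s).const_mul 2).exp
      simpa using this
    have h1 : HasDerivAt (fun s : ℝ => 2 * (1 - Real.exp (2 * s)))
        (2 * (-(Real.exp (2 * s) * 2))) s := by
      have := (h0.const_sub 1).const_mul 2
      simpa using this
    have h2 := h0.div h1 (mul_ne_zero two_ne_zero (hexp2 s hs).ne')
    refine h2.congr_deriv ?_
    have := (hexp2 s hs).ne'
    field_simp
    ring
  have hmd : ∀ s < (0 : ℝ), HasDerivAt m (m' s) s := fun s hs =>
    hasDerivAt_mean (hU.of_le (by norm_num)) hs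
  have hm'd : ∀ s < (0 : ℝ), HasDerivAt m' (m'' s) s := fun s hs =>
    hasDerivAt_mean (contDiffOn_D1 hU 1) hs
  have hTd : ∀ s < (0 : ℝ), HasDerivAt (fun s => chr g (Real.exp s)) (A (Real.exp s)) s := by
    intro s hs
    have h1 := (chr_hasDerivAt hg (Real.exp_pos s) (hexp1 s hs)).comp s (Real.hasDerivAt_exp s)
    have h2 : (∫ ξ in ball (0 : ℂ) (Real.exp s), g ξ) / Real.exp s * Real.exp s =
        A (Real.exp s) := by
      rw [div_mul_cancel₀ _ (Real.exp_pos s).ne']
    rw [h2] at h1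
    exact h1
  have hAd : ∀ s < (0 : ℝ), HasDerivAt (fun s => A (Real.exp s))
      (Real.exp (2 * s) * circ g (Real.exp s)) s := by
    intro s hs
    have h1 := (area_hasDerivAt hg (Real.exp_pos s) (hexp1 s hs)).comp s (Real.hasDerivAt_exp s)
    have h2 : Real.exp s * circ g (Real.exp s) * Real.exp s =
        Real.exp (2 * s) * circ g (Real.exp s) := by
      rw [two_mul, Real.exp_add]; ring
    rw [h2] at h1
    exact h1
  set Q : ℝ → ℝ := fun s => C * chr g (Real.exp s) - 2 * π * c * P s - m s with hQ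
  set Q' : ℝ → ℝ := fun s => C * A (Real.exp s) - 2 * π * c * P' s - m' s with hQ'
  set Q'' : ℝ → ℝ := fun s => C * (Real.exp (2 * s) * circ g (Real.exp s)) -
    2 * π * c * (Real.exp (2 * s) / (1 - Real.exp (2 * s)) ^ 2) - m'' s with hQ''
  have hQd : ∀ s < (0 : ℝ), HasDerivAt Q (Q' s) s := fun s hs =>
    (((hTd s hs).const_mul C).sub ((hPd s hs).const_mul _)).sub (hmd s hs)
  have hQ'd : ∀ s < (0 : ℝ), HasDerivAt Q' (Q'' s) s := fun s hs =>
    (((hAd s hs).const_mul C).sub ((hP'd s hs).const_mul _)).sub (hm'd s hs)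
  have hQ''0 : ∀ s < (0 : ℝ), 0 ≤ Q'' s := by
    intro s hs
    have hmemH : ∀ θ : ℝ, ((s : ℂ) + θ * Complex.I) ∈ H := fun θ => (mem_H_iff s θ).2 hs
    have hre : ∀ θ : ℝ, ((s : ℂ) + θ * Complex.I).re = s := fun θ => by simp
    have hc1 : Continuous fun θ : ℝ => D2 U 1 (s + θ * Complex.I) :=
      (continuousOn_D2 hU 1).comp_continuous (by fun_prop) hmemH
    have hc2 : Continuous fun θ : ℝ => D2 U Complex.I (s + θ * Complex.I) :=
      (continuousOn_D2 hU Complex.I).comp_continuous (by fun_prop) hmemH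
    have hc3 : Continuous fun θ : ℝ => g (Complex.exp (s + θ * Complex.I)) :=
      hg.comp_continuous (by fun_prop) (fun θ => exp_mem_ball (hmemH θ))
    have hc4 : Continuous fun θ : ℝ =>
        C * (g (Complex.exp (s + θ * Complex.I)) * Real.exp (2 * s)) :=
      continuous_const.mul (hc3.mul continuous_const)
    have h1 : m'' s = ∫ θ in (-π)..π, Lap U (s + θ * Complex.I) := by
      have h2 : ∫ θ in (-π)..π, Lap U (s + θ * Complex.I) =
          (∫ θ in (-π)..π, D2 U 1 (s + θ * Complex.I)) +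
            ∫ θ in (-π)..π, D2 U Complex.I (s + θ * Complex.I) :=
        intervalIntegral.integral_add (hc1.intervalIntegrable _ _) (hc2.intervalIntegrable _ _)
      rw [h2, integral_D2_I hU hper hs, add_zero]
    have h3 : ∫ θ in (-π)..π, Lap U (s + θ * Complex.I) ≤
        ∫ θ in (-π)..π, (C * (g (Complex.exp (s + θ * Complex.I)) * Real.exp (2 * s)) -
          c * (Real.exp (2 * s) / (1 - Real.exp (2 * s)) ^ 2)) := by
      refine intervalIntegral.integral_mono_on (by linarith)
        ((hc1.add hc2).intervalIntegrable _ _)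
        ((hc4.sub continuous_const).intervalIntegrable _ _)
        fun θ _ => ?_
      have := hlap _ (hmemH θ)
      rw [hre] at this
      exact this
    have h4 : ∫ θ in (-π)..π, (C * (g (Complex.exp (s + θ * Complex.I)) * Real.exp (2 * s)) -
          c * (Real.exp (2 * s) / (1 - Real.exp (2 * s)) ^ 2)) =
        C * (Real.exp (2 * s) * circ g (Real.exp s)) -
          2 * π * c * (Real.exp (2 * s) / (1 - Real.exp (2 * s)) ^ 2) := by
      rw [intervalIntegral.integral_sub (hc4.intervalIntegrable _ _)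
        intervalIntegrable_const, intervalIntegral.integral_const_mul,
        intervalIntegral.integral_mul_const, circ_eq, intervalIntegral.integral_const,
        smul_eq_mul]
      ring
    rw [h4] at h3
    show 0 ≤ C * (Real.exp (2 * s) * circ g (Real.exp s)) -
      2 * π * c * (Real.exp (2 * s) / (1 - Real.exp (2 * s)) ^ 2) - m'' s
    rw [h1]
    linarith
  have hmono : MonotoneOn Q' (Iio 0) := by
    refine monotoneOn_of_deriv_nonneg (convex_Iio 0) ?_ ?_ ?_
    · intro s hs
      exact (hQ'd s hs).continuousAt.continuousWithinAt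
    · intro s hs
      rw [interior_Iio] at hs
      exact (hQ'd s hs).differentiableAt.differentiableWithinAt
    · intro s hs
      rw [interior_Iio] at hs
      rw [(hQ'd s hs).deriv]
      exact hQ''0 s hs
  have hA0 : ∀ s < (0 : ℝ), 0 ≤ A (Real.exp s) := fun s hs => area_nonneg hg0 (hexp1 s hs)
  have hTmono : MonotoneOn (fun s => chr g (Real.exp s)) (Iio 0) := by
    refine monotoneOn_of_deriv_nonneg (convex_Iio 0) ?_ ?_ ?_
    · intro s hs
      exact (hTd s hs).continuousAt.continuousWithinAt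
    · intro s hs
      rw [interior_Iio] at hs
      exact (hTd s hs).differentiableAt.differentiableWithinAt
    · intro s hs
      rw [interior_Iio] at hs
      rw [(hTd s hs).deriv]
      exact hA0 s hs
  have hP0 : ∀ s < (0 : ℝ), 0 ≤ P s := by
    intro s hs
    have h1 := hexp2 s hs
    have h2 : 1 - Real.exp (2 * s) ≤ 1 := by linarith [Real.exp_pos (2 * s)]
    have h3 := Real.log_nonpos h1.le h2
    show 0 ≤ -(1 / 4) * Real.log (1 - Real.exp (2 * s))
    linarith
  have hm0 : ∀ s < (0 : ℝ), 0 ≤ m s := fun s hs =>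
    intervalIntegral.integral_nonneg (by linarith) fun θ _ => hU0 _ ((mem_H_iff s θ).2 hs)
  have hB : ∀ s ≤ (-1 : ℝ), Q s ≤ C * chr g (Real.exp (-1)) := by
    intro s hs
    have hs0 : s < 0 := by linarith
    have h1 := hTmono (show s ∈ Iio 0 from hs0) (show (-1 : ℝ) ∈ Iio 0 by norm_num) hs
    have h2 := hP0 s hs0
    have h3 := hm0 s hs0
    have h4 : 0 ≤ 2 * π * c * P s := by positivity
    have h5 : C * chr g (Real.exp s) ≤ C * chr g (Real.exp (-1)) :=
      mul_le_mul_of_nonneg_left h1 hC.le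
    show C * chr g (Real.exp s) - 2 * π * c * P s - m s ≤ _
    linarith
  have hQ'0 := deriv_nonneg_of_bounded hQd hmono hB
  have hQmono : MonotoneOn Q (Iio 0) := by
    refine monotoneOn_of_deriv_nonneg (convex_Iio 0) ?_ ?_ ?_
    · intro s hs
      exact (hQd s hs).continuousAt.continuousWithinAt
    · intro s hs
      rw [interior_Iio] at hs
      exact (hQd s hs).differentiableAt.differentiableWithinAt
    · intro s hs
      rw [interior_Iio] at hs
      rw [(hQd s hs).deriv]
      exact hQ'0 s hs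
  -- conclusion
  set K := Q (-1) with hK
  -- for r close to 1: C * chr g r ≥ 2 π c P (log r) + K
  have hmain : ∀ r, Real.exp (-1) < r → r < 1 →
      2 * π * c * P (Real.log r) + K ≤ C * chr g r := by
    intro r hr1 hr2
    have hr0 : 0 < r := (Real.exp_pos _).trans hr1
    have hl0 : Real.log r < 0 := Real.log_neg hr0 hr2
    have hl1 : -1 ≤ Real.log r := by
      rw [Real.le_log_iff_exp_le hr0]; exact hr1.le
    have h1 := hQmono (show (-1 : ℝ) ∈ Iio 0 by norm_num) (show Real.log r ∈ Iio 0 from hl0) hl1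
    have h2 : Q (Real.log r) = C * chr g r - 2 * π * c * P (Real.log r) - m (Real.log r) := by
      show C * chr g (Real.exp (Real.log r)) - 2 * π * c * P (Real.log r) - m (Real.log r) = _
      rw [Real.exp_log hr0]
    have h3 := hm0 _ hl0
    rw [h2] at h1
    linarith
  have hPlow : ∀ r, Real.exp (-1) < r → r < 1 →
      (1 / 4) * (Real.log (1 / (1 - r)) - Real.log 2) ≤ P (Real.log r) := by
    intro r hr1 hr2
    have hr0 : 0 < r := (Real.exp_pos _).trans hr1
    show _ ≤ -(1 / 4) * Real.log (1 - Real.exp (2 * Real.log r))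
    have h1 : Real.exp (2 * Real.log r) = r * r := by
      rw [two_mul, Real.exp_add, Real.exp_log hr0]
    rw [h1, one_div, one_div, Real.log_inv]
    have h2 : (1 : ℝ) - r * r = (1 - r) * (1 + r) := by ring
    have h3 : Real.log (1 - r * r) ≤ Real.log (1 - r) + Real.log 2 := by
      rw [h2, Real.log_mul (by linarith) (by linarith)]
      have : Real.log (1 + r) ≤ Real.log 2 := Real.log_le_log (by linarith) (by linarith)
      linarith
    nlinarith
  -- choose r₀
  set a := 2 * π * c * (1 / 4) with ha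
  have ha0 : 0 < a := by positivity
  -- a (L - log 2) + K ≥ (a / 2) L as soon as L ≥ 2 (|K| + a log 2) / a
  set L0 := 2 * (|K| + a * Real.log 2) / a with hL0
  have hl2 : 0 < Real.log 2 := Real.log_pos one_lt_two
  have hL00 : 0 ≤ L0 := by positivity
  refine ⟨a / (2 * C), by positivity, max (Real.exp (-1)) (1 - Real.exp (-L0)), ?_, ?_⟩
  · apply max_lt
    · exact exp_lt_one' (by norm_num)
    · linarith [Real.exp_pos (-L0)]
  · intro r hr hr1
    have hra := (le_max_left _ _).trans_lt hr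
    have hrb := (le_max_right _ _).trans_lt hr
    have h1 := hmain r hra hr1
    have h2 := hPlow r hra hr1
    set L := Real.log (1 / (1 - r)) with hL
    have hLL : L0 ≤ L := by
      rw [hL, Real.le_log_iff_exp_le (by rw [one_div]; exact inv_pos.2 (by linarith))]
      rw [le_div_iff₀ (by linarith)]
      have h3 : 1 - r < Real.exp (-L0) := by linarith
      have h4 : Real.exp L0 * (1 - r) ≤ Real.exp L0 * Real.exp (-L0) :=
        mul_le_mul_of_nonneg_left h3.le (Real.exp_pos _).le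
      rw [← Real.exp_add, add_neg_cancel, Real.exp_zero] at h4
      exact h4
    have h5 : a * L0 = 2 * (|K| + a * Real.log 2) := by
      rw [hL0]; field_simp
    have h6 : a * L0 ≤ a * L := mul_le_mul_of_nonneg_left hLL ha0.le
    have h7 : -|K| ≤ K := neg_abs_le K
    have h8 : a * (L - Real.log 2) + K ≤ C * chr g r := by
      have : 2 * π * c * ((1 / 4) * (L - Real.log 2)) ≤ 2 * π * c * P (Real.log r) :=
        mul_le_mul_of_nonneg_left h2 (by positivity)
      have h9 : 2 * π * c * ((1 / 4) * (L - Real.log 2)) = a * (L - Real.log 2) := by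
        rw [ha]; ring
      linarith
    have h9 : a / 2 * L ≤ C * chr g r := by nlinarith
    have h10 : a / (2 * C) * L = (a / 2 * L) / C := by
      field_simp
    rw [h10, div_le_iff₀ hC]
    linarith

end Pool.Agent.Helper240.NevJ
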