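import Pool.Agent.Helper240.NevJensen

/-!
The auxiliary function `G (L) = log (1 + L₊³)` and the Laplacian of `G (-log |Y|²)` for a vector
valued holomorphic function `Y`.
-/

set_option autoImplicit false

open Set Metric Filter Topology
open scoped Real ComplexConjugate

namespace Pool.Agent.Helper240.NevJ

theorem hasDerivAt_posPow (n : ℕ) (x : ℝ) :
    HasDerivAt (fun x : ℝ => (max x 0) ^ (n + 2)) ((n + 2) * (max x 0) ^ (n + 1)) x := by
  rcases lt_trichotomy x 0 with hx | hx | hx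
  · have h1 : (fun x : ℝ => (max x 0) ^ (n + 2)) =ᶠ[𝓝 x] fun _ => 0 := by
      filter_upwards [Iio_mem_nhds hx] with y hy
      rw [max_eq_right (le_of_lt hy), zero_pow (by omega)]
    rw [max_eq_right hx.le, zero_pow (by omega), mul_zero]
    exact (hasDerivAt_const x (0 : ℝ)).congr_of_eventuallyEq h1
  · subst hx
    rw [max_self, zero_pow (by omega), mul_zero]
    rw [hasDerivAt_iff_isLittleO_nhds_zero]
    simp only [zero_add, max_self, smul_zero, sub_zero]
    rw [zero_pow (by omega)]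
    simp only [sub_zero]
    rw [Asymptotics.isLittleO_iff]
    intro c hc
    have h1 : ∀ᶠ h : ℝ in 𝓝 0, |h| ^ (n + 1) < c := by
      have : Tendsto (fun h : ℝ => |h| ^ (n + 1)) (𝓝 0) (𝓝 (|0| ^ (n + 1))) :=
        ((continuous_abs.pow (n + 1)).tendsto 0)
      rw [abs_zero, zero_pow (by omega)] at this
      exact this.eventually_lt_const hc
    filter_upwards [h1] with h hh
    rw [Real.norm_eq_abs, Real.norm_eq_abs, abs_pow]
    have h2 : |max h 0| ≤ |h| := by
      rw [abs_of_nonneg (le_max_right _ _)]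
      exact max_le (le_abs_self h) (abs_nonneg h)
    calc |max h 0| ^ (n + 2) ≤ |h| ^ (n + 2) := pow_le_pow_left₀ (abs_nonneg _) h2 _
      _ = |h| ^ (n + 1) * |h| := by ring
      _ ≤ c * |h| := mul_le_mul_of_nonneg_right hh.le (abs_nonneg _)
  · have h1 : (fun x : ℝ => (max x 0) ^ (n + 2)) =ᶠ[𝓝 x] fun y => y ^ (n + 2) := by
      filter_upwards [Ioi_mem_nhds hx] with y hy
      rw [max_eq_left (le_of_lt hy)]
    rw [max_eq_left hx.le]
    have := (hasDerivAt_pow (n + 2) x).congr_of_eventuallyEq h1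
    simpa using this

noncomputable def G (L : ℝ) : ℝ := Real.log (1 + (max L 0) ^ 3)
noncomputable def G1 (L : ℝ) : ℝ := 3 * (max L 0) ^ 2 / (1 + (max L 0) ^ 3)
noncomputable def G2 (L : ℝ) : ℝ :=
  (6 * (max L 0) - 3 * (max L 0) ^ 4) / (1 + (max L 0) ^ 3) ^ 2

theorem one_add_pos (L : ℝ) : 0 < 1 + (max L 0) ^ 3 := by
  have : 0 ≤ max L 0 := le_max_right _ _
  positivity

theorem hasDerivAt_G (L : ℝ) : HasDerivAt G (G1 L) L := by
  have h1 := ((hasDerivAt_posPow 1 L).const_add 1).log (one_add_pos L).ne'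
  refine h1.congr_deriv ?_
  unfold G1
  norm_num

theorem hasDerivAt_G1 (L : ℝ) : HasDerivAt G1 (G2 L) L := by
  have h1 := (hasDerivAt_posPow 1 L).const_add 1
  have h0 := (hasDerivAt_posPow 0 L).const_mul 3
  have h2 := h0.div h1 (one_add_pos L).ne'
  refine h2.congr_deriv ?_
  unfold G2
  have := (one_add_pos L).ne'
  congr 1
  norm_num
  ring

theorem continuous_G2 : Continuous G2 := by
  unfold G2
  refine Continuous.div (by fun_prop) (by fun_prop) fun x => ?_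
  exact pow_ne_zero _ (one_add_pos x).ne'

theorem continuous_G1 : Continuous G1 :=
  continuous_iff_continuousAt.2 fun x => (hasDerivAt_G1 x).continuousAt

theorem deriv_G : deriv G = G1 := funext fun x => (hasDerivAt_G x).deriv

theorem deriv_G1 : deriv G1 = G2 := funext fun x => (hasDerivAt_G1 x).deriv

theorem contDiff_G : ContDiff ℝ 2 G := by
  have h : ContDiff ℝ (1 + 1) G := by
    rw [contDiff_succ_iff_deriv]
    refine ⟨fun x => (hasDerivAt_G x).differentiableAt, by simp, ?_⟩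
    rw [deriv_G]
    have h0 : ContDiff ℝ (0 + 1) G1 := by
      rw [contDiff_succ_iff_deriv]
      refine ⟨fun x => (hasDerivAt_G1 x).differentiableAt, by simp, ?_⟩
      rw [deriv_G1, contDiff_zero]
      exact continuous_G2
    simpa using h0
  have h2 : (1 : WithTop ℕ∞) + 1 = 2 := one_add_one_eq_two
  rwa [h2] at h

theorem G_nonneg (L : ℝ) : 0 ≤ G L := by
  refine Real.log_nonneg ?_
  have : 0 ≤ max L 0 := le_max_right _ _
  have : 0 ≤ (max L 0) ^ 3 := by positivity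
  linarith

theorem G_eq_zero {L : ℝ} (h : L ≤ 0) : G L = 0 := by
  unfold G
  rw [max_eq_right h]
  norm_num

theorem G1_nonneg (L : ℝ) : 0 ≤ G1 L := by
  have : 0 ≤ max L 0 := le_max_right _ _
  unfold G1
  positivity

theorem G1_eq_zero {L : ℝ} (h : L ≤ 0) : G1 L = 0 := by
  unfold G1
  rw [max_eq_right h]
  norm_num

theorem G2_eq_zero {L : ℝ} (h : L ≤ 0) : G2 L = 0 := by
  unfold G2
  rw [max_eq_right h]
  norm_num

theorem G2_le (L : ℝ) : G2 L ≤ 6 := by
  unfold G2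
  set M := max L 0 with hM
  have h0 : 0 ≤ M := le_max_right _ _
  rw [div_le_iff₀ (by positivity)]
  -- 6 M - 3 M^4 ≤ 6 (1 + M^3)^2
  have h1 : 0 ≤ M ^ 3 := by positivity
  have h2 : 0 ≤ M ^ 4 := by positivity
  have h3 : M ≤ 1 + M ^ 3 := by nlinarith [sq_nonneg (M - 1), sq_nonneg M]
  nlinarith [mul_nonneg h1 h1]

theorem G2_le' {L : ℝ} (h : 4 ≤ L) : G2 L ≤ -(3 / 4) / L ^ 2 := by
  unfold G2
  rw [max_eq_left (by linarith)]
  have hL : 0 < L := by linarith
  rw [div_le_div_iff₀ (by positivity) (by positivity)]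
  -- (6 L - 3 L^4) L^2 ≤ -(3/4) (1 + L^3)^2
  have h1 : (64 : ℝ) ≤ L ^ 3 := by
    have : (4 : ℝ) ^ 3 ≤ L ^ 3 := pow_le_pow_left₀ (by norm_num) h 3
    linarith
  nlinarith [mul_nonneg (sub_nonneg.2 h1) (sub_nonneg.2 h1)]

theorem G1_ge' {L : ℝ} (h : 4 ≤ L) : 3 / 4 / L ^ 2 ≤ G1 L := by
  unfold G1
  rw [max_eq_left (by linarith)]
  have hL : 0 < L := by linarith
  rw [div_le_div_iff₀ (by positivity) (by positivity)]
  have h1 : (64 : ℝ) ≤ L ^ 3 := by
    have : (4 : ℝ) ^ 3 ≤ L ^ 3 := pow_le_pow_left₀ (by norm_num) h 3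
    linarith
  have h2 : L ^ 3 ≤ L ^ 4 := by
    have : L ^ 4 = L ^ 3 * L := by ring
    nlinarith
  nlinarith

/-- `K x = G (- log x)` -/
noncomputable def K (x : ℝ) : ℝ := G (-Real.log x)
noncomputable def K1 (x : ℝ) : ℝ := -(G1 (-Real.log x)) / x
noncomputable def K2 (x : ℝ) : ℝ := (G2 (-Real.log x) + G1 (-Real.log x)) / x ^ 2

theorem hasDerivAt_K {x : ℝ} (hx : 0 < x) : HasDerivAt K (K1 x) x := by
  have h1 := (hasDerivAt_G (-Real.log x)).comp x (Real.hasDerivAt_log hx.ne').neg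
  refine h1.congr_deriv ?_
  unfold K1
  ring

theorem hasDerivAt_K1 {x : ℝ} (hx : 0 < x) : HasDerivAt K1 (K2 x) x := by
  have h1 := (hasDerivAt_G1 (-Real.log x)).comp x (Real.hasDerivAt_log hx.ne').neg
  have h2 := h1.neg.div (hasDerivAt_id x) hx.ne'
  refine h2.congr_deriv ?_
  unfold K2
  simp only [id]
  have := hx.ne'
  simp only [Function.comp, Pi.neg_apply]
  field_simp
  ring

theorem contDiffAt_K {x : ℝ} (hx : 0 < x) : ContDiffAt ℝ 2 K x :=
  contDiff_G.contDiffAt.comp x (Real.contDiffAt_log.2 hx.ne').neg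

theorem D1_eq {V : ℂ → ℝ} {z v : ℂ} {d : ℝ} (hV : DifferentiableAt ℝ V z)
    (h : HasDerivAt (fun t : ℝ => V (z + t * v)) d 0) : D1 V v z = d :=
  (line_hasDerivAt hV 0 z (by simp)).unique h

section family

variable {n : ℕ} (Y : Fin n → ℂ → ℂ)

/-- `N = |Y|²` -/
noncomputable def NN (z : ℂ) : ℝ := ∑ j, ‖Y j z‖ ^ 2

/-- the Hermitian product `⟨Y', Y⟩` -/
noncomputable def SS (z : ℂ) : ℂ := ∑ j, deriv (Y j) z * conj (Y j z)

/-- `|Y'|²` -/
noncomputable def AA (z : ℂ) : ℝ := ∑ j, ‖deriv (Y j) z‖ ^ 2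

variable {Y}

theorem line_holo {f : ℂ → ℂ} {z v : ℂ} (hf : DifferentiableAt ℂ f z) :
    HasDerivAt (fun t : ℝ => f (z + t * v)) (deriv f z * v) 0 := by
  have h1 : HasDerivAt (fun t : ℝ => z + (t : ℂ) * v) v 0 := by
    have := ((Complex.ofRealCLM.hasDerivAt (x := 0)).mul_const v).const_add z
    simpa using this
  have h2 : HasDerivAt f (deriv f z) (z + ((0 : ℝ) : ℂ) * v) := by
    simpa using hf.hasDerivAt
  exact h2.comp (0 : ℝ) h1

theorem differentiableAt_NN {z : ℂ} (hY : ∀ j, DifferentiableAt ℂ (Y j) z) :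
    DifferentiableAt ℝ (NN Y) z := by
  unfold NN
  refine DifferentiableAt.fun_sum fun j _ => ?_
  exact ((hY j).restrictScalars ℝ).norm_sq ℝ

theorem line_NN {z v : ℂ} (hY : ∀ j, DifferentiableAt ℂ (Y j) z) :
    HasDerivAt (fun t : ℝ => NN Y (z + t * v)) (2 * (v * SS Y z).re) 0 := by
  unfold NN
  have h1 : ∀ j ∈ Finset.univ, HasDerivAt (fun t : ℝ => ‖Y j (z + t * v)‖ ^ 2)
      (2 * (v * (deriv (Y j) z * conj (Y j z))).re) 0 := by
    intro j _
    have h2 := (line_holo (v := v) (hY j)).norm_sq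
    refine h2.congr_deriv ?_
    rw [Complex.inner]
    congr 2
    simp only [Complex.ofReal_zero, zero_mul, add_zero]
    ring
  have h3 := HasDerivAt.fun_sum h1
  refine h3.congr_deriv ?_
  unfold SS
  rw [Finset.mul_sum, Complex.re_sum, Finset.mul_sum]

theorem differentiableAt_SS {z : ℂ} (hY : ∀ j, AnalyticAt ℂ (Y j) z) :
    DifferentiableAt ℝ (SS Y) z := by
  unfold SS
  refine DifferentiableAt.fun_sum fun j _ => ?_
  have h1 : DifferentiableAt ℝ (deriv (Y j)) z :=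
    ((hY j).deriv.differentiableAt).restrictScalars ℝ
  have h2 : DifferentiableAt ℝ (Y j) z := ((hY j).differentiableAt).restrictScalars ℝ
  exact h1.mul h2.star

theorem line_SS {z v : ℂ} (hY : ∀ j, AnalyticAt ℂ (Y j) z) :
    HasDerivAt (fun t : ℝ => SS Y (z + t * v))
      (∑ j, (deriv (deriv (Y j)) z * v * conj (Y j z) +
        deriv (Y j) z * conj (deriv (Y j) z * v))) 0 := by
  unfold SS
  refine HasDerivAt.fun_sum fun j _ => ?_
  have h1 := line_holo (v := v) (hY j).deriv.differentiableAt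
  have h2 := (line_holo (v := v) (hY j).differentiableAt).star
  have h3 := h1.mul h2
  refine h3.congr_deriv ?_
  simp

theorem continuousAt_NN {z : ℂ} (hY : ∀ j, DifferentiableAt ℂ (Y j) z) :
    ContinuousAt (NN Y) z := (differentiableAt_NN hY).continuousAt

theorem D1_KN {z : ℂ} (v : ℂ) (hY : ∀ j, DifferentiableAt ℂ (Y j) z) (hN : 0 < NN Y z) :
    D1 (fun z => K (NN Y z)) v z = K1 (NN Y z) * (2 * (v * SS Y z).re) := by
  have hd : DifferentiableAt ℝ (fun z => K (NN Y z)) z :=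
    (hasDerivAt_K hN).differentiableAt.comp z (differentiableAt_NN hY)
  refine D1_eq hd ?_
  have h1 : HasDerivAt K (K1 (NN Y z)) (NN Y (z + ((0 : ℝ) : ℂ) * v)) := by
    simpa using hasDerivAt_K hN
  exact HasDerivAt.comp (h₂ := K) (h := fun t : ℝ => NN Y (z + t * v)) (0 : ℝ) h1 (line_NN hY)

theorem D2_KN {w : ℂ} (v : ℂ) (hY : ∀ j, AnalyticAt ℂ (Y j) w) (hN : 0 < NN Y w) :
    D2 (fun z => K (NN Y z)) v w =
      K2 (NN Y w) * (2 * (v * SS Y w).re) ^ 2 +
      K1 (NN Y w) * (2 * (v * (∑ j, (deriv (deriv (Y j)) w * v * conj (Y j w) +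
        deriv (Y j) w * conj (deriv (Y j) w * v)))).re) := by
  have hev : ∀ᶠ z in 𝓝 w, (∀ j, AnalyticAt ℂ (Y j) z) ∧ 0 < NN Y z := by
    refine Filter.Eventually.and ?_ ?_
    · rw [Filter.eventually_all]
      exact fun j => (hY j).eventually_analyticAt
    · exact (continuousAt_NN fun j => (hY j).differentiableAt).eventually (lt_mem_nhds hN)
  have heq : D1 (fun z => K (NN Y z)) v =ᶠ[𝓝 w]
      fun z => K1 (NN Y z) * (2 * (v * SS Y z).re) := by
    filter_upwards [hev] with z hz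
    exact D1_KN v (fun j => (hz.1 j).differentiableAt) hz.2
  have h0 : D2 (fun z => K (NN Y z)) v w =
      D1 (fun z => K1 (NN Y z) * (2 * (v * SS Y z).re)) v w := by
    unfold D2
    rw [heq.fderiv_eq]
    rfl
  rw [h0]
  have hYd : ∀ j, DifferentiableAt ℂ (Y j) w := fun j => (hY j).differentiableAt
  have hd1 : DifferentiableAt ℝ (fun z => K1 (NN Y z)) w :=
    (hasDerivAt_K1 hN).differentiableAt.comp w (differentiableAt_NN hYd)
  have hd2 : DifferentiableAt ℝ (fun z => (v * SS Y z).re) w := by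
    have h1 : DifferentiableAt ℝ (fun z => v * SS Y z) w :=
      (differentiableAt_const v).mul (differentiableAt_SS hY)
    exact Complex.reCLM.differentiableAt.comp w h1
  refine D1_eq (hd1.mul (hd2.const_mul 2)) ?_
  have e0 : w + ((0 : ℝ) : ℂ) * v = w := by simp
  have h1 : HasDerivAt K1 (K2 (NN Y w)) (NN Y (w + ((0 : ℝ) : ℂ) * v)) := by
    rw [e0]; exact hasDerivAt_K1 hN
  have h2 := HasDerivAt.comp (h₂ := K1) (h := fun t : ℝ => NN Y (w + t * v)) (0 : ℝ) h1
    (line_NN (v := v) hYd)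
  have h3 : HasDerivAt (fun t : ℝ => (v * SS Y (w + t * v)).re)
      ((v * (∑ j, (deriv (deriv (Y j)) w * v * conj (Y j w) +
        deriv (Y j) w * conj (deriv (Y j) w * v)))).re) 0 := by
    have h4 := (line_SS (v := v) hY).const_mul v
    exact (Complex.reCLM.hasFDerivAt.comp_hasDerivAt (0 : ℝ) h4)
  have h5 := h2.mul (h3.const_mul 2)
  refine h5.congr_deriv ?_
  simp only [Function.comp, e0]
  ring

theorem Lap_KN {w : ℂ} (hY : ∀ j, AnalyticAt ℂ (Y j) w) (hN : 0 < NN Y w) :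
    Lap (fun z => K (NN Y z)) w =
      4 * K2 (NN Y w) * ‖SS Y w‖ ^ 2 + 4 * K1 (NN Y w) * AA Y w := by
  unfold Lap
  rw [D2_KN 1 hY hN, D2_KN Complex.I hY hN]
  set T : ℂ := ∑ j, deriv (deriv (Y j)) w * conj (Y j w) with hT
  have hA : (∑ j, deriv (Y j) w * conj (deriv (Y j) w)) = ((AA Y w : ℝ) : ℂ) := by
    unfold AA
    push_cast
    refine Finset.sum_congr rfl fun j _ => ?_
    rw [Complex.mul_conj, Complex.normSq_eq_norm_sq]
    push_cast
    rfl
  have h1 : (∑ j, (deriv (deriv (Y j)) w * 1 * conj (Y j w) +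
        deriv (Y j) w * conj (deriv (Y j) w * 1))) = T + (AA Y w : ℝ) := by
    rw [← hA, hT, ← Finset.sum_add_distrib]
    refine Finset.sum_congr rfl fun j _ => ?_
    simp
  have h2 : (∑ j, (deriv (deriv (Y j)) w * Complex.I * conj (Y j w) +
        deriv (Y j) w * conj (deriv (Y j) w * Complex.I))) =
        Complex.I * T - Complex.I * (AA Y w : ℝ) := by
    rw [← hA, hT, Finset.mul_sum, Finset.mul_sum, ← Finset.sum_sub_distrib]
    refine Finset.sum_congr rfl fun j _ => ?_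
    rw [map_mul, Complex.conj_I]
    ring
  rw [h1, h2]
  have h3 : Complex.I * (Complex.I * T - Complex.I * ((AA Y w : ℝ) : ℂ)) =
      ((AA Y w : ℝ) : ℂ) - T := by
    have := Complex.I_mul_I
    linear_combination (T - ((AA Y w : ℝ) : ℂ)) * this
  rw [h3]
  have h4 : ‖SS Y w‖ ^ 2 = (SS Y w).re ^ 2 + (SS Y w).im ^ 2 := by
    rw [← Complex.normSq_eq_norm_sq, Complex.normSq_apply]
    ring
  rw [h4]
  simp only [one_mul, Complex.add_re, Complex.sub_re, Complex.ofReal_re, Complex.mul_re,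
    Complex.I_re, Complex.I_im, zero_mul, zero_sub]
  ring

theorem SS_le (w : ℂ) : ‖SS Y w‖ ^ 2 ≤ AA Y w * NN Y w := by
  unfold SS AA NN
  have h1 : ‖∑ j, deriv (Y j) w * conj (Y j w)‖ ≤ ∑ j, ‖deriv (Y j) w‖ * ‖Y j w‖ := by
    refine (norm_sum_le _ _).trans (le_of_eq ?_)
    refine Finset.sum_congr rfl fun j _ => ?_
    rw [norm_mul, Complex.norm_conj]
  calc ‖∑ j, deriv (Y j) w * conj (Y j w)‖ ^ 2
      ≤ (∑ j, ‖deriv (Y j) w‖ * ‖Y j w‖) ^ 2 := pow_le_pow_left₀ (norm_nonneg _) h1 2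
    _ ≤ _ := Finset.sum_mul_sq_le_sq_mul_sq _ _ _

theorem contDiffAt_KN {w : ℂ} (hY : ∀ j, AnalyticAt ℂ (Y j) w) (hN : 0 < NN Y w) :
    ContDiffAt ℝ 2 (fun z => K (NN Y z)) w := by
  have h1 : ContDiffAt ℝ 2 (NN Y) w := by
    unfold NN
    refine ContDiffAt.sum fun j _ => ?_
    exact ((hY j).contDiffAt.restrict_scalars ℝ).norm_sq ℝ
  exact (contDiffAt_K hN).comp w h1

theorem Lap_KN_zero {w : ℂ} (hY : ∀ j, AnalyticAt ℂ (Y j) w) (hN : 1 ≤ NN Y w) :
    Lap (fun z => K (NN Y z)) w = 0 := by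
  rw [Lap_KN hY (by linarith)]
  have h1 : -Real.log (NN Y w) ≤ 0 := by
    have := Real.log_nonneg hN
    linarith
  unfold K1 K2
  rw [G1_eq_zero h1, G2_eq_zero h1]
  simp

theorem AA_nonneg (w : ℂ) : 0 ≤ AA Y w := Finset.sum_nonneg fun j _ => by positivity

theorem Lap_KN_form {w : ℂ} (hY : ∀ j, AnalyticAt ℂ (Y j) w) (hN : 0 < NN Y w) :
    Lap (fun z => K (NN Y z)) w =
      4 * G2 (-Real.log (NN Y w)) * (‖SS Y w‖ ^ 2 / NN Y w ^ 2) -
      4 * G1 (-Real.log (NN Y w)) * (AA Y w / NN Y w - ‖SS Y w‖ ^ 2 / NN Y w ^ 2) := by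
  rw [Lap_KN hY hN]
  unfold K1 K2
  have := hN.ne'
  field_simp
  ring

theorem Lap_KN_le {w : ℂ} (hY : ∀ j, AnalyticAt ℂ (Y j) w) (hN : 0 < NN Y w) :
    Lap (fun z => K (NN Y z)) w ≤ 24 * (AA Y w / NN Y w) := by
  rw [Lap_KN_form hY hN]
  set B := ‖SS Y w‖ ^ 2 / NN Y w ^ 2 with hB
  set A := AA Y w / NN Y w with hA
  have hB0 : 0 ≤ B := by positivity
  have hBA : B ≤ A := by
    rw [hB, hA, div_le_div_iff₀ (by positivity) hN]
    have := SS_le (Y := Y) w
    nlinarith [hN]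
  have h1 := G1_nonneg (-Real.log (NN Y w))
  have h2 := G2_le (-Real.log (NN Y w))
  nlinarith [mul_nonneg h1 (sub_nonneg.2 hBA), mul_nonneg (sub_nonneg.2 h2) hB0]

theorem Lap_KN_le' {w : ℂ} (hY : ∀ j, AnalyticAt ℂ (Y j) w) (hN : 0 < NN Y w)
    (hL : 4 ≤ -Real.log (NN Y w)) :
    Lap (fun z => K (NN Y z)) w ≤ -3 * (AA Y w / NN Y w) / (-Real.log (NN Y w)) ^ 2 := by
  rw [Lap_KN_form hY hN]
  set B := ‖SS Y w‖ ^ 2 / NN Y w ^ 2 with hB
  set A := AA Y w / NN Y w with hA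
  set L := -Real.log (NN Y w) with hLdef
  have hB0 : 0 ≤ B := by positivity
  have hBA : B ≤ A := by
    rw [hB, hA, div_le_div_iff₀ (by positivity) hN]
    have := SS_le (Y := Y) w
    nlinarith [hN]
  have h1 := G1_ge' hL
  have h2 := G2_le' hL
  have hL0 : 0 < L := by linarith
  have h3 : -(3 / 4) / L ^ 2 = -(3 / 4 / L ^ 2) := by ring
  rw [h3] at h2
  have h4 : -3 * A / L ^ 2 = -4 * (3 / 4 / L ^ 2) * B - 4 * (3 / 4 / L ^ 2) * (A - B) := by
    ring
  rw [h4]
  nlinarith [mul_le_mul_of_nonneg_right h2 hB0,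
    mul_le_mul_of_nonneg_right h1 (sub_nonneg.2 hBA)]

end family

theorem Lap_congr {U V : ℂ → ℝ} {w : ℂ} (h : U =ᶠ[𝓝 w] V) : Lap U w = Lap V w := by
  have h1 : ∀ v, D1 U v =ᶠ[𝓝 w] D1 V v := by
    intro v
    filter_upwards [h.eventually_nhds] with z hz
    unfold D1
    rw [Filter.EventuallyEq.fderiv_eq hz]
  unfold Lap D2
  rw [(h1 1).fderiv_eq, (h1 Complex.I).fderiv_eq]

theorem contDiffAt_D1 {U : ℂ → ℝ} {w : ℂ} (hU : ContDiffAt ℝ 2 U w) (v : ℂ) :
    ContDiffAt ℝ 1 (D1 U v) w := by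
  have h2 : ContDiffAt ℝ 1 (fderiv ℝ U) w := hU.fderiv_right (by norm_num)
  exact h2.clm_apply contDiffAt_const

theorem eventually_diff {U : ℂ → ℝ} {w : ℂ} (hU : ContDiffAt ℝ 2 U w) :
    ∀ᶠ z in 𝓝 w, DifferentiableAt ℝ U z := by
  have h1 : ContDiffAt ℝ 1 U w := hU.of_le (by norm_num)
  have h2 := h1.eventually (by simp)
  filter_upwards [h2] with z hz
  exact hz.differentiableAt (by norm_num)

theorem Lap_const_mul {U : ℂ → ℝ} {w : ℂ} (hU : ContDiffAt ℝ 2 U w) (c : ℝ) :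
    Lap (fun z => c * U z) w = c * Lap U w := by
  have h1 : ∀ v, D1 (fun z => c * U z) v =ᶠ[𝓝 w] fun z => c * D1 U v z := by
    intro v
    filter_upwards [eventually_diff hU] with z hz
    unfold D1
    rw [fderiv_const_mul hz]
    rfl
  have h2 : ∀ v, D2 (fun z => c * U z) v w = c * D2 U v w := by
    intro v
    unfold D2
    rw [(h1 v).fderiv_eq, fderiv_const_mul
      ((contDiffAt_D1 hU v).differentiableAt (by norm_num))]
    rfl
  unfold Lap
  rw [h2, h2]
  ring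

theorem Lap_add {U V : ℂ → ℝ} {w : ℂ} (hU : ContDiffAt ℝ 2 U w) (hV : ContDiffAt ℝ 2 V w) :
    Lap (fun z => U z + V z) w = Lap U w + Lap V w := by
  have h1 : ∀ v, D1 (fun z => U z + V z) v =ᶠ[𝓝 w] fun z => D1 U v z + D1 V v z := by
    intro v
    filter_upwards [eventually_diff hU, eventually_diff hV] with z hz hz'
    unfold D1
    rw [fderiv_fun_add hz hz']
    rfl
  have h2 : ∀ v, D2 (fun z => U z + V z) v w = D2 U v w + D2 V v w := by
    intro v
    unfold D2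
    rw [(h1 v).fderiv_eq, fderiv_fun_add
      ((contDiffAt_D1 hU v).differentiableAt (by norm_num))
      ((contDiffAt_D1 hV v).differentiableAt (by norm_num))]
    rfl
  unfold Lap
  rw [h2, h2]
  ring

theorem Lap_zero (w : ℂ) : Lap (fun _ => 0) w = 0 := by
  have h : ∀ v, D1 (fun _ => (0 : ℝ)) v = fun _ => 0 := by
    intro v
    funext z
    unfold D1
    simp
  unfold Lap D2
  rw [h, h]
  simp

theorem Lap_sum {ι : Type*} (s : Finset ι) {U : ι → ℂ → ℝ} {w : ℂ}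
    (hU : ∀ i ∈ s, ContDiffAt ℝ 2 (U i) w) :
    Lap (fun z => ∑ i ∈ s, U i z) w = ∑ i ∈ s, Lap (U i) w := by
  classical
  induction s using Finset.induction_on with
  | empty => simpa using Lap_zero w
  | insert a s ha ih =>
    have h1 : ∀ i ∈ s, ContDiffAt ℝ 2 (U i) w := fun i hi => hU i (Finset.mem_insert_of_mem hi)
    simp only [Finset.sum_insert ha]
    rw [Lap_add (hU a (Finset.mem_insert_self a s)) (ContDiffAt.sum h1), ih h1]

end Pool.Agent.Helper240.NevJ
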