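import Pool.Agent.Helper240.NevLift

/-!
The Hermitian form in a chart.
-/

set_option autoImplicit false

open Set Metric Filter Topology
open scoped Manifold ComplexConjugate

namespace Pool.Agent.Helper240.Nev

variable {E M : Type*} [NormedAddCommGroup E] [NormedSpace ℂ E] [TopologicalSpace M]
  [ChartedSpace E M] [IsManifold 𝓘(ℂ, E) 1 M] (ω : PosForm E M)

/-- the Hermitian form read in the chart `e` -/
noncomputable def Qe (e : OpenPartialHomeomorph M E) (y η : E) : ℝ :=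
  qf ω (e.symm y) (mfderiv 𝓘(ℂ, E) 𝓘(ℂ, E) e.symm y η)

theorem continuousOn_Qe {e : OpenPartialHomeomorph M E}
    (he : e ∈ IsManifold.maximalAtlas 𝓘(ℂ, E) 1 M) :
    ContinuousOn (fun p : E × E => Qe ω e p.1 p.2) (e.target ×ˢ univ) := by
  have h1 := (contMDiffOn_symm_of_mem_maximalAtlas he).continuousOn_tangentMapWithin le_rfl
    e.open_target.uniqueMDiffOn
  have h2 : Continuous fun p : E × E => (tangentBundleModelSpaceHomeomorph 𝓘(ℂ, E)).symm p :=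
    (tangentBundleModelSpaceHomeomorph 𝓘(ℂ, E)).symm.continuous
  have h3 := h1.comp h2.continuousOn (s := e.target ×ˢ univ) (fun p hp => hp.1)
  have h4 := ω.cont.comp_continuousOn h3
  refine h4.congr fun p hp => ?_
  show qf ω (e.symm p.1) (mfderiv 𝓘(ℂ, E) 𝓘(ℂ, E) e.symm p.1 p.2) =
    qf ω (e.symm p.1) (mfderivWithin 𝓘(ℂ, E) 𝓘(ℂ, E) e.symm e.target p.1 p.2)
  rw [mfderivWithin_of_isOpen e.open_target hp.1]

theorem Qe_smul (e : OpenPartialHomeomorph M E) (y η : E) (c : ℂ) :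
    Qe ω e y (c • η) = ‖c‖ ^ 2 * Qe ω e y η := by
  unfold Qe
  have h : (mfderiv 𝓘(ℂ, E) 𝓘(ℂ, E) e.symm y (c • η) : E) =
      c • (mfderiv 𝓘(ℂ, E) 𝓘(ℂ, E) e.symm y η : E) :=
    (mfderiv 𝓘(ℂ, E) 𝓘(ℂ, E) e.symm y).map_smul c η
  rw [show qf ω (e.symm y) (mfderiv 𝓘(ℂ, E) 𝓘(ℂ, E) e.symm y (c • η) : E) =
    qf ω (e.symm y) (c • (mfderiv 𝓘(ℂ, E) 𝓘(ℂ, E) e.symm y η : E)) from congrArg _ h]
  exact qf_smul ω _ _ _

theorem Qe_pos {e : OpenPartialHomeomorph M E}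
    (he : e ∈ IsManifold.maximalAtlas 𝓘(ℂ, E) 1 M) {y : E} (hy : y ∈ e.target) {η : E}
    (hη : η ≠ 0) : 0 < Qe ω e y η := by
  refine qf_pos ω _ ?_
  intro h0
  apply hη
  have hsrc : e.symm y ∈ e.source := e.map_target hy
  have h1 : MDifferentiableAt 𝓘(ℂ, E) 𝓘(ℂ, E) e (e.symm y) := chart_mdiff ⟨he, hsrc⟩
  have h2 : mfderiv 𝓘(ℂ, E) 𝓘(ℂ, E) (e ∘ e.symm) y =
      (mfderiv 𝓘(ℂ, E) 𝓘(ℂ, E) e (e.symm y)).comp (mfderiv 𝓘(ℂ, E) 𝓘(ℂ, E) e.symm y) :=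
    mfderiv_comp y h1 (chart_symm_mdiff he hy)
  have h3 : (e ∘ e.symm) =ᶠ[𝓝 y] id := by
    filter_upwards [e.open_target.mem_nhds hy] with z hz
    exact e.right_inv hz
  have h4 : mfderiv 𝓘(ℂ, E) 𝓘(ℂ, E) (e ∘ e.symm) y = mfderiv 𝓘(ℂ, E) 𝓘(ℂ, E) (id : E → E) y :=
    h3.mfderiv_eq
  rw [h2, mfderiv_id] at h4
  have h5 := congrArg (fun L : E →L[ℂ] E => L η) h4
  have h7 : (mfderiv 𝓘(ℂ, E) 𝓘(ℂ, E) e (e.symm y))
      (mfderiv 𝓘(ℂ, E) 𝓘(ℂ, E) e.symm y η) = η := h5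
  rw [← h7]
  have h8 : (mfderiv 𝓘(ℂ, E) 𝓘(ℂ, E) e.symm y η : TangentSpace 𝓘(ℂ, E) (e.symm y)) = 0 := h0
  rw [h8]
  exact map_zero _

theorem pullback_chart {e : OpenPartialHomeomorph M E} {ψ : ℂ → M} {ξ : ℂ}
    (hψ : MDifferentiableAt 𝓘(ℂ, ℂ) 𝓘(ℂ, E) ψ ξ) (he : IsHolChartAt e (ψ ξ)) :
    pullback ω ψ ξ = Qe ω e (e (ψ ξ)) (deriv (fun z => e (ψ z)) ξ) := by
  rw [(hasDerivAt_chart hψ he).deriv, pullback_eq]
  unfold Qe
  set η : E := chartDeriv e (ψ ξ) (discDeriv ψ ξ 1) with hη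
  have h1 : MDifferentiableAt 𝓘(ℂ, E) 𝓘(ℂ, E) e.symm (e (ψ ξ)) :=
    chart_symm_mdiff he.1 (e.map_source he.2)
  have h2 : mfderiv 𝓘(ℂ, E) 𝓘(ℂ, E) (e.symm ∘ e) (ψ ξ) =
      (mfderiv 𝓘(ℂ, E) 𝓘(ℂ, E) e.symm (e (ψ ξ))).comp
        (mfderiv 𝓘(ℂ, E) 𝓘(ℂ, E) e (ψ ξ)) :=
    mfderiv_comp (ψ ξ) h1 (chart_mdiff he)
  have h3 : (e.symm ∘ e) =ᶠ[𝓝 (ψ ξ)] id := by
    filter_upwards [e.open_source.mem_nhds he.2] with y hy
    exact e.left_inv hy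
  have h4 : mfderiv 𝓘(ℂ, E) 𝓘(ℂ, E) (e.symm ∘ e) (ψ ξ) =
      mfderiv 𝓘(ℂ, E) 𝓘(ℂ, E) (id : M → M) (ψ ξ) := h3.mfderiv_eq
  rw [h2, mfderiv_id] at h4
  have h5 := congrArg (fun L : E →L[ℂ] E => L (discDeriv (E := E) ψ ξ 1 : E)) h4
  have h7 : ((mfderiv 𝓘(ℂ, E) 𝓘(ℂ, E) e.symm (e (ψ ξ))) η : E) =
      (discDeriv (E := E) ψ ξ 1 : E) := h5
  rw [show qf ω (e.symm (e (ψ ξ))) ((mfderiv 𝓘(ℂ, E) 𝓘(ℂ, E) e.symm (e (ψ ξ))) η : E) =
      qf ω (e.symm (e (ψ ξ))) (discDeriv (E := E) ψ ξ 1 : E) from congrArg _ h7,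
    e.left_inv he.2]

/-- On a compact set of a chart, the Hermitian form is bounded below by the norm of the chart. -/
theorem exists_Qe_ge [FiniteDimensional ℂ E] {e : OpenPartialHomeomorph M E}
    (he : e ∈ IsManifold.maximalAtlas 𝓘(ℂ, E) 1 M) {S : Set E} (hS : IsCompact S)
    (hSt : S ⊆ e.target) : ∃ c > 0, ∀ y ∈ S, ∀ η : E, c * ‖η‖ ^ 2 ≤ Qe ω e y η := by
  have : ProperSpace E := FiniteDimensional.proper ℂ E
  have hK : IsCompact (S ×ˢ sphere (0 : E) 1) := hS.prod (isCompact_sphere 0 1)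
  have hc : ContinuousOn (fun p : E × E => Qe ω e p.1 p.2) (S ×ˢ sphere (0 : E) 1) :=
    (continuousOn_Qe ω he).mono (prod_mono hSt (subset_univ _))
  have hpos : ∀ p ∈ S ×ˢ sphere (0 : E) 1, 0 < Qe ω e p.1 p.2 := by
    rintro ⟨y, η⟩ ⟨hy, hη⟩
    refine Qe_pos ω he (hSt hy) ?_
    rintro rfl
    simp at hη
  obtain ⟨c, hc0, hc1⟩ : ∃ c > 0, ∀ p ∈ S ×ˢ sphere (0 : E) 1, c ≤ Qe ω e p.1 p.2 := by
    rcases (S ×ˢ sphere (0 : E) 1).eq_empty_or_nonempty with h | h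
    · exact ⟨1, one_pos, fun p hp => by rw [h] at hp; exact absurd hp (notMem_empty p)⟩
    · obtain ⟨p, hp, hmin⟩ := hK.exists_isMinOn h hc
      exact ⟨_, hpos p hp, fun p' hp' => hmin hp'⟩
  refine ⟨c, hc0, fun y hy η => ?_⟩
  by_cases hη : η = 0
  · rw [hη, norm_zero]
    have := Qe_smul ω e y 0 0
    rw [zero_smul] at this
    rw [this]
    simp
  · have hn : ‖η‖ ≠ 0 := norm_ne_zero_iff.2 hη
    have h1 := hc1 (y, ((‖η‖⁻¹ : ℝ) : ℂ) • η) ⟨hy, by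
      rw [mem_sphere_zero_iff_norm, norm_smul, Complex.norm_real, norm_inv, norm_norm,
        inv_mul_cancel₀ hn]⟩
    have h2 := Qe_smul ω e y η ((‖η‖⁻¹ : ℝ) : ℂ)
    simp only at h1
    rw [h2, Complex.norm_real, norm_inv, norm_norm] at h1
    have h3 : 0 < ‖η‖ ^ 2 := by positivity
    calc c * ‖η‖ ^ 2 ≤ (‖η‖⁻¹ ^ 2 * Qe ω e y η) * ‖η‖ ^ 2 := by nlinarith
      _ = Qe ω e y η := by field_simp

omit [IsManifold 𝓘(ℂ, E) 1 M] in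
/-- the coordinates of a holomorphic disc are analytic -/
theorem analyticAt_chart {e : OpenPartialHomeomorph M E} [CompleteSpace E] {ψ : ℂ → M} {ξ : ℂ}
    (hψ : ∀ z ∈ ball (0 : ℂ) 1, MDifferentiableAt 𝓘(ℂ, ℂ) 𝓘(ℂ, E) ψ z)
    (hξ : ξ ∈ ball (0 : ℂ) 1) (he : IsHolChartAt e (ψ ξ)) :
    AnalyticAt ℂ (fun z => e (ψ z)) ξ := by
  rw [Complex.analyticAt_iff_eventually_differentiableAt]
  filter_upwards [isOpen_ball.mem_nhds hξ,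
    (hψ ξ hξ).continuousAt.preimage_mem_nhds (e.open_source.mem_nhds he.2)] with z hz hz'
  exact (hasDerivAt_chart (hψ z hz) ⟨he.1, hz'⟩).differentiableAt

theorem continuousOn_pullback [CompleteSpace E] {ψ : ℂ → M}
    (hψ : ∀ z ∈ ball (0 : ℂ) 1, MDifferentiableAt 𝓘(ℂ, ℂ) 𝓘(ℂ, E) ψ z) :
    ContinuousOn (pullback ω ψ) (ball 0 1) := by
  intro ξ hξ
  apply ContinuousAt.continuousWithinAt
  set e := chartAt E (ψ ξ) with he
  have heC : e ∈ IsManifold.maximalAtlas 𝓘(ℂ, E) 1 M := IsManifold.chart_mem_maximalAtlas _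
  have hsrc : ψ ξ ∈ e.source := mem_chart_source E (ψ ξ)
  have hana := analyticAt_chart hψ hξ (e := e) ⟨heC, hsrc⟩
  have h1 : pullback ω ψ =ᶠ[𝓝 ξ] fun z => Qe ω e (e (ψ z)) (deriv (fun z => e (ψ z)) z) := by
    filter_upwards [isOpen_ball.mem_nhds hξ,
      (hψ ξ hξ).continuousAt.preimage_mem_nhds (e.open_source.mem_nhds hsrc)] with z hz hz'
    exact pullback_chart ω (hψ z hz) ⟨heC, hz'⟩
  refine ContinuousAt.congr ?_ h1.symm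
  have h2 : ContinuousAt (fun p : E × E => Qe ω e p.1 p.2)
      (e (ψ ξ), deriv (fun z => e (ψ z)) ξ) :=
    (continuousOn_Qe ω heC).continuousAt
      ((e.open_target.prod isOpen_univ).mem_nhds ⟨e.map_source hsrc, mem_univ _⟩)
  exact ContinuousAt.comp (f := fun z => (e (ψ z), deriv (fun z => e (ψ z)) z))
    (g := fun p : E × E => Qe ω e p.1 p.2) h2
    (hana.continuousAt.prodMk hana.deriv.continuousAt)

end Pool.Agent.Helper240.Nev
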