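import Pool.Agent.Helper240.NevLap
import Pool.Agent.Helper240.NevMetric

/-!
The local estimates: flow boxes and linearizable singularities.
-/

set_option autoImplicit false

open Set Metric Filter Topology
open scoped Manifold ComplexConjugate Nat

namespace Pool.Agent.Helper240.Nev

open Pool.Agent.Helper240.NevJ

variable {E M : Type*} [NormedAddCommGroup E] [NormedSpace ℂ E] [TopologicalSpace M]
  [ChartedSpace E M] [IsManifold 𝓘(ℂ, E) 1 M] (ω : PosForm E M)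

/-- Near a regular point there are tangent discs through every point with derivative bounded
below. -/
theorem exists_disc_near {F : Foliation E M} {q₀ : M} (hq₀ : q₀ ∉ F.sing) :
    ∃ V ∈ 𝓝 q₀, ∃ c > 0, ∀ x ∈ V, ∃ ψ : ℂ → M, F.IsTangentDisc ψ ∧ ψ 0 = x ∧
      c ≤ pullback ω ψ 0 := by
  obtain ⟨e, ⟨heC, hsrc⟩, v, hv, hgen⟩ := F.flowBox q₀ hq₀
  obtain ⟨ρ, hρ, hball⟩ := Metric.isOpen_iff.1 e.open_target (e q₀) (e.map_source hsrc)
  have hvn : 0 < ‖v‖ := norm_pos_iff.2 hv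
  set c₀ : ℂ := ((ρ / 2 / ‖v‖ : ℝ) : ℂ) with hc₀
  have hc₀n : ‖c₀‖ = ρ / 2 / ‖v‖ := by
    rw [hc₀, Complex.norm_real, Real.norm_eq_abs, abs_of_pos (by positivity)]
  have hc₀ne : c₀ ≠ 0 := by
    rw [← norm_ne_zero_iff, hc₀n]; positivity
  set w : E := c₀ • v with hw
  have hwn : ‖w‖ = ρ / 2 := by
    rw [hw, norm_smul, hc₀n]; field_simp
  have hwne : w ≠ 0 := smul_ne_zero hc₀ne hv
  have hQpos : 0 < Qe ω e (e q₀) w := Qe_pos ω heC (e.map_source hsrc) hwne
  have hQc : ContinuousAt (fun y => Qe ω e y w) (e q₀) := by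
    have h2 : ContinuousAt (fun p : E × E => Qe ω e p.1 p.2) (e q₀, w) :=
      (continuousOn_Qe ω heC).continuousAt
        ((e.open_target.prod isOpen_univ).mem_nhds ⟨e.map_source hsrc, mem_univ _⟩)
    exact ContinuousAt.comp (f := fun y => (y, w))
      (g := fun p : E × E => Qe ω e p.1 p.2) h2
      (continuousAt_id.prodMk continuousAt_const)
  have hec : ContinuousAt e q₀ := e.continuousAt hsrc
  have hev1 : ∀ᶠ x in 𝓝 q₀, Qe ω e (e q₀) w / 2 < Qe ω e (e x) w :=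
    (ContinuousAt.comp (f := e) (g := fun y => Qe ω e y w) hQc hec).eventually
      (lt_mem_nhds (by simpa using half_lt_self hQpos))
  have hev2 : ∀ᶠ x in 𝓝 q₀, e x ∈ ball (e q₀) (ρ / 2) :=
    hec.eventually (ball_mem_nhds _ (by positivity))
  refine ⟨_, hev1.and (hev2.and (e.open_source.mem_nhds hsrc)), Qe ω e (e q₀) w / 2,
    by positivity, ?_⟩
  rintro x ⟨hx1, hx2, hx3⟩
  have hz : ∀ t ∈ ball (0 : ℂ) 1, HasDerivAt (fun t : ℂ => e x + t • w) (c₀ • v) t := by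
    intro t _
    have := ((hasDerivAt_id t).smul_const w).const_add (e x)
    simpa [hw] using this
  have htar : ∀ t ∈ ball (0 : ℂ) 1, e x + t • w ∈ e.target := by
    intro t ht
    rw [mem_ball_zero_iff] at ht
    rw [mem_ball, dist_eq_norm] at hx2
    apply hball
    rw [mem_ball, dist_eq_norm]
    have h1 : e x + t • w - e q₀ = (e x - e q₀) + t • w := by abel
    rw [h1]
    refine (norm_add_le _ _).trans_lt ?_
    rw [norm_smul, hwn]
    nlinarith
  have hdisc := isTangentDisc_of_curve heC hgen hz htar (fun t _ => hv)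
  refine ⟨_, hdisc, ?_, ?_⟩
  · show e.symm (e x + (0 : ℂ) • w) = x
    rw [zero_smul, add_zero, e.left_inv hx3]
  · have h0 : (0 : ℂ) ∈ ball (0 : ℂ) 1 := mem_ball_self one_pos
    have h1 := pullback_chart ω (e := e) (hdisc.mdiffAt h0) ⟨heC, e.map_target (htar 0 h0)⟩
    rw [h1]
    have h2 : (fun z : ℂ => e (e.symm (e x + z • w))) =ᶠ[𝓝 0] fun z : ℂ => e x + z • w := by
      filter_upwards [isOpen_ball.mem_nhds h0] with z hz
      exact e.right_inv (htar z hz)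
    rw [h2.deriv_eq, (hz 0 h0).deriv, ← hw]
    have h3 : e (e.symm (e x + (0 : ℂ) • w)) = e x := by
      rw [e.right_inv (htar 0 h0), zero_smul, add_zero]
    rw [h3]
    exact hx1.le

theorem norm_exp_le' [CompleteSpace E] (X : E →L[ℂ] E) : ‖NormedSpace.exp X‖ ≤ Real.exp ‖X‖ := by
  rw [NormedSpace.exp_eq_tsum ℂ, Real.exp_eq_exp_ℝ, NormedSpace.exp_eq_tsum ℝ]
  have h1 := NormedSpace.norm_expSeries_summable' (𝕂 := ℂ) X
  have h2 := NormedSpace.norm_expSeries_summable' (𝕂 := ℝ) (‖X‖ : ℝ)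
  refine (norm_tsum_le_tsum_norm h1).trans ?_
  refine h1.tsum_le_tsum (fun n => ?_) h2.of_norm
  rw [norm_smul, norm_inv, smul_eq_mul]
  have h3 : ‖(n ! : ℂ)‖ = (n ! : ℝ) := by simp
  rw [h3]
  refine mul_le_mul_of_nonneg_left ?_ (by positivity)
  rcases Nat.eq_zero_or_pos n with rfl | hn
  · rw [pow_zero, pow_zero]
    exact ContinuousLinearMap.norm_id_le
  · exact norm_pow_le' _ hn

omit [TopologicalSpace M] [ChartedSpace E M] [IsManifold 𝓘(ℂ, E) 1 M] in
theorem exp_neg_mul [CompleteSpace E] (X : E →L[ℂ] E) :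
    NormedSpace.exp (-X) * NormedSpace.exp X = 1 := by
  let _ : NormedAlgebra ℚ (E →L[ℂ] E) := NormedAlgebra.restrictScalars ℚ ℂ _
  have := NormedSpace.exp_add_of_commute (Commute.neg_left (Commute.refl X))
  rw [neg_add_cancel, NormedSpace.exp_zero] at this
  exact this.symm

omit [IsManifold 𝓘(ℂ, E) 1 M] in
/-- The tangent disc `t ↦ exp (t δ A) z` in a linearizing chart. -/
theorem exists_linear_disc [CompleteSpace E] {F : Foliation E M} {e : OpenPartialHomeomorph M E}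
    (heC : e ∈ IsManifold.maximalAtlas 𝓘(ℂ, E) 1 M) {A : E →L[ℂ] E}
    (hgen : GeneratedOn F.sing F.dir e A) {P B : E →L[ℂ] E} (hPA : ∀ z, P (A z) = 0)
    (hPB : ∀ z, P z + B (A z) = z) {zp : E} (hzp : A zp = 0) {R : ℝ}
    (hR : closedBall zp (3 * R) ⊆ e.target) {x : M} (hx : x ∈ e.source) (hAx : A (e x) ≠ 0)
    (hPx : ‖P (e x - zp)‖ ≤ R) {δ : ℝ} (hδ : 0 < δ)
    (hBx : ‖B‖ * (Real.exp (δ * ‖A‖) * ‖A (e x)‖) ≤ R) :
    ∃ ψ : ℂ → M, F.IsTangentDisc ψ ∧ ψ 0 = x ∧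
      HasDerivAt (fun t => e (ψ t)) ((δ : ℂ) • A (e x)) 0 := by
  set X : E →L[ℂ] E := (δ : ℂ) • A with hX
  set z : ℂ → E := fun t => NormedSpace.exp (t • X) (e x) with hz
  have hcomm : ∀ t : ℂ, X * NormedSpace.exp (t • X) = NormedSpace.exp (t • X) * X := by
    intro t
    have h1 := (hasDerivAt_exp_smul_const X t).unique (hasDerivAt_exp_smul_const' X t)
    exact h1.symm
  have hδ' : (δ : ℂ) ≠ 0 := by exact_mod_cast hδ.ne'
  have hcommA : ∀ t : ℂ, ∀ y, A (NormedSpace.exp (t • X) y) = NormedSpace.exp (t • X) (A y) := by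
    intro t y
    have h1 := congrArg (fun L : E →L[ℂ] E => L y) (hcomm t)
    have h2 : (δ : ℂ) • A (NormedSpace.exp (t • X) y) =
        NormedSpace.exp (t • X) ((δ : ℂ) • A y) := h1
    rw [map_smul] at h2
    exact smul_right_injective E hδ' h2
  have hder : ∀ t : ℂ, HasDerivAt z ((δ : ℂ) • A (z t)) t := by
    intro t
    have h1 := (hasDerivAt_exp_smul_const' X t).clm_apply (hasDerivAt_const t (e x))
    refine h1.congr_deriv ?_
    simp only [map_zero, add_zero]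
    rfl
  have hz0 : z 0 = e x := by
    show NormedSpace.exp ((0 : ℂ) • X) (e x) = e x
    rw [zero_smul, NormedSpace.exp_zero]
    rfl
  -- P is constant along the curve
  have hPz : ∀ t : ℂ, P (z t) = P (e x) := by
    intro t
    have h1 : ∀ s : ℂ, HasDerivAt (fun s => P (z s)) 0 s := by
      intro s
      have h2 := P.hasFDerivAt.comp_hasDerivAt s (hder s)
      refine h2.congr_deriv ?_
      rw [map_smul, hPA, smul_zero]
    have h3 := is_const_of_deriv_eq_zero (fun s => (h1 s).differentiableAt)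
      (fun s => (h1 s).deriv) t 0
    rw [hz0] at h3
    exact h3
  have hXn : ‖X‖ = δ * ‖A‖ := by
    rw [hX, norm_smul, Complex.norm_real, Real.norm_eq_abs, abs_of_pos hδ]
  have htar : ∀ t ∈ ball (0 : ℂ) 1, z t ∈ e.target := by
    intro t ht
    rw [mem_ball_zero_iff] at ht
    apply hR
    rw [mem_closedBall, dist_eq_norm]
    have h1 : z t - zp = P (e x - zp) + B (A (z t)) := by
      have h2 := hPB (z t - zp)
      rw [map_sub A, hzp, sub_zero, map_sub P, hPz, ← map_sub P] at h2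
      exact h2.symm
    rw [h1]
    have h3 : ‖A (z t)‖ ≤ Real.exp (δ * ‖A‖) * ‖A (e x)‖ := by
      rw [hz]
      simp only
      rw [hcommA]
      refine (ContinuousLinearMap.le_opNorm _ _).trans ?_
      refine mul_le_mul_of_nonneg_right ?_ (norm_nonneg _)
      refine (norm_exp_le' _).trans ?_
      rw [norm_smul, hXn]
      apply Real.exp_le_exp.2
      have : 0 ≤ δ * ‖A‖ := by positivity
      nlinarith
    have h4 : ‖B (A (z t))‖ ≤ R := by
      refine (B.le_opNorm _).trans ((mul_le_mul_of_nonneg_left h3 (norm_nonneg _)).trans hBx)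
    have hR0 : 0 ≤ R := (norm_nonneg _).trans h4
    calc ‖P (e x - zp) + B (A (z t))‖ ≤ ‖P (e x - zp)‖ + ‖B (A (z t))‖ := norm_add_le _ _
      _ ≤ R + R := add_le_add hPx h4
      _ ≤ 3 * R := by linarith
  have hne : ∀ t ∈ ball (0 : ℂ) 1, A (z t) ≠ 0 := by
    intro t _ h0
    apply hAx
    rw [hz] at h0
    simp only at h0
    rw [hcommA] at h0
    have h1 : NormedSpace.exp (-(t • X)) * NormedSpace.exp (t • X) = 1 := exp_neg_mul _
    have h2 := congrArg (fun L : E →L[ℂ] E => L (A (e x))) h1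
    have h3 : NormedSpace.exp (-(t • X)) (NormedSpace.exp (t • X) (A (e x))) = A (e x) := h2
    rw [h0, map_zero] at h3
    exact h3.symm
  have h0 : (0 : ℂ) ∈ ball (0 : ℂ) 1 := mem_ball_self one_pos
  refine ⟨fun t => e.symm (z t), isTangentDisc_of_curve heC hgen (fun t _ => hder t) htar hne,
    ?_, ?_⟩
  · show e.symm (z 0) = x
    rw [hz0, e.left_inv hx]
  · have h1 := hder 0
    rw [hz0] at h1
    refine h1.congr_of_eventuallyEq ?_
    filter_upwards [isOpen_ball.mem_nhds h0] with t ht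
    exact e.right_inv (htar t ht)

section algebra

variable (E)

omit [TopologicalSpace M] [ChartedSpace E M] [IsManifold 𝓘(ℂ, E) 1 M] in
theorem exists_coords [FiniteDimensional ℂ E] :
    ∃ (n : ℕ) (ℓ : Fin n → (E →L[ℂ] ℂ)) (a₁ a₂ : ℝ), 0 < a₁ ∧ 0 < a₂ ∧
      ∀ y : E, ‖y‖ ^ 2 ≤ a₁ * ∑ j, ‖ℓ j y‖ ^ 2 ∧ ∑ j, ‖ℓ j y‖ ^ 2 ≤ a₂ * ‖y‖ ^ 2 := by
  set n := Module.finrank ℂ E with hn
  let T : E ≃L[ℂ] (Fin n → ℂ) := (Module.finBasis ℂ E).equivFunL
  refine ⟨n, fun j => (ContinuousLinearMap.proj j).comp (T : E →L[ℂ] (Fin n → ℂ)),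
    ‖(T.symm : (Fin n → ℂ) →L[ℂ] E)‖ ^ 2 + 1, n * ‖(T : E →L[ℂ] (Fin n → ℂ))‖ ^ 2 + 1,
    by positivity, by positivity, fun y => ?_⟩
  have hℓ : ∀ j, ((ContinuousLinearMap.proj j).comp (T : E →L[ℂ] (Fin n → ℂ)) :
      E →L[ℂ] ℂ) y = T y j := fun j => rfl
  simp only [hℓ]
  constructor
  · have h1 : ‖T y‖ ^ 2 ≤ ∑ j, ‖T y j‖ ^ 2 := by
      have h2 : ‖T y‖ ≤ Real.sqrt (∑ j, ‖T y j‖ ^ 2) := by
        rw [pi_norm_le_iff_of_nonneg (Real.sqrt_nonneg _)]
        intro j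
        apply Real.le_sqrt_of_sq_le
        exact Finset.single_le_sum (f := fun j => ‖T y j‖ ^ 2) (fun i _ => by positivity)
          (Finset.mem_univ j)
      calc ‖T y‖ ^ 2 ≤ Real.sqrt (∑ j, ‖T y j‖ ^ 2) ^ 2 :=
            pow_le_pow_left₀ (norm_nonneg _) h2 2
        _ = _ := Real.sq_sqrt (Finset.sum_nonneg fun i _ => by positivity)
    have h3 : ‖y‖ ≤ ‖(T.symm : (Fin n → ℂ) →L[ℂ] E)‖ * ‖T y‖ := by
      have := (T.symm : (Fin n → ℂ) →L[ℂ] E).le_opNorm (T y)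
      simpa using this
    have h4 : ‖y‖ ^ 2 ≤ (‖(T.symm : (Fin n → ℂ) →L[ℂ] E)‖ * ‖T y‖) ^ 2 :=
      pow_le_pow_left₀ (norm_nonneg _) h3 2
    have h5 : 0 ≤ ‖(T.symm : (Fin n → ℂ) →L[ℂ] E)‖ ^ 2 := by positivity
    have h6 : 0 ≤ ∑ j, ‖T y j‖ ^ 2 := Finset.sum_nonneg fun i _ => by positivity
    nlinarith [mul_le_mul_of_nonneg_left h1 h5]
  · have h1 : ∀ j ∈ Finset.univ, ‖T y j‖ ^ 2 ≤ (‖(T : E →L[ℂ] (Fin n → ℂ))‖ * ‖y‖) ^ 2 := by
      intro j _
      refine pow_le_pow_left₀ (norm_nonneg _) ?_ 2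
      exact (norm_le_pi_norm (T y) j).trans ((T : E →L[ℂ] (Fin n → ℂ)).le_opNorm y)
    have h2 := Finset.sum_le_sum h1
    rw [Finset.sum_const, Finset.card_univ, Fintype.card_fin, nsmul_eq_mul] at h2
    refine h2.trans ?_
    have : 0 ≤ ‖y‖ ^ 2 := by positivity
    nlinarith

variable {E}

omit [TopologicalSpace M] [ChartedSpace E M] [IsManifold 𝓘(ℂ, E) 1 M] in
theorem exists_BP [FiniteDimensional ℂ E] (A : E →L[ℂ] E) (hA : ∀ z, A (A z) = 0 → A z = 0) :
    ∃ P B : E →L[ℂ] E, (∀ z, P (A z) = 0) ∧ (∀ z, P z + B (A z) = z) ∧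
      ∀ z, B (A (A z)) = A z := by
  obtain ⟨g, hg⟩ := LinearMap.exists_leftInverse_of_injective
    ((A : E →ₗ[ℂ] E).comp (LinearMap.range (A : E →ₗ[ℂ] E)).subtype) (by
      rw [LinearMap.ker_eq_bot']
      rintro ⟨y, z, rfl⟩ h
      apply Subtype.ext
      exact hA z h)
  set B : E →L[ℂ] E :=
    LinearMap.toContinuousLinearMap ((LinearMap.range (A : E →ₗ[ℂ] E)).subtype.comp g) with hB
  have hB' : ∀ z, B (A (A z)) = A z := by
    intro z
    have h1 := LinearMap.congr_fun hg ⟨A z, z, rfl⟩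
    have h2 := congrArg (LinearMap.range (A : E →ₗ[ℂ] E)).subtype h1
    exact h2
  refine ⟨ContinuousLinearMap.id ℂ E - B.comp A, B, fun z => ?_, fun z => ?_, hB'⟩
  · show A z - B (A (A z)) = 0
    rw [hB', sub_self]
  · show z - B (A z) + B (A z) = z
    rw [sub_add_cancel]

end algebra

/-- the cut-off -/
noncomputable def bump (s : ℝ) : ℝ := max 0 (min 1 (2 - s))

theorem bump_nonneg (s : ℝ) : 0 ≤ bump s := le_max_left _ _

theorem bump_le_one (s : ℝ) : bump s ≤ 1 := max_le zero_le_one (min_le_left _ _)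

theorem bump_eq_one {s : ℝ} (h : s ≤ 1) : bump s = 1 := by
  unfold bump
  rw [min_eq_left (by linarith), max_eq_right zero_le_one]

theorem lt_of_bump_ne_zero {s : ℝ} (h : bump s ≠ 0) : s < 2 := by
  by_contra hs
  push Not at hs
  apply h
  unfold bump
  rw [max_eq_left]
  exact (min_le_right _ _).trans (by linarith)

end Pool.Agent.Helper240.Nev
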