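import Pool.Agent.Helper240.NevBarrier

/-!
Logarithmic growth of the Nevanlinna characteristic of the leaves.
-/

set_option autoImplicit false

open Set Metric Filter Topology
open scoped Manifold ComplexConjugate

namespace Pool.Agent.Helper240.Nev

open Pool.Agent.Helper240.NevJ

variable {E M : Type*} [NormedAddCommGroup E] [NormedSpace ℂ E] [TopologicalSpace M]
  [ChartedSpace E M] [IsManifold 𝓘(ℂ, E) 1 M] (ω : PosForm E M)

theorem exists_linData [FiniteDimensional ℂ E] {F : Foliation E M} {p : M} (hp : p ∈ F.sing)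
    (hl : F.LinearizableAt p) :
    ∃ (e : OpenPartialHomeomorph M E) (zp : E) (R cQ : ℝ) (n : ℕ)
      (_ : LinData ω F e zp R cQ n), p ∈ e.source ∧ e p = zp := by
  obtain ⟨e, ⟨heC, hpe⟩, A₀, hA₀, hgen⟩ := hl
  set A : E →L[ℂ] E := LinearMap.toContinuousLinearMap A₀ with hA
  obtain ⟨P, B, hPA, hPB, hBA⟩ := exists_BP A hA₀
  obtain ⟨n, ℓ, a₁, a₂, ha₁, ha₂, hℓ⟩ := exists_coords E
  obtain ⟨ε, hε, hball⟩ := Metric.isOpen_iff.1 e.open_target (e p) (e.map_source hpe)
  have hR : closedBall (e p) (3 * (ε / 4)) ⊆ e.target :=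
    (closedBall_subset_ball (by linarith)).trans hball
  have : ProperSpace E := FiniteDimensional.proper ℂ E
  obtain ⟨cQ, hcQ, hQ⟩ := exists_Qe_ge ω heC (isCompact_closedBall (e p) (3 * (ε / 4))) hR
  have hB0 : 0 ≤ ‖B‖ ^ 2 * a₁ := by positivity
  refine ⟨e, e p, ε / 4, cQ, n, ⟨A, P, B, ℓ, a₁, a₂, (‖B‖ ^ 2 * a₁ + 1) / (ε / 4), heC, hgen,
    hPA, hPB, hBA, (hgen p hpe).1.1 hp, by positivity, hR, ha₁, ha₂, fun y => (hℓ y).1,
    fun y => (hℓ y).2, by positivity, ?_, hcQ, hQ⟩, hpe, rfl⟩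
  rw [div_mul_cancel₀ _ (by positivity : ε / 4 ≠ 0)]
  nlinarith

/-- The local barrier at a linearizable singularity -/
theorem exists_barrier [FiniteDimensional ℂ E] [T2Space M] {F : Foliation E M} {p : M}
    (hp : p ∈ F.sing) (hl : F.LinearizableAt p) :
    ∃ (W : M → ℝ) (N : Set M) (C c : ℝ), IsOpen N ∧ p ∈ N ∧ 0 < C ∧ 0 < c ∧ (∀ x, 0 ≤ W x) ∧
      ∀ φ : ℂ → M, F.IsUniversalCovering φ → ∀ w ∈ H,
        ContDiffAt ℝ 2 (fun z => W (φ (Complex.exp z))) w ∧
        Lap (fun z => W (φ (Complex.exp z))) w ≤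
          C * (pullback ω φ (Complex.exp w) * Real.exp (2 * w.re)) ∧
        (φ (Complex.exp w) ∈ N → Lap (fun z => W (φ (Complex.exp z))) w ≤
          -(c * (Real.exp (2 * w.re) / (1 - Real.exp (2 * w.re)) ^ 2))) := by
  obtain ⟨e, zp, R, cQ, n, D, hpe, hpz⟩ := exists_linData ω hp hl
  have : ProperSpace E := FiniteDimensional.proper ℂ E
  have : CompleteSpace E := FiniteDimensional.complete ℂ E
  have hcQ := D.hcQ
  have ha₁ := D.ha₁
  have ha₂ := D.ha₂
  have hκ0 := D.hκ0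
  refine ⟨D.W, D.inner, 24 * Real.exp 4 * (D.κ ^ 2 * D.a₂ * ‖D.A‖ ^ 2) / cQ + 1,
    3 / (4 * (‖D.A‖ + 1) ^ 2 * (D.a₁ * D.a₂ * (‖D.B‖ ^ 2 + 1))), D.isOpen_inner,
    D.mem_inner hpe hpz, by positivity, by positivity, D.W_nonneg, ?_⟩
  intro φ hφ w hw
  by_cases hsrc : φ (Complex.exp w) ∈ e.source
  · exact D.estimates hφ hw hsrc
  · -- outside of the chart
    set S : Set M := e.symm '' closedBall zp (3 * R) with hS
    have hSc : IsCompact S := (isCompact_closedBall zp (3 * R)).image_of_continuousOn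
      (e.continuousOn_symm.mono D.hR)
    have hSs : S ⊆ e.source := by
      rintro _ ⟨y, hy, rfl⟩
      exact e.map_target (D.hR hy)
    have hW : ∀ x, x ∉ S → D.W x = 0 := by
      intro x hx
      unfold LinData.W
      split_ifs with hxs
      · by_contra hne
        apply hx
        have h1 := left_ne_zero_of_mul hne
        have h2 := right_ne_zero_of_mul hne
        have h3 : D.Nf (e x) < 1 := by
          by_contra h4
          push Not at h4
          apply h2
          unfold K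
          exact G_eq_zero (by have := Real.log_nonneg h4; linarith)
        exact ⟨e x, D.mem_closedBall_of_ne h1 h3, e.left_inv hxs⟩
      · rfl
    have hcont : ContinuousAt (fun z => φ (Complex.exp z)) w :=
      ContinuousAt.comp (f := Complex.exp) (g := φ) (hφ.tangent.contAt (exp_mem_ball hw))
        Complex.continuous_exp.continuousAt
    have hzero : (fun z => D.W (φ (Complex.exp z))) =ᶠ[𝓝 w] fun _ => 0 := by
      have : (Sᶜ : Set M) ∈ 𝓝 (φ (Complex.exp w)) :=
        hSc.isClosed.isOpen_compl.mem_nhds fun h => hsrc (hSs h)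
      filter_upwards [hcont.preimage_mem_nhds this] with z hz
      exact hW _ hz
    have hL : Lap (fun z => D.W (φ (Complex.exp z))) w = 0 := by
      rw [Lap_congr hzero, Lap_zero]
    refine ⟨contDiffAt_const.congr_of_eventuallyEq hzero, ?_, fun h => absurd h.1 hsrc⟩
    rw [hL]
    have := pullback_nonneg ω φ (Complex.exp w)
    have := Real.exp_pos (2 * w.re)
    positivity

theorem exists_thick {F : Foliation E M} {S : Set M} (hS : IsCompact S)
    (hdis : ∀ x ∈ S, x ∉ F.sing) :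
    ∃ c > 0, ∀ x ∈ S, ∃ ψ : ℂ → M, F.IsTangentDisc ψ ∧ ψ 0 = x ∧ c ≤ pullback ω ψ 0 := by
  refine hS.induction_on (p := fun S => ∃ c > 0, ∀ x ∈ S, ∃ ψ : ℂ → M, F.IsTangentDisc ψ ∧
    ψ 0 = x ∧ c ≤ pullback ω ψ 0) ?_ ?_ ?_ ?_
  · exact ⟨1, one_pos, fun x hx => absurd hx (notMem_empty x)⟩
  · rintro s t hst ⟨c, hc, h⟩
    exact ⟨c, hc, fun x hx => h x (hst hx)⟩
  · rintro s t ⟨c, hc, h⟩ ⟨c', hc', h'⟩
    refine ⟨min c c', lt_min hc hc', ?_⟩
    rintro x (hx | hx)
    · obtain ⟨ψ, h1, h2, h3⟩ := h x hx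
      exact ⟨ψ, h1, h2, (min_le_left _ _).trans h3⟩
    · obtain ⟨ψ, h1, h2, h3⟩ := h' x hx
      exact ⟨ψ, h1, h2, (min_le_right _ _).trans h3⟩
  · intro x hx
    obtain ⟨V, hV, c, hc, h⟩ := exists_disc_near ω (hdis x hx)
    exact ⟨V, mem_nhdsWithin_of_mem_nhds hV, c, hc, h⟩

/-- Main theorem. -/
theorem main_growth [FiniteDimensional ℂ E] [T2Space M] [CompactSpace M] (F : Foliation E M)
    (hF : ∀ p ∈ F.sing, F.LinearizableAt p) (φ : ℂ → M) (hφ : F.IsUniversalCovering φ) :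
    ∃ c > 0, ∃ r₀ < 1, ∀ r, r₀ < r → r < 1 → c * Real.log (1 / (1 - r)) ≤ charT ω φ r := by
  classical
  have : CompleteSpace E := FiniteDimensional.complete ℂ E
  have hbar := fun p : F.sing => exists_barrier ω p.2 (hF p p.2)
  choose W N C c hNo hpN hC hc hW0 hest using hbar
  -- a finite cover of the singular set
  obtain ⟨t, ht⟩ := F.isClosed_sing.isCompact.elim_finite_subcover N hNo
    (fun p hp => mem_iUnion.2 ⟨⟨p, hp⟩, hpN ⟨p, hp⟩⟩)
  set O : Set M := ⋃ p ∈ t, N p with hO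
  have hOo : IsOpen O := isOpen_biUnion fun p _ => hNo p
  obtain ⟨cK, hcK, hthick⟩ := exists_thick ω (F := F) hOo.isClosed_compl.isCompact
    (fun x hx hs => hx (ht hs))
  set c₀ : ℝ := 1 / (∑ p ∈ t, 1 / c p + 1) with hc₀
  have hsum0 : 0 ≤ ∑ p ∈ t, 1 / c p := Finset.sum_nonneg fun p _ => by
    have := hc p; positivity
  have hc₀0 : 0 < c₀ := by positivity
  have hc₀le : ∀ p ∈ t, c₀ ≤ c p := by
    intro p hp
    have h1 : 1 / c p ≤ ∑ p ∈ t, 1 / c p :=
      Finset.single_le_sum (f := fun p => 1 / c p)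
        (fun q _ => by have := hc q; positivity) hp
    have h2 := hc p
    rw [hc₀, div_le_iff₀ (by positivity)]
    have h3 : 1 = c p * (1 / c p) := by field_simp
    nlinarith
  set C₀ : ℝ := ∑ p ∈ t, C p with hC₀
  have hC₀0 : 0 ≤ C₀ := Finset.sum_nonneg fun p _ => (hC p).le
  set U : ℂ → ℝ := fun w => ∑ p ∈ t, W p (φ (Complex.exp w)) with hU
  set g : ℂ → ℝ := pullback ω φ with hg
  have hg0 : ∀ z, 0 ≤ g z := fun z => pullback_nonneg ω φ z
  have hUc : ContDiffOn ℝ 2 U H := by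
    intro w hw
    exact (ContDiffAt.sum fun p _ => (hest p φ hφ w hw).1).contDiffWithinAt
  have hper : ∀ w, U (w + 2 * Real.pi * Complex.I) = U w := by
    intro w
    show ∑ p ∈ t, W p (φ (Complex.exp (w + 2 * Real.pi * Complex.I))) = _
    rw [Complex.exp_periodic w]
  have hU0 : ∀ w ∈ H, 0 ≤ U w := fun w _ => Finset.sum_nonneg fun p _ => hW0 p _
  have hLapU : ∀ w ∈ H, Lap U w = ∑ p ∈ t, Lap (fun z => W p (φ (Complex.exp z))) w :=
    fun w hw => Lap_sum t fun p _ => (hest p φ hφ w hw).1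
  have hlap : ∀ w ∈ H, Lap U w ≤ (C₀ + c₀ / cK) * (g (Complex.exp w) * Real.exp (2 * w.re)) -
      c₀ * (Real.exp (2 * w.re) / (1 - Real.exp (2 * w.re)) ^ 2) := by
    intro w hw
    rw [hLapU w hw]
    set gh : ℝ := g (Complex.exp w) * Real.exp (2 * w.re) with hgh
    have hgh0 : 0 ≤ gh := mul_nonneg (hg0 _) (Real.exp_pos _).le
    set pm : ℝ := Real.exp (2 * w.re) / (1 - Real.exp (2 * w.re)) ^ 2 with hpm
    have hpm0 : 0 ≤ pm := by positivity
    by_cases hin : φ (Complex.exp w) ∈ O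
    · -- near the singular set
      rw [hO, mem_iUnion₂] at hin
      obtain ⟨p, hp, hpin⟩ := hin
      have h1 : ∑ q ∈ t.erase p, Lap (fun z => W q (φ (Complex.exp z))) w ≤
          ∑ q ∈ t.erase p, C q * gh :=
        Finset.sum_le_sum fun q _ => (hest q φ hφ w hw).2.1
      have h2 := (hest p φ hφ w hw).2.2 hpin
      have h3 : ∑ q ∈ t.erase p, C q * gh ≤ C₀ * gh := by
        rw [hC₀, Finset.sum_mul]
        exact Finset.sum_le_sum_of_subset_of_nonneg (Finset.erase_subset _ _)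
          fun q _ _ => mul_nonneg (hC q).le hgh0
      rw [← Finset.add_sum_erase t _ hp]
      have h4 : c₀ * pm ≤ c p * pm := mul_le_mul_of_nonneg_right (hc₀le p hp) hpm0
      have h5 : 0 ≤ c₀ / cK * gh := by positivity
      have h6 : (C₀ + c₀ / cK) * gh = C₀ * gh + c₀ / cK * gh := by ring
      rw [h6]
      linarith
    · -- far from the singular set
      obtain ⟨ψ, hψ, hψ0, hψc⟩ := hthick _ hin
      have hξ : Complex.exp w ∈ ball (0 : ℂ) 1 := exp_mem_ball hw
      obtain ⟨k, hk1, hk2, -⟩ := schwarz_lift ω hφ hψ hξ hψ0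
      have hexpn : ‖Complex.exp w‖ ^ 2 = Real.exp (2 * w.re) := by
        rw [Complex.norm_exp, ← Real.exp_nat_mul]
        norm_num
      rw [hexpn] at hk1
      have hlt : 0 < 1 - Real.exp (2 * w.re) := by
        have := exp_lt_one' (show 2 * w.re < 0 by
          have : w.re < 0 := hw
          linarith)
        linarith
      have h1 : cK ≤ (1 - Real.exp (2 * w.re)) ^ 2 * g (Complex.exp w) := by
        rw [hk2] at hψc
        have h2 : ‖k‖ ^ 2 ≤ (1 - Real.exp (2 * w.re)) ^ 2 :=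
          pow_le_pow_left₀ (norm_nonneg _) hk1 2
        exact hψc.trans (mul_le_mul_of_nonneg_right h2 (hg0 _))
      have h2 : cK * pm ≤ gh := by
        rw [hpm, mul_div_assoc', div_le_iff₀ (by positivity), hgh]
        have := Real.exp_pos (2 * w.re)
        nlinarith
      have h3 : ∑ q ∈ t, Lap (fun z => W q (φ (Complex.exp z))) w ≤ C₀ * gh := by
        rw [hC₀, Finset.sum_mul]
        exact Finset.sum_le_sum fun q _ => (hest q φ hφ w hw).2.1
      have h4 : c₀ * pm ≤ c₀ / cK * gh := by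
        have h7 : c₀ * pm = c₀ / cK * (cK * pm) := by field_simp
        rw [h7]
        exact mul_le_mul_of_nonneg_left h2 (by positivity)
      have h6 : (C₀ + c₀ / cK) * gh = C₀ * gh + c₀ / cK * gh := by ring
      rw [h6]
      linarith
  have hgc : ContinuousOn g (ball 0 1) :=
    continuousOn_pullback ω fun z hz => hφ.tangent.mdiffAt hz
  exact jensen hUc hper hU0 hgc (fun z _ => hg0 z) (by positivity) hc₀0 hlap

end Pool.Agent.Helper240.Nev
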