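import Pool.Agent.Helper240.Bundle
import Pool.Agent.Helper240.Inst

/-!
Germs: topology, and the local systems attached to pseudogroups with unique continuation.
-/

set_option autoImplicit false
set_option linter.unusedSectionVars false

open Filter Topology Set

namespace Pool.Agent.Helper240

/-- The germ of `f` at `x`. -/
def germOf (f : ℝ → ℝ) (x : ℝ) (h : IsAn f x) : AnGerm := Quotient.mk germSetoid ⟨(f, x), h⟩

theorem isGermOf_germOf {f : ℝ → ℝ} {x : ℝ} (h : IsAn f x) : IsGermOf (germOf f x h) f x := ⟨h, rfl⟩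

theorem exists_isGermOf (g : AnGerm) : ∃ f x, IsGermOf g f x := by
  induction g using Quotient.inductionOn with
  | h a => exact ⟨a.1.1, a.1.2, a.2, rfl⟩

theorem IsGermOf.isAn {g : AnGerm} {f : ℝ → ℝ} {x : ℝ} (h : IsGermOf g f x) : IsAn f x := h.choose

theorem IsGermOf.src_eq {g : AnGerm} {f : ℝ → ℝ} {x : ℝ} (h : IsGermOf g f x) : g.src = x := by
  obtain ⟨h1, rfl⟩ := h
  rfl

theorem IsGermOf.unique {g : AnGerm} {f f' : ℝ → ℝ} {x x' : ℝ} (h : IsGermOf g f x)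
    (h' : IsGermOf g f' x') : x = x' ∧ f =ᶠ[𝓝 x] f' := by
  obtain ⟨h1, rfl⟩ := h
  obtain ⟨h1', h2⟩ := h'
  exact Quotient.exact (s := germSetoid) h2

theorem IsGermOf.congr {g : AnGerm} {f f' : ℝ → ℝ} {x : ℝ} (h : IsGermOf g f x)
    (h' : f =ᶠ[𝓝 x] f') : IsGermOf g f' x := by
  obtain ⟨h1, rfl⟩ := h
  exact ⟨h1.congr h', Quotient.sound (s := germSetoid) ⟨rfl, h'⟩⟩

theorem IsGermOf.eq {g g' : AnGerm} {f : ℝ → ℝ} {x : ℝ} (h : IsGermOf g f x)
    (h' : IsGermOf g' f x) : g = g' := by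
  obtain ⟨h1, rfl⟩ := h
  obtain ⟨h2, rfl⟩ := h'
  rfl

theorem isOpen_germs {f : ℝ → ℝ} {V : Set ℝ} (hV : IsOpen V) (hf : ∀ x ∈ V, IsAn f x) :
    IsOpen {g : AnGerm | ∃ x ∈ V, IsGermOf g f x} :=
  TopologicalSpace.isOpen_generateFrom_of_mem ⟨f, V, hV, hf, rfl⟩

theorem eventually_germ {g : AnGerm} {f : ℝ → ℝ} {x : ℝ} (h : IsGermOf g f x) {W : Set ℝ}
    (hW : W ∈ 𝓝 x) : ∀ᶠ g' in 𝓝 g, ∃ y ∈ W, IsGermOf g' f y := by
  have h1 : W ∩ {y | IsAn f y} ∈ 𝓝 x := inter_mem hW h.isAn.opn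
  obtain ⟨V, hV1, hV2, hV3⟩ := mem_nhds_iff.mp h1
  refine mem_of_superset ((isOpen_germs hV2 fun y hy => (hV1 hy).2).mem_nhds ⟨x, hV3, h⟩) ?_
  rintro g' ⟨y, hy, hg'⟩
  exact ⟨y, (hV1 hy).1, hg'⟩

theorem continuous_src : Continuous AnGerm.src := by
  rw [continuous_iff_continuousAt]
  intro g W hW
  obtain ⟨f, x, h⟩ := exists_isGermOf g
  rw [h.src_eq] at hW
  show ∀ᶠ g' in 𝓝 g, g'.src ∈ W
  filter_upwards [eventually_germ h hW] with g' hg'
  obtain ⟨y, hy, hy'⟩ := hg'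
  rw [hy'.src_eq]; exact hy

theorem continuousAt_germ {X : Type*} [TopologicalSpace X] {x₀ : X} (g : X → AnGerm) (F : X → ℝ)
    (f : ℝ → ℝ) (hF : ContinuousAt F x₀) (hg : ∀ᶠ x in 𝓝 x₀, IsGermOf (g x) f (F x)) :
    ContinuousAt g x₀ := by
  unfold ContinuousAt
  rw [TopologicalSpace.tendsto_nhds_generateFrom_iff]
  rintro S ⟨f', V', hV', hf', rfl⟩ ⟨x', hx', hgx'⟩
  have h0 := hg.self_of_nhds
  obtain ⟨h1, h2⟩ := h0.unique hgx'
  show ∀ᶠ x in 𝓝 x₀, ∃ y ∈ V', IsGermOf (g x) f' y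
  have h3 : ∀ᶠ x in 𝓝 x₀, f =ᶠ[𝓝 (F x)] f' := hF.eventually (eventually_eventually_nhds.mpr h2)
  have h4 : ∀ᶠ x in 𝓝 x₀, F x ∈ V' := hF.eventually (hV'.mem_nhds (by rw [h1]; exact hx'))
  filter_upwards [hg, h3, h4] with x a1 a2 a3
  exact ⟨F x, a3, a1.congr a2⟩

section sys

variable (G : PG) (hG : ∀ f x, IsAn f x → G.P f x)

/-- The maximal element of the pseudogroup `G` containing an analytic germ. -/
def toElt (g : AnGerm) : G.Elt :=
  Quotient.lift (s := germSetoid) (fun a => G.elt a.1.1 a.1.2 (hG _ _ a.2))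
    (fun a b h => G.elt_congr _ _ h.1 h.2) g

theorem toElt_eq {g : AnGerm} {f : ℝ → ℝ} {x : ℝ} (h : IsGermOf g f x) :
    toElt G hG g = G.elt f x (hG _ _ h.isAn) := by
  obtain ⟨h1, rfl⟩ := h
  rfl

theorem toElt_comp {g h k : AnGerm} (hc : IsComp g h k) :
    G.ecomp (toElt G hG h) (toElt G hG g) (toElt G hG k) := by
  obtain ⟨f, f', x, h1, h2, h3⟩ := hc
  rw [toElt_eq G hG h1, toElt_eq G hG h2, toElt_eq G hG h3]
  exact G.ecomp_elt _ _

theorem toElt_loc (g : AnGerm) : ∀ᶠ g' in 𝓝 g, toElt G hG g' = toElt G hG g := by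
  obtain ⟨f, x, h⟩ := exists_isGermOf g
  obtain ⟨ε, hε, hball⟩ := Metric.eventually_nhds_iff_ball.mp h.isAn.opn
  filter_upwards [eventually_germ h (Metric.ball_mem_nhds x hε)] with g' hg'
  obtain ⟨y, hy, hy'⟩ := hg'
  rw [toElt_eq G hG h, toElt_eq G hG hy']
  have hseg : ∀ z ∈ uIcc y x, G.P f z := by
    intro z hz
    apply hG
    apply hball
    rw [Metric.mem_ball, Real.dist_eq] at hy ⊢
    have h5 : |z - x| ≤ |y - x| := by
      have := abs_sub_right_of_mem_uIcc hz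
      rw [abs_sub_comm z, abs_sub_comm y]
      exact this
    exact lt_of_le_of_lt h5 hy
  exact G.elt_continuation hseg

/-- The local system attached to a pseudogroup. -/
noncomputable def sys : LocSys (LineCalc.Univ G.lineCalc) where
  φ g := G.lineCalc.gen (toElt G hG g)
  comp g h k hc := LineCalc.gen_comp (toElt_comp G hG hc)
  loc g := (toElt_loc G hG g).mono fun g' h => by rw [h]

end sys

end Pool.Agent.Helper240
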