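import Pool.Agent.Helper240.Sys

/-!
Transverse loops do not lift to the coverings attached to pseudogroups with unique continuation.
-/

set_option autoImplicit false
set_option linter.unusedSectionVars false

open Filter Topology Set

namespace Pool.Agent.Helper240

theorem icc_induct {a b : ℝ} (hab : a ≤ b) (Q : ℝ → Prop)
    (hloc : ∀ s₀ ∈ Icc a b, ∃ δ > 0, ∀ s ∈ Icc a b, ∀ s' ∈ Icc a b,
      |s - s₀| < δ → |s' - s₀| < δ → s ≤ s' → Q s → Q s') (ha : Q a) : Q b := by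
  let S : Set ℝ := {s | s ∈ Icc a b ∧ Q s}
  have haS : a ∈ S := ⟨⟨le_rfl, hab⟩, ha⟩
  have hbdd : BddAbove S := ⟨b, fun s hs => hs.1.2⟩
  set c := sSup S with hc
  have hcI : c ∈ Icc a b := ⟨le_csSup hbdd haS, csSup_le ⟨a, haS⟩ fun s hs => hs.1.2⟩
  obtain ⟨δ, hδ, hstep⟩ := hloc c hcI
  obtain ⟨s, hs, hsc⟩ := exists_lt_of_lt_csSup ⟨a, haS⟩ (show c - δ < sSup S by rw [← hc]; linarith)
  have hsle : s ≤ c := le_csSup hbdd hs
  have hQc : Q c := by
    refine hstep s hs.1 c hcI ?_ (by simpa using hδ) hsle hs.2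
    rw [abs_lt]; constructor <;> linarith
  rcases eq_or_lt_of_le hcI.2 with h | h
  · rw [← h]; exact hQc
  · exfalso
    set s' := min (c + δ / 2) b with hs'
    have h1 : c < s' := lt_min (by linarith) h
    have h2 : s' ≤ c + δ / 2 := min_le_left _ _
    have h3 : s' ≤ b := min_le_right _ _
    have hI : s' ∈ Icc a b := ⟨hcI.1.trans h1.le, h3⟩
    have : Q s' := by
      refine hstep c hcI s' hI (by simpa using hδ) ?_ h1.le hQc
      rw [abs_lt]; constructor <;> linarith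
    have h4 : s' ≤ c := le_csSup hbdd ⟨hI, this⟩
    linarith

theorem isAn_eventually_injective {f : ℝ → ℝ} {x : ℝ} (h : IsAn f x) :
    ∃ s ∈ 𝓝 x, InjOn f s := by
  obtain ⟨s, hs, hm⟩ := h.mono
  exact ⟨s, hs, hm.injOn⟩

/-- In a cocycle, the diagonal germs are identities. -/
theorem BGamma.diag_id {b : BGamma} {i : ℕ} (hi : 0 < b.t i) :
    IsGermOf (b.γ i i) (fun y => y) (b.coord i) := by
  obtain ⟨f, f', x, h1, h2, h3⟩ := b.cocycle i i i hi hi hi
  have hx : b.coord i = x := h1.src_eq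
  obtain ⟨hfx, hff⟩ := h2.unique h1
  obtain ⟨_, h4⟩ := h3.unique h1
  -- `f x = x`, `f' = f` near `f x`, `f' (f y) = f y` near `x`
  rw [hfx] at hff
  obtain ⟨s, hs, hinj⟩ := isAn_eventually_injective h1.isAn
  have hcont : Tendsto f (𝓝 x) (𝓝 x) := by
    have := h1.isAn.1.continuousAt.tendsto
    rwa [hfx] at this
  have key : f =ᶠ[𝓝 x] (fun y => y) := by
    filter_upwards [h4, hcont.eventually hff, hcont hs, hs] with y a1 a2 a3 a4
    have : f (f y) = f y := by rw [← a2]; exact a1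
    exact hinj a3 a4 this
  rw [hx]
  exact h1.congr key

theorem BGamma.germ_ji {b : BGamma} {i j : ℕ} (hi : 0 < b.t i) (hj : 0 < b.t j) :
    ∃ f, IsGermOf (b.γ j i) f (b.coord i) ∧ f (b.coord i) = b.coord j := by
  obtain ⟨f, f', x, h1, h2, _⟩ := b.cocycle j i i hj hi hi
  obtain ⟨hx, hid⟩ := (b.diag_id hi).unique h1
  have hfx : f x = b.coord i := by rw [← hx, ← hid.self_of_nhds]
  rw [hfx] at h2
  refine ⟨f', h2, ?_⟩
  obtain ⟨p, p', y, g1, g2, _⟩ := b.cocycle j j i hj hj hi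
  obtain ⟨hy, hpf⟩ := g1.unique h2
  have e1 : b.coord j = p y := g2.src_eq
  rw [e1, hpf.self_of_nhds, hy]

/-- Nearby, the transition is given by the same function. -/
theorem BGamma.germ_ji_near {b₀ : BGamma} {i j : ℕ} (hi : 0 < b₀.t i) (hj : 0 < b₀.t j) :
    ∃ f, IsAn f (b₀.coord i) ∧ ∀ᶠ b in 𝓝 b₀, IsGermOf (b.γ j i) f (b.coord i) ∧
      f (b.coord i) = b.coord j := by
  obtain ⟨f, hf, _⟩ := b₀.germ_ji hi hj
  refine ⟨f, hf.isAn, ?_⟩
  have h1 := (BGamma.continuousAt_γ hj hi).eventually (eventually_germ hf univ_mem)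
  have h2 : ∀ᶠ b in 𝓝 b₀, 0 < b.t i := (BGamma.isOpen_pos i).mem_nhds hi
  have h3 : ∀ᶠ b in 𝓝 b₀, 0 < b.t j := (BGamma.isOpen_pos j).mem_nhds hj
  filter_upwards [h1, h2, h3] with b a1 a2 a3
  obtain ⟨y, _, hy⟩ := a1
  obtain ⟨f', hf', hf''⟩ := b.germ_ji a2 a3
  obtain ⟨e1, e2⟩ := hy.unique hf'
  rw [e1] at hy e2
  exact ⟨hy, by rw [e2.self_of_nhds, hf'']⟩

theorem BGamma.continuousAt_coord {b : BGamma} {i : ℕ} (hi : 0 < b.t i) :
    ContinuousAt (fun b : BGamma => b.coord i) b :=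
  continuous_src.continuousAt.comp (BGamma.continuousAt_γ hi hi)

section main

variable (G : PG) (hG : ∀ f x, IsAn f x → G.P f x)

theorem BGamma.toElt_dom {b : BGamma} {i j : ℕ} (hi : 0 < b.t i) (hj : 0 < b.t j) :
    b.coord i ∈ G.lineCalc.dom (toElt G hG (b.γ j i)) ∧
      G.lineCalc.app (toElt G hG (b.γ j i)) (b.coord i) = b.coord j := by
  obtain ⟨f, hf, hf'⟩ := b.germ_ji hi hj
  rw [toElt_eq G hG hf]
  exact ⟨G.elt_dom _, (G.elt_app _).trans hf'⟩

/-- Increasing closed paths have non-trivial monodromy. -/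
theorem no_increasing_loop (p : ℝ → BGamma) (hp : Continuous p)
    (u : ℕ → ℝ → LineCalc.Univ G.lineCalc) (T : ℝ) (hT : 0 < T) (hpT : p T = p 0)
    (hloc : ∀ i s, 0 < (p s).t i → ∀ᶠ s' in 𝓝 s, u i s' = u i s)
    (hcomp : ∀ i j s, 0 < (p s).t i → 0 < (p s).t j →
      u j s = u i s * G.lineCalc.gen (toElt G hG ((p s).γ j i)))
    (hu : ∀ i, 0 < (p 0).t i → u i T = u i 0)
    (hinc : ∀ s, ∃ i, 0 < (p s).t i ∧ ∃ δ > 0, StrictMonoOn (fun s' => (p s').coord i)
      (Icc (s - δ) (s + δ))) : False := by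
  -- good neighbourhoods
  have hgood : ∀ s, ∃ i, ∃ δ > 0, StrictMonoOn (fun s' => (p s').coord i) (Icc (s - δ) (s + δ)) ∧
      ∀ s', |s' - s| < δ → 0 < (p s').t i ∧ u i s' = u i s := by
    intro s
    obtain ⟨i, hi, δ, hδ, hm⟩ := hinc s
    have h1 : ∀ᶠ s' in 𝓝 s, 0 < (p s').t i ∧ u i s' = u i s := by
      have h2 : ∀ᶠ s' in 𝓝 s, 0 < (p s').t i :=
        hp.continuousAt.eventually ((BGamma.isOpen_pos i).mem_nhds hi)
      filter_upwards [h2, hloc i s hi] with s' a1 a2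
      exact ⟨a1, a2⟩
    obtain ⟨ε, hε, hball⟩ := Metric.eventually_nhds_iff_ball.mp h1
    refine ⟨i, min δ ε, lt_min hδ hε, hm.mono (Icc_subset_Icc ?_ ?_), ?_⟩
    · linarith [min_le_left δ ε]
    · linarith [min_le_left δ ε]
    · intro s' hs'
      apply hball
      rw [Metric.mem_ball, Real.dist_eq]
      exact lt_of_lt_of_le hs' (min_le_right _ _)
  obtain ⟨i₀, δ₀, hδ₀, hm₀, hn₀⟩ := hgood 0
  set ε := min (δ₀ / 2) (T / 2) with hε
  have hε0 : 0 < ε := lt_min (by linarith) (by linarith)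
  have hεδ : ε ≤ δ₀ / 2 := min_le_left _ _
  have hεT : ε ≤ T / 2 := min_le_right _ _
  set X := (p ε).coord i₀ with hX
  have hX0 : (p 0).coord i₀ < X :=
    hm₀ (⟨by linarith, by linarith⟩ : (0 : ℝ) ∈ Icc (0 - δ₀) (0 + δ₀)) ⟨by linarith, by linarith⟩ hε0
  let C := G.lineCalc
  let Q : ℝ → Prop := fun s => ∀ j, 0 < (p s).t j →
    ∃ w : List G.Elt, u j s = u i₀ 0 * C.wprod w ∧ C.Mono X w ((p s).coord j)
  -- propagation from one chart to all charts
  have hprop : ∀ s i, 0 < (p s).t i →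
      (∃ w : List G.Elt, u i s = u i₀ 0 * C.wprod w ∧ C.Mono X w ((p s).coord i)) → Q s := by
    rintro s i hi ⟨w, hw1, hw2⟩ j hj
    obtain ⟨hd, ha⟩ := BGamma.toElt_dom G hG hi hj
    refine ⟨w ++ [toElt G hG ((p s).γ j i)], ?_, ?_⟩
    · rw [LineCalc.wprod_snoc, ← mul_assoc, ← hw1]
      exact hcomp i j s hi hj
    · have := hw2.snoc hd
      rwa [ha] at this
  have hstart : Q ε := by
    have h1 := hn₀ ε (by rw [abs_lt]; constructor <;> linarith)
    refine hprop ε i₀ h1.1 ⟨[], ?_, le_rfl⟩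
    rw [LineCalc.wprod_nil, mul_one, h1.2]
  have hend : Q T := by
    refine icc_induct (a := ε) (b := T) (by linarith) Q ?_ hstart
    intro s₀ _
    obtain ⟨i, δ, hδ, hm, hn⟩ := hgood s₀
    refine ⟨δ, hδ, ?_⟩
    intro s _ s' _ hs hs' hle hQ
    obtain ⟨h1, h2⟩ := hn s hs
    obtain ⟨h3, h4⟩ := hn s' hs'
    obtain ⟨w, hw1, hw2⟩ := hQ i h1
    refine hprop s' i h3 ⟨w, ?_, ?_⟩
    · rw [h4, ← h2, hw1]
    · refine hw2.le_end ?_
      rw [abs_lt] at hs hs'
      exact hm.monotoneOn ⟨by linarith, by linarith⟩ ⟨by linarith, by linarith⟩ hle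
  have hi₀ : 0 < (p 0).t i₀ := (hn₀ 0 (by simpa using hδ₀)).1
  obtain ⟨w, hw1, hw2⟩ := hend i₀ (by rw [hpT]; exact hi₀)
  rw [hu i₀ hi₀] at hw1
  have hw3 : C.wprod w = 1 := mul_eq_left.mp hw1.symm
  rw [hpT] at hw2
  exact LineCalc.wprod_ne_one_of_mono hw2 hX0 hw3

end main

/-- Local monotonicity for transverse loops. -/
theorem local_mono_or_anti (g : C(Circle, BGamma)) (hT : IsTransverse g) (s : ℝ) (i : ℕ)
    (hi : 0 < (g (Circle.exp s)).t i) : ∃ δ > 0,
      (StrictMonoOn (fun s' => (g (Circle.exp s')).coord i) (Icc (s - δ) (s + δ)) ∨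
      StrictAntiOn (fun s' => (g (Circle.exp s')).coord i) (Icc (s - δ) (s + δ))) := by
  obtain ⟨N, hN, hinj⟩ := hT (Circle.exp s) i hi
  have hcexp : Continuous (fun s' : ℝ => Circle.exp s') := Circle.exp.continuous
  have h1 : ∀ᶠ s' in 𝓝 s, Circle.exp s' ∈ N ∧ 0 < (g (Circle.exp s')).t i := by
    have a1 : ∀ᶠ s' in 𝓝 s, Circle.exp s' ∈ N := hcexp.continuousAt.eventually hN
    have a2 : ∀ᶠ s' in 𝓝 s, 0 < (g (Circle.exp s')).t i :=
      (g.continuous.comp hcexp).continuousAt.eventually ((BGamma.isOpen_pos i).mem_nhds hi)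
    filter_upwards [a1, a2] with s' b1 b2
    exact ⟨b1, b2⟩
  obtain ⟨ε, hε, hball⟩ := Metric.eventually_nhds_iff_ball.mp h1
  have hb : ∀ s' ∈ Icc (s - min (ε / 2) 1) (s + min (ε / 2) 1), Circle.exp s' ∈ N ∧
      0 < (g (Circle.exp s')).t i := by
    intro s' hs'
    apply hball
    rw [Metric.mem_ball, Real.dist_eq, abs_lt]
    have := min_le_left (ε / 2) 1
    constructor <;> linarith [hs'.1, hs'.2]
  refine ⟨min (ε / 2) 1, lt_min (by linarith) one_pos, ?_⟩
  apply ContinuousOn.strictMonoOn_of_injOn_Icc'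
  · have := lt_min (show 0 < ε / 2 by linarith) one_pos
    linarith
  · intro s' hs'
    apply ContinuousAt.continuousWithinAt
    exact ContinuousAt.comp (g := fun b : BGamma => b.coord i) (BGamma.continuousAt_coord (hb s' hs').2)
      (g.continuous.comp hcexp).continuousAt
  · intro s₁ hs₁ s₂ hs₂ heq
    have h2 := hinj (hb s₁ hs₁).1 (hb s₂ hs₂).1 heq
    rw [Circle.exp_eq_exp] at h2
    obtain ⟨m, hm⟩ := h2
    have hπ := Real.pi_gt_three
    have h3 := min_le_right (ε / 2) 1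
    have h4 : |s₁ - s₂| ≤ 2 := by
      rw [abs_le]; constructor <;> linarith [hs₁.1, hs₁.2, hs₂.1, hs₂.2]
    have h5 : m = 0 := by
      by_contra hm0
      have h6 : (1 : ℝ) ≤ |(m : ℝ)| := by exact_mod_cast Int.one_le_abs hm0
      have h7 : s₁ - s₂ = m * (2 * Real.pi) := by linarith
      rw [h7, abs_mul, abs_of_pos (by linarith : (0 : ℝ) < 2 * Real.pi)] at h4
      nlinarith
    rw [h5] at hm
    simpa using hm

theorem chart_independent (g : C(Circle, BGamma)) (s : ℝ) (i j : ℕ)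
    (hi : 0 < (g (Circle.exp s)).t i) (hj : 0 < (g (Circle.exp s)).t j)
    (hinc : ∃ δ > 0, StrictMonoOn (fun s' => (g (Circle.exp s')).coord i) (Icc (s - δ) (s + δ)))
    (hdec : ∃ δ > 0, StrictAntiOn (fun s' => (g (Circle.exp s')).coord j) (Icc (s - δ) (s + δ))) :
    False := by
  have hcexp : Continuous (fun s' : ℝ => g (Circle.exp s')) :=
    g.continuous.comp Circle.exp.continuous
  obtain ⟨f, hf, hnear⟩ := BGamma.germ_ji_near hi hj
  obtain ⟨W, hW, hmono⟩ := hf.mono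
  obtain ⟨δ, hδ, h1⟩ := hinc
  obtain ⟨δ', hδ', h2⟩ := hdec
  have hc : ContinuousAt (fun s' : ℝ => (g (Circle.exp s')).coord i) s :=
    ContinuousAt.comp (g := fun b : BGamma => b.coord i) (BGamma.continuousAt_coord hi)
      hcexp.continuousAt
  have e1 : ∀ᶠ s' in 𝓝[>] s, s' < s + δ := by
    exact mem_nhdsWithin_of_mem_nhds (Iio_mem_nhds (by linarith))
  have e2 : ∀ᶠ s' in 𝓝[>] s, s' < s + δ' := by
    exact mem_nhdsWithin_of_mem_nhds (Iio_mem_nhds (by linarith))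
  have e3 : ∀ᶠ s' in 𝓝[>] s, f ((g (Circle.exp s')).coord i) = (g (Circle.exp s')).coord j := by
    have := hcexp.continuousAt.eventually hnear
    filter_upwards [mem_nhdsWithin_of_mem_nhds this] with s' hs'
    exact hs'.2
  have e4 : ∀ᶠ s' in 𝓝[>] s, (g (Circle.exp s')).coord i ∈ W :=
    mem_nhdsWithin_of_mem_nhds (hc.eventually hW)
  have e5 : ∀ᶠ s' in 𝓝[>] s, s < s' := self_mem_nhdsWithin
  obtain ⟨s', a1, a2, a3, a4, a5⟩ := (e1.and (e2.and (e3.and (e4.and e5)))).exists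
  have b1 := h1 (⟨by linarith, by linarith⟩ : s ∈ Icc (s - δ) (s + δ)) ⟨by linarith, by linarith⟩ a5
  have b2 := h2 (⟨by linarith, by linarith⟩ : s ∈ Icc (s - δ') (s + δ')) ⟨by linarith, by linarith⟩ a5
  have b3 := hmono (mem_of_mem_nhds hW) a4 b1
  have b4 : f ((g (Circle.exp s)).coord i) = (g (Circle.exp s)).coord j := hnear.self_of_nhds.2
  simp only at b2 b3
  rw [a3, b4] at b3
  exact absurd b3 (not_lt.mpr b2.le)

theorem all_inc_or_all_dec (g : C(Circle, BGamma)) (hT : IsTransverse g) :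
    (∀ s, ∃ i, 0 < (g (Circle.exp s)).t i ∧ ∃ δ > 0,
      StrictMonoOn (fun s' => (g (Circle.exp s')).coord i) (Icc (s - δ) (s + δ))) ∨
    (∀ s, ∃ i, 0 < (g (Circle.exp s)).t i ∧ ∃ δ > 0,
      StrictAntiOn (fun s' => (g (Circle.exp s')).coord i) (Icc (s - δ) (s + δ))) := by
  have hcexp : Continuous (fun s' : ℝ => g (Circle.exp s')) :=
    g.continuous.comp Circle.exp.continuous
  set Inc : Set ℝ := {s | ∃ i, 0 < (g (Circle.exp s)).t i ∧ ∃ δ > 0,
      StrictMonoOn (fun s' => (g (Circle.exp s')).coord i) (Icc (s - δ) (s + δ))} with hInc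
  set Dec : Set ℝ := {s | ∃ i, 0 < (g (Circle.exp s)).t i ∧ ∃ δ > 0,
      StrictAntiOn (fun s' => (g (Circle.exp s')).coord i) (Icc (s - δ) (s + δ))} with hDec
  have hsub : ∀ (s s' δ : ℝ), |s' - s| < δ / 2 →
      Icc (s' - δ / 2) (s' + δ / 2) ⊆ Icc (s - δ) (s + δ) := by
    intro s s' δ h x hx
    rw [abs_lt] at h
    exact ⟨by linarith [hx.1], by linarith [hx.2]⟩
  have hIo : IsOpen Inc := by
    rw [isOpen_iff_mem_nhds]
    rintro s ⟨i, hi, δ, hδ, hm⟩
    have h2 : ∀ᶠ s' in 𝓝 s, 0 < (g (Circle.exp s')).t i :=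
      hcexp.continuousAt.eventually ((BGamma.isOpen_pos i).mem_nhds hi)
    filter_upwards [h2, Metric.ball_mem_nhds s (show 0 < δ / 2 by linarith)] with s' a1 a2
    rw [Metric.mem_ball, Real.dist_eq] at a2
    exact ⟨i, a1, δ / 2, by linarith, hm.mono (hsub s s' δ a2)⟩
  have hDo : IsOpen Dec := by
    rw [isOpen_iff_mem_nhds]
    rintro s ⟨i, hi, δ, hδ, hm⟩
    have h2 : ∀ᶠ s' in 𝓝 s, 0 < (g (Circle.exp s')).t i :=
      hcexp.continuousAt.eventually ((BGamma.isOpen_pos i).mem_nhds hi)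
    filter_upwards [h2, Metric.ball_mem_nhds s (show 0 < δ / 2 by linarith)] with s' a1 a2
    rw [Metric.mem_ball, Real.dist_eq] at a2
    exact ⟨i, a1, δ / 2, by linarith, hm.mono (hsub s s' δ a2)⟩
  have hcov : Inc ∪ Dec = univ := by
    ext s
    simp only [mem_union, mem_univ, iff_true]
    obtain ⟨i, hi⟩ := (g (Circle.exp s)).exists_pos
    obtain ⟨δ, hδ, h | h⟩ := local_mono_or_anti g hT s i hi
    · exact Or.inl ⟨i, hi, δ, hδ, h⟩
    · exact Or.inr ⟨i, hi, δ, hδ, h⟩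
  have hdisj : Inc ∩ Dec = ∅ := by
    ext s
    simp only [mem_inter_iff, mem_empty_iff_false, iff_false]
    rintro ⟨⟨i, hi, h1⟩, ⟨j, hj, h2⟩⟩
    exact chart_independent g s i j hi hj h1 h2
  by_contra hcon
  push Not at hcon
  obtain ⟨⟨s₁, hs₁⟩, ⟨s₂, hs₂⟩⟩ := hcon
  have h1 : s₁ ∉ Inc := by
    rintro ⟨i, hi, δ, hδ, hm⟩
    exact hs₁ i hi δ hδ hm
  have h2 : s₂ ∉ Dec := by
    rintro ⟨i, hi, δ, hδ, hm⟩
    exact hs₂ i hi δ hδ hm
  have h1' : s₁ ∈ Dec := by
    have : s₁ ∈ Inc ∪ Dec := by rw [hcov]; exact mem_univ _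
    exact this.resolve_left h1
  have h2' : s₂ ∈ Inc := by
    have : s₂ ∈ Inc ∪ Dec := by rw [hcov]; exact mem_univ _
    exact this.resolve_right h2
  obtain ⟨x, _, hx⟩ := isPreconnected_univ Inc Dec hIo hDo (by rw [hcov]) ⟨s₂, mem_univ _, h2'⟩
    ⟨s₁, mem_univ _, h1'⟩
  rw [hdisj] at hx
  exact hx

/-- A transverse loop does not lift. -/
theorem not_lift_of_transverse (G : PG) (hG : ∀ f x, IsAn f x → G.P f x)
    [TopologicalSpace (LineCalc.Univ G.lineCalc)] [DiscreteTopology (LineCalc.Univ G.lineCalc)]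
    (g : C(Circle, BGamma)) (hT : IsTransverse g) (F : C(Circle, (sys G hG).Tot))
    (hF : ∀ z, (F z).proj = g z) : False := by
  have hcg : Continuous (fun s' : ℝ => g (Circle.exp s')) :=
    g.continuous.comp Circle.exp.continuous
  have hcF : Continuous (fun s' : ℝ => F (Circle.exp s')) :=
    F.continuous.comp Circle.exp.continuous
  have hloc : ∀ i (s : ℝ), 0 < (g (Circle.exp s)).t i →
      ∀ᶠ s' in 𝓝 s, (sys G hG).cd i (F (Circle.exp s')) = (sys G hG).cd i (F (Circle.exp s)) := by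
    intro i s hi
    exact hcF.continuousAt.eventually ((sys G hG).cd_loc (by rw [hF]; exact hi))
  have hcomp : ∀ i j (s : ℝ), 0 < (g (Circle.exp s)).t i → 0 < (g (Circle.exp s)).t j →
      (sys G hG).cd j (F (Circle.exp s)) = (sys G hG).cd i (F (Circle.exp s)) *
        G.lineCalc.gen (toElt G hG ((g (Circle.exp s)).γ j i)) := by
    intro i j s hi hj
    have := (sys G hG).cd_compat (e := F (Circle.exp s)) (i := i) (j := j)
      (by rw [hF]; exact hi) (by rw [hF]; exact hj)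
    rw [hF] at this
    exact this
  have e2π : Circle.exp (2 * Real.pi) = Circle.exp 0 := by
    rw [Circle.exp_eq_exp]; exact ⟨1, by simp⟩
  have em2π : Circle.exp (-(2 * Real.pi)) = Circle.exp 0 := by
    rw [Circle.exp_eq_exp]; exact ⟨-1, by simp⟩
  have hπ := Real.pi_pos
  rcases all_inc_or_all_dec g hT with h | h
  · refine no_increasing_loop G hG (fun s => g (Circle.exp s)) hcg
      (fun i s => (sys G hG).cd i (F (Circle.exp s))) (2 * Real.pi) (by linarith) ?_ hloc hcomp ?_ h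
    · simp only [e2π]
    · intro i _
      simp only [e2π]
  · refine no_increasing_loop G hG (fun s => g (Circle.exp (-s))) (hcg.comp continuous_neg)
      (fun i s => (sys G hG).cd i (F (Circle.exp (-s)))) (2 * Real.pi) (by linarith) ?_ ?_ ?_ ?_ ?_
    · simp only [em2π, neg_zero]
    · intro i s hi
      exact (continuous_neg.continuousAt (x := s)).eventually (hloc i (-s) hi)
    · intro i j s hi hj
      exact hcomp i j (-s) hi hj
    · intro i _
      simp only [em2π, neg_zero]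
    · intro s
      obtain ⟨i, hi, δ, hδ, hm⟩ := h (-s)
      refine ⟨i, hi, δ, hδ, ?_⟩
      intro a ha b hb hab
      exact hm (⟨by linarith [hb.2], by linarith [hb.1]⟩ : -b ∈ Icc (-s - δ) (-s + δ))
        (⟨by linarith [ha.2], by linarith [ha.1]⟩ : -a ∈ Icc (-s - δ) (-s + δ)) (by linarith)

end Pool.Agent.Helper240
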