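import Mathlib

/-!
Words in an abstract calculus of maximal local homeomorphisms of the line.
-/

set_option autoImplicit false

namespace Pool.Agent.Helper240

/-- The abstract calculus of (maximal) increasing local homeomorphisms of the line.
`comp a b c` means: first `a`, then `b`, is (a restriction of) `c`. -/
structure LineCalc (A : Type) where
  dom : A → Set ℝ
  app : A → ℝ → ℝ
  one : A
  inv : A → A
  comp : A → A → A → Prop
  dom_oc : ∀ a, (dom a).OrdConnected
  mono : ∀ a, ∀ x ∈ dom a, ∀ y ∈ dom a, x ≤ y → app a x ≤ app a y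
  one_dom : ∀ x, x ∈ dom one
  one_app : ∀ x, app one x = x
  inv_dom : ∀ a, ∀ x ∈ dom a, app a x ∈ dom (inv a)
  inv_app : ∀ a, ∀ x ∈ dom a, app (inv a) (app a x) = x
  inv_inv : ∀ a, inv (inv a) = a
  comp_ex : ∀ a b c, comp a b c → ∃ x ∈ dom a, app a x ∈ dom b
  comp_mk : ∀ a b x, x ∈ dom a → app a x ∈ dom b → ∃ c, comp a b c
  comp_uniq : ∀ a b c c', comp a b c → comp a b c' → c = c'
  comp_dom : ∀ a b c x, comp a b c → x ∈ dom a → app a x ∈ dom b → x ∈ dom c
  comp_app : ∀ a b c x, comp a b c → x ∈ dom a → app a x ∈ dom b → app c x = app b (app a x)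
  comp_inv_left : ∀ a b c, comp a b c → comp (inv a) c b
  comp_inv_right : ∀ a b c, comp a b c → comp c (inv b) a
  comp_one : ∀ a, comp a one a
  one_comp : ∀ a, comp one a a
  assoc : ∀ a b c d e f x, x ∈ dom a → app a x ∈ dom b → app b (app a x) ∈ dom c →
    comp a b d → comp b c e → comp d c f → comp a e f

variable {A : Type} (C : LineCalc A)

namespace LineCalc

/-- Words that can be contracted to the empty word. -/
inductive Red : List A → Prop
  | nil : Red []
  | one : Red [C.one]
  | comp (u v : List A) (a b c : A) : C.comp a b c → Red (u ++ c :: v) → Red (u ++ a :: b :: v)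

/-- A chain of elements with common source, together with the list of transitions. -/
inductive Chain : A → List A → A → Prop
  | single (m c n : A) : C.comp m c n → Chain m [c] n
  | cons (m c m' : A) (cs : List A) (n : A) : C.comp m c m' → Chain m' cs n → Chain m (c :: cs) n

variable {C}

theorem Chain.snoc {m n : A} {cs : List A} (h : C.Chain m cs n) {c n' : A}
    (hc : C.comp n c n') : C.Chain m (cs ++ [c]) n' := by
  induction h with
  | single m c n h1 => exact Chain.cons _ _ _ _ _ h1 (Chain.single _ _ _ hc)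
  | cons m c m' cs n h1 _ ih => exact Chain.cons _ _ _ _ _ h1 (ih hc)

/-- The domains of `m` and `n` meet. -/
def Adj (C : LineCalc A) (m n : A) : Prop := (C.dom m ∩ C.dom n).Nonempty

theorem adj_of_comp {m c n : A} (h : C.comp m c n) : C.Adj m n := by
  obtain ⟨x, hx, hx'⟩ := C.comp_ex _ _ _ h
  exact ⟨x, hx, C.comp_dom _ _ _ _ h hx hx'⟩

theorem comp_left_uniq {m c n c' : A} (h : C.comp m c n) (h' : C.comp m c' n) : c = c' :=
  C.comp_uniq _ _ _ _ (C.comp_inv_left _ _ _ h) (C.comp_inv_left _ _ _ h')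

/-- Helly for three intervals of the line. -/
theorem helly {D E F : Set ℝ} (hD : D.OrdConnected) (hE : E.OrdConnected) (hF : F.OrdConnected)
    {x y z : ℝ} (hx : x ∈ D ∩ E) (hy : y ∈ E ∩ F) (hz : z ∈ D ∩ F) :
    (D ∩ E ∩ F).Nonempty := by
  obtain ⟨hxD, hxE⟩ := hx
  obtain ⟨hyE, hyF⟩ := hy
  obtain ⟨hzD, hzF⟩ := hz
  rcases le_total x y with h1 | h1 <;> rcases le_total y z with h2 | h2 <;>
    rcases le_total x z with h3 | h3
  · exact ⟨y, ⟨hD.out hxD hzD ⟨h1, h2⟩, hyE⟩, hyF⟩
  · exact ⟨y, ⟨hD.out hxD hzD ⟨h1, h2⟩, hyE⟩, hyF⟩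
  · exact ⟨z, ⟨hzD, hE.out hxE hyE ⟨h3, h2⟩⟩, hzF⟩
  · exact ⟨x, ⟨hxD, hxE⟩, hF.out hzF hyF ⟨h3, h1⟩⟩
  · exact ⟨x, ⟨hxD, hxE⟩, hF.out hyF hzF ⟨h1, h3⟩⟩
  · exact ⟨z, ⟨hzD, hE.out hyE hxE ⟨h2, h3⟩⟩, hzF⟩
  · exact ⟨y, ⟨hD.out hzD hxD ⟨h2, h1⟩, hyE⟩, hyF⟩
  · exact ⟨y, ⟨hD.out hzD hxD ⟨h2, h1⟩, hyE⟩, hyF⟩

theorem tri {m m' m'' c c' : A} (h : C.comp m c m') (h' : C.comp m' c' m'')
    (hadj : C.Adj m m'') : ∃ d, C.comp c c' d ∧ C.comp m d m'' := by
  obtain ⟨x, hx⟩ := adj_of_comp h
  obtain ⟨y, hy⟩ := adj_of_comp h'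
  obtain ⟨z, hz⟩ := hadj
  obtain ⟨p, ⟨hp1, hp2⟩, hp3⟩ := helly (C.dom_oc m) (C.dom_oc m') (C.dom_oc m'') hx hy hz
  -- `q = m(p)` lies in the domain of `c`, and `c(q) = m'(p)` lies in the domain of `c'`
  have i1 := C.comp_inv_left _ _ _ h
  have i2 := C.comp_inv_left _ _ _ h'
  have hq : C.app m p ∈ C.dom c := by
    refine C.comp_dom _ _ _ _ i1 (C.inv_dom m p hp1) ?_
    rw [C.inv_app m p hp1]; exact hp2
  have hq' : C.app c (C.app m p) = C.app m' p := by
    rw [C.comp_app _ _ _ _ i1 (C.inv_dom m p hp1) (by rw [C.inv_app m p hp1]; exact hp2),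
      C.inv_app m p hp1]
  have hr : C.app m' p ∈ C.dom c' := by
    refine C.comp_dom _ _ _ _ i2 (C.inv_dom m' p hp2) ?_
    rw [C.inv_app m' p hp2]; exact hp3
  obtain ⟨d, hd⟩ := C.comp_mk c c' (C.app m p) hq (by rw [hq']; exact hr)
  refine ⟨d, hd, ?_⟩
  exact C.assoc m c c' m' d m'' p hp1 hq (by rw [hq']; exact hr) h hd h'

theorem sep_of_disjoint {D E : Set ℝ} (hD : D.OrdConnected) (hE : E.OrdConnected)
    (h : ¬ (D ∩ E).Nonempty) :
    (∀ x ∈ D, ∀ y ∈ E, x < y) ∨ (∀ x ∈ D, ∀ y ∈ E, y < x) := by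
  by_contra hcon
  push Not at hcon
  obtain ⟨⟨x, hx, y, hy, hxy⟩, ⟨x', hx', y', hy', hxy'⟩⟩ := hcon
  rcases le_total y' x with h1 | h1
  · exact h ⟨y', hD.out hx' hx ⟨hxy', h1⟩, hy'⟩
  · exact h ⟨x, hx, hE.out hy hy' ⟨hxy, h1⟩⟩

theorem contract_aux (ε : ℝ) (hε : ε = 1 ∨ ε = -1) : ∀ (cs : List A) (m c m1 c' m2 n : A),
    C.comp m c m1 → C.comp m1 c' m2 → ((cs = [] ∧ m2 = n) ∨ C.Chain m2 cs n) →
    (∀ x ∈ C.dom m, ∀ y ∈ C.dom m2, ε * x < ε * y) →
    (∃ (cs1 : List A) (d d' : A) (cs2 : List A) (e : A), c :: c' :: cs = cs1 ++ d :: d' :: cs2 ∧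
      C.comp d d' e ∧ C.Chain m (cs1 ++ e :: cs2) n) ∨
    (∀ x ∈ C.dom m, ∀ y ∈ C.dom n, ε * x < ε * y) := by
  intro cs
  induction cs with
  | nil =>
    intro m c m1 c' m2 n h1 h2 h3 h4
    right
    rcases h3 with ⟨_, rfl⟩ | h3
    · exact h4
    · cases h3
  | cons c'' cs ih =>
    intro m c m1 c' m2 n h1 h2 h3 h4
    rcases h3 with ⟨h3, _⟩ | h3
    · simp at h3
    · -- extract m3
      obtain ⟨m3, h3a, h3b⟩ : ∃ m3, C.comp m2 c'' m3 ∧ ((cs = [] ∧ m3 = n) ∨ C.Chain m3 cs n) := by
        cases h3 with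
        | single _ _ _ h => exact ⟨n, h, Or.inl ⟨rfl, rfl⟩⟩
        | cons _ _ m' _ _ h h' => exact ⟨m', h, Or.inr h'⟩
      by_cases hadj : C.Adj m1 m3
      · left
        obtain ⟨d, hd1, hd2⟩ := tri h2 h3a hadj
        refine ⟨[c], c', c'', cs, d, rfl, hd1, ?_⟩
        rcases h3b with ⟨rfl, rfl⟩ | h3b
        · exact Chain.cons _ _ _ _ _ h1 (Chain.single _ _ _ hd2)
        · exact Chain.cons _ _ _ _ _ h1 (Chain.cons _ _ _ _ _ hd2 h3b)
      · have hsep : ∀ x ∈ C.dom m1, ∀ y ∈ C.dom m3, ε * x < ε * y := by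
          obtain ⟨p, hp, hp'⟩ := adj_of_comp h1
          obtain ⟨q, hq, hq'⟩ := adj_of_comp h3a
          have key := h4 p hp q hq
          rcases sep_of_disjoint (C.dom_oc m1) (C.dom_oc m3) hadj with hs | hs
          · rcases hε with rfl | rfl
            · intro x hx y hy; have := hs x hx y hy; linarith
            · have := hs p hp' q hq'; linarith
          · rcases hε with rfl | rfl
            · have := hs p hp' q hq'; linarith
            · intro x hx y hy; have := hs x hx y hy; linarith
        rcases ih m1 c' m2 c'' m3 n h2 h3a h3b hsep with ⟨cs1, d, d', cs2, e, he1, he2, he3⟩ | hh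
        · left
          refine ⟨c :: cs1, d, d', cs2, e, by rw [he1]; rfl, he2, ?_⟩
          exact Chain.cons _ _ _ _ _ h1 he3
        · right
          intro x hx y hy
          by_contra hxy
          obtain ⟨p, hp, hp'⟩ := adj_of_comp h1
          obtain ⟨q, hq, hq'⟩ := adj_of_comp h2
          have e1 := hh p hp' y hy
          have e2 := hh q hq y hy
          have hyD : y ∈ C.dom m := by
            rcases hε with rfl | rfl
            · exact (C.dom_oc m).out hp hx ⟨by linarith, by linarith⟩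
            · exact (C.dom_oc m).out hx hp ⟨by linarith, by linarith⟩
          have e3 := h4 y hyD q hq'
          linarith

theorem Chain.contract {m n : A} {c c' : A} {cs : List A} (h : C.Chain m (c :: c' :: cs) n)
    (hadj : C.Adj m n) :
    ∃ (cs1 : List A) (d d' : A) (cs2 : List A) (e : A), c :: c' :: cs = cs1 ++ d :: d' :: cs2 ∧
      C.comp d d' e ∧ C.Chain m (cs1 ++ e :: cs2) n := by
  cases h with
  | cons _ _ m1 _ _ h1 h2 =>
    obtain ⟨m2, h2a, h2b⟩ : ∃ m2, C.comp m1 c' m2 ∧ ((cs = [] ∧ m2 = n) ∨ C.Chain m2 cs n) := by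
      cases h2 with
      | single _ _ _ h => exact ⟨n, h, Or.inl ⟨rfl, rfl⟩⟩
      | cons _ _ m' _ _ h h' => exact ⟨m', h, Or.inr h'⟩
    by_cases ha : C.Adj m m2
    · obtain ⟨d, hd1, hd2⟩ := tri h1 h2a ha
      refine ⟨[], c, c', cs, d, rfl, hd1, ?_⟩
      rcases h2b with ⟨rfl, rfl⟩ | h2b
      · exact Chain.single _ _ _ hd2
      · exact Chain.cons _ _ _ _ _ hd2 h2b
    · obtain ⟨x, hx, hx'⟩ := hadj
      rcases sep_of_disjoint (C.dom_oc m) (C.dom_oc m2) ha with hs | hs
      · rcases contract_aux 1 (Or.inl rfl) cs m c m1 c' m2 n h1 h2a h2b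
          (fun x hx y hy => by have := hs x hx y hy; linarith) with h | h
        · exact h
        · exact absurd (h x hx x hx') (lt_irrefl _)
      · rcases contract_aux (-1) (Or.inr rfl) cs m c m1 c' m2 n h1 h2a h2b
          (fun x hx y hy => by have := hs x hx y hy; linarith) with h | h
        · exact h
        · exact absurd (h x hx x hx') (lt_irrefl _)

theorem Red.expand_chain : ∀ (k : ℕ) (cs : List A), cs.length ≤ k → ∀ (m n e : A) (U Z : List A),
    C.Chain m cs n → C.comp m e n → C.Red (U ++ e :: Z) → C.Red (U ++ (cs ++ Z)) := by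
  intro k
  induction k with
  | zero =>
    intro cs hcs m n e U Z h
    cases h <;> simp at hcs
  | succ k ih =>
    intro cs hcs m n e U Z h he hr
    match cs, hcs, h with
    | [], _, h => cases h
    | [c], _, h =>
      cases h with
      | single _ _ _ h =>
        rw [comp_left_uniq h he]; exact hr
      | cons _ _ _ _ _ _ h' => cases h'
    | c :: c' :: cs, hcs, h =>
      obtain ⟨cs1, d, d', cs2, f, hf1, hf2, hf3⟩ := h.contract (adj_of_comp he)
      have hlen : (cs1 ++ f :: cs2).length ≤ k := by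
        have := congrArg List.length hf1
        simp at this hcs ⊢
        omega
      have := ih (cs1 ++ f :: cs2) hlen m n e U Z hf3 he hr
      rw [hf1]
      have h2 := Red.comp (C := C) (U ++ cs1) (cs2 ++ Z) d d' f hf2 (by simpa using this)
      simpa using h2

/-- Analysis of two factorizations of a word with marked consecutive pairs. -/
theorem split_pair {u v U Z : List A} {a b p q : A} (h : u ++ a :: b :: v = U ++ p :: q :: Z) :
    (∃ W, U = u ++ a :: b :: W ∧ v = W ++ p :: q :: Z) ∨
    (U = u ++ [a] ∧ b = p ∧ v = q :: Z) ∨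
    (U = u ∧ a = p ∧ b = q ∧ v = Z) ∨
    (u = U ++ [p] ∧ a = q ∧ Z = b :: v) ∨
    (∃ W, u = U ++ p :: q :: W ∧ Z = W ++ a :: b :: v) := by
  rcases List.append_eq_append_iff.mp h with ⟨as, h1, h2⟩ | ⟨as, h1, h2⟩
  · -- U = u ++ as, a :: b :: v = as ++ p :: q :: Z
    match as, h1, h2 with
    | [], h1, h2 =>
      simp at h1 h2
      right; right; left
      exact ⟨h1, h2.1, h2.2.1, h2.2.2⟩
    | [x], h1, h2 =>
      simp at h1 h2
      right; left
      obtain ⟨rfl, rfl, rfl⟩ := h2
      exact ⟨h1, rfl, rfl⟩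
    | x :: y :: W, h1, h2 =>
      simp at h1 h2
      left
      obtain ⟨rfl, rfl, rfl⟩ := h2
      exact ⟨W, h1, rfl⟩
  · match as, h1, h2 with
    | [], h1, h2 =>
      simp at h1 h2
      right; right; left
      exact ⟨h1.symm, h2.1.symm, h2.2.1.symm, h2.2.2.symm⟩
    | [x], h1, h2 =>
      simp at h1 h2
      right; right; right; left
      obtain ⟨rfl, rfl, rfl⟩ := h2
      exact ⟨h1, rfl, rfl⟩
    | x :: y :: W, h1, h2 =>
      simp at h1 h2
      right; right; right; right
      obtain ⟨rfl, rfl, rfl⟩ := h2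
      exact ⟨W, h1, rfl⟩

theorem Red.refine {w : List A} (h : C.Red w) : ∀ (U : List A) (p q : A) (Z : List A),
    w = U ++ p :: q :: Z → ∀ cs, C.Chain (C.inv p) cs q → C.Red (U ++ (cs ++ Z)) := by
  induction h with
  | nil =>
    intro U p q Z hw
    have := congrArg List.length hw
    simp at this
  | one =>
    intro U p q Z hw
    have := congrArg List.length hw
    simp at this
    omega
  | comp u v a b c habc hred ih =>
    intro U p q Z hw cs hcs
    rcases split_pair hw with ⟨W, rfl, rfl⟩ | ⟨rfl, rfl, rfl⟩ | ⟨rfl, rfl, rfl, rfl⟩ |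
      ⟨rfl, rfl, rfl⟩ | ⟨W, rfl, rfl⟩
    · have := ih (u ++ c :: W) p q Z (by simp) cs hcs
      have h2 := Red.comp (C := C) u (W ++ (cs ++ Z)) a b c habc (by simpa using this)
      simpa using h2
    · -- remove the letter before
      have hch : C.Chain (C.inv c) (a :: cs) q := by
        refine Chain.cons _ _ (C.inv b) _ _ ?_ hcs
        -- comp (inv c) a (inv b)
        exact C.comp_inv_left _ _ _ (C.comp_inv_right _ _ _ habc)
      have := ih u c q Z (by simp) (a :: cs) hch
      simpa using this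
    · -- the same pair
      have hc : C.comp (C.inv a) c b := C.comp_inv_left _ _ _ habc
      exact Red.expand_chain cs.length cs le_rfl (C.inv a) b c U v hcs hc hred
    · -- a = q
      have hch : C.Chain (C.inv p) (cs ++ [b]) c := hcs.snoc habc
      have := ih U p c v (by simp) (cs ++ [b]) hch
      simpa using this
    · have := ih U p q (W ++ c :: v) (by simp) cs hcs
      have h2 := Red.comp (C := C) (U ++ (cs ++ W)) v a b c habc (by simpa using this)
      simpa using h2

theorem comp_inv_inv {a b c : A} (h : C.comp a b c) : C.comp (C.inv b) (C.inv a) (C.inv c) :=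
  C.comp_inv_right _ _ _ (C.comp_inv_left _ _ _ (C.comp_inv_right _ _ _ h))

theorem Red.contract {w : List A} (h : C.Red w) : ∀ (U : List A) (p q r : A) (Z : List A),
    w = U ++ p :: q :: Z → C.comp p q r → C.Red (U ++ r :: Z) := by
  induction h with
  | nil =>
    intro U p q r Z hw
    have := congrArg List.length hw
    simp at this
  | one =>
    intro U p q r Z hw
    have := congrArg List.length hw
    simp at this
    omega
  | comp u v a b c habc hred ih =>
    intro U p q r Z hw hr
    rcases split_pair hw with ⟨W, rfl, rfl⟩ | ⟨rfl, rfl, rfl⟩ | ⟨rfl, rfl, rfl, rfl⟩ |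
      ⟨rfl, rfl, rfl⟩ | ⟨W, rfl, rfl⟩
    · have := ih (u ++ c :: W) p q r Z (by simp) hr
      have h2 := Red.comp (C := C) u (W ++ r :: Z) a b c habc (by simpa using this)
      simpa using h2
    · -- word: u a b q Z ; c = a b ; r = b q
      -- hred : Red (u ++ c :: q :: Z)
      have hch : C.Chain (C.inv c) [a, r] q := by
        refine Chain.cons _ _ (C.inv b) _ _ ?_ (Chain.single _ _ _ ?_)
        · exact C.comp_inv_left _ _ _ (C.comp_inv_right _ _ _ habc)
        · exact C.comp_inv_left _ _ _ hr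
      have := hred.refine u c q Z (by simp) [a, r] hch
      simpa using this
    · rw [C.comp_uniq _ _ _ _ hr habc]; exact hred
    · -- word: U p a b v ; c = a b ; r = p a
      have hch : C.Chain (C.inv p) [r, b] c := by
        refine Chain.cons _ _ a _ _ ?_ (Chain.single _ _ _ habc)
        exact C.comp_inv_left _ _ _ hr
      have := hred.refine U p c v (by simp) [r, b] hch
      simpa using this
    · have := ih U p q r (W ++ c :: v) (by simp) hr
      have h2 := Red.comp (C := C) (U ++ r :: W) v a b c habc (by simpa using this)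
      simpa using h2

theorem red_one_iff (U Z : List A) : C.Red (U ++ C.one :: Z) ↔ C.Red (U ++ Z) := by
  constructor
  · intro h
    rcases Z with _ | ⟨z, Z⟩
    · rcases List.eq_nil_or_concat U with rfl | ⟨U, y, rfl⟩
      · exact Red.nil
      · have := h.contract U y C.one y [] (by simp) (C.comp_one y)
        simpa using this
    · exact h.contract U C.one z z Z rfl (C.one_comp z)
  · intro h
    rcases Z with _ | ⟨z, Z⟩
    · rcases List.eq_nil_or_concat U with rfl | ⟨U, y, rfl⟩
      · exact Red.one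
      · have := Red.comp (C := C) U [] y C.one y (C.comp_one y) (by simpa using h)
        simpa using this
    · exact Red.comp (C := C) U Z C.one z z (C.one_comp z) h

/-- The defining relations. -/
inductive Rel (C : LineCalc A) : FreeMonoid A → FreeMonoid A → Prop
  | comp (a b c : A) : C.comp a b c → Rel C (FreeMonoid.of a * FreeMonoid.of b) (FreeMonoid.of c)
  | one : Rel C (FreeMonoid.of C.one) 1

/-- The congruence of being contractible in the same contexts. -/
def ctxCon (C : LineCalc A) : Con (FreeMonoid A) where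
  r w w' := ∀ u v : FreeMonoid A, C.Red (u * w * v).toList ↔ C.Red (u * w' * v).toList
  iseqv := ⟨fun _ _ _ => Iff.rfl, fun h u v => (h u v).symm, fun h h' u v => (h u v).trans (h' u v)⟩
  mul' := by
    intro w x y z h h' u v
    have e1 := h u (y * v)
    have e2 := h' (u * x) v
    simp only [← mul_assoc] at e1 e2 ⊢
    exact e1.trans e2

/-- The universal group of the calculus, in path order. -/
abbrev Univ (C : LineCalc A) : Type := (conGen (Rel C)).Quotient

/-- The generator attached to an element. -/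
def gen (C : LineCalc A) (a : A) : Univ C := (conGen (Rel C)).mk' (FreeMonoid.of a)

theorem gen_comp {a b c : A} (h : C.comp a b c) : C.gen a * C.gen b = C.gen c := by
  unfold gen
  rw [← map_mul]
  exact (Con.eq _).mpr (ConGen.Rel.of _ _ (Rel.comp a b c h))

theorem gen_one : C.gen C.one = 1 := by
  unfold gen
  have : (conGen (Rel C)).mk' (1 : FreeMonoid A) = (1 : Univ C) := map_one _
  rw [← this]
  exact (Con.eq _).mpr (ConGen.Rel.of _ _ Rel.one)

theorem gen_mul_inv (a : A) : C.gen a * C.gen (C.inv a) = 1 := by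
  have h : C.comp a (C.inv a) C.one := by
    have := C.comp_inv_left _ _ _ (C.comp_one (C.inv a))
    rwa [C.inv_inv] at this
  rw [gen_comp h, gen_one]

theorem gen_inv_mul (a : A) : C.gen (C.inv a) * C.gen a = 1 := by
  have h : C.comp (C.inv a) a C.one := C.comp_inv_left _ _ _ (C.comp_one a)
  rw [gen_comp h, gen_one]

theorem isUnit_all (x : Univ C) : IsUnit x := by
  obtain ⟨w, rfl⟩ := Con.mk'_surjective (c := conGen (Rel C)) x
  induction w using FreeMonoid.inductionOn' with
  | one => rw [map_one]; exact isUnit_one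
  | of_mul a w ih =>
    rw [map_mul]
    exact IsUnit.mul ⟨⟨C.gen a, C.gen (C.inv a), gen_mul_inv a, gen_inv_mul a⟩, rfl⟩ ih

noncomputable instance : Group (Univ C) := groupOfIsUnit isUnit_all

/-- The product of a word. -/
noncomputable def wprod (C : LineCalc A) (w : List A) : Univ C := (w.map C.gen).prod

theorem wprod_eq (w : List A) : C.wprod w = (conGen (Rel C)).mk' (FreeMonoid.ofList w) := by
  induction w with
  | nil => simp [wprod]
  | cons a w ih =>
    have : FreeMonoid.ofList (a :: w) = FreeMonoid.of a * FreeMonoid.ofList w := rfl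
    rw [this, map_mul, ← ih]
    simp [wprod, gen]

theorem red_of_wprod_eq_one {w : List A} (h : C.wprod w = 1) : C.Red w := by
  rw [wprod_eq] at h
  have h1 : (conGen (Rel C)) (FreeMonoid.ofList w) 1 := by
    rw [← Con.eq]
    exact h
  have hle : conGen (Rel C) ≤ ctxCon C := by
    rw [Con.conGen_le]
    intro x y hxy
    cases hxy with
    | comp a b c habc =>
      intro u v
      show C.Red ((u.toList ++ [a, b]) ++ v.toList) ↔ C.Red ((u.toList ++ [c]) ++ v.toList)
      constructor
      · intro h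
        have := h.contract u.toList a b c v.toList (by simp) habc
        simpa using this
      · intro h
        have := Red.comp (C := C) u.toList v.toList a b c habc (by simpa using h)
        simpa using this
    | one =>
      intro u v
      show C.Red ((u.toList ++ [C.one]) ++ v.toList) ↔ C.Red ((u.toList ++ []) ++ v.toList)
      have := red_one_iff (C := C) u.toList v.toList
      simpa using this
  have h2 : ctxCon C (FreeMonoid.ofList w) 1 := hle h1
  have h3 := h2 1 1
  have h4 : C.Red w ↔ C.Red [] := by simpa using h3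
  exact h4.mpr Red.nil

theorem eq_one_of_gen_eq_one {a : A} (h : C.gen a = 1) : a = C.one := by
  have h1 : C.Red [a] := red_of_wprod_eq_one (by simpa [wprod] using h)
  generalize hw : [a] = w at h1
  cases h1 with
  | nil => simp at hw
  | one => simpa using hw
  | comp u v a b c _ _ =>
    have := congrArg List.length hw
    simp at this
    omega

theorem gen_injective {a b : A} (h : C.gen a = C.gen b) : a = b := by
  have h0 : C.gen a * C.gen (C.inv b) = 1 := by rw [h, gen_mul_inv]
  have h1 : C.Red [a, C.inv b] := red_of_wprod_eq_one (by simpa [wprod] using h0)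
  generalize hw : [a, C.inv b] = w at h1
  cases h1 with
  | nil => simp at hw
  | one => simp at hw
  | comp u v p q r hpq hr =>
    have hlen := congrArg List.length hw
    simp at hlen
    have hu : u = [] := List.eq_nil_of_length_eq_zero (by omega)
    have hv : v = [] := List.eq_nil_of_length_eq_zero (by omega)
    subst hu hv
    simp only [List.nil_append, List.cons.injEq, and_true] at hw
    obtain ⟨rfl, rfl⟩ := hw
    have hr1 : r = C.one := by
      apply eq_one_of_gen_eq_one
      rw [← gen_comp hpq, h0]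
    rw [hr1] at hpq
    have h2 := C.comp_inv_right _ _ _ hpq
    rw [C.inv_inv] at h2
    exact C.comp_uniq _ _ _ _ h2 (C.one_comp b)

/-- Increasing chains. -/
def Mono (C : LineCalc A) : ℝ → List A → ℝ → Prop
  | x, [], y => x ≤ y
  | x, a :: w, y => ∃ x', x ≤ x' ∧ x' ∈ C.dom a ∧ Mono C (C.app a x') w y

theorem Mono.of_le {w : List A} {x y x' : ℝ} (h : C.Mono x w y) (hx : x' ≤ x) : C.Mono x' w y := by
  cases w with
  | nil => exact le_trans hx h
  | cons a w =>
    obtain ⟨z, hz, h1, h2⟩ := h
    exact ⟨z, le_trans hx hz, h1, h2⟩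

theorem Mono.le_end {w : List A} : ∀ {x y y' : ℝ}, C.Mono x w y → y ≤ y' → C.Mono x w y' := by
  induction w with
  | nil => intro x y y' h hy; exact le_trans h hy
  | cons a w ih =>
    intro x y y' h hy
    obtain ⟨z, hz, h1, h2⟩ := h
    exact ⟨z, hz, h1, ih h2 hy⟩

theorem Mono.snoc {w : List A} {a : A} : ∀ {x y : ℝ}, C.Mono x w y → y ∈ C.dom a →
    C.Mono x (w ++ [a]) (C.app a y) := by
  induction w with
  | nil => intro x y h hy; exact ⟨y, h, hy, le_rfl⟩
  | cons b w ih =>
    intro x y h hy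
    obtain ⟨z, hz, h1, h2⟩ := h
    exact ⟨z, hz, h1, ih h2 hy⟩

theorem wprod_snoc (w : List A) (a : A) : C.wprod (w ++ [a]) = C.wprod w * C.gen a := by
  simp [wprod]

theorem wprod_nil : C.wprod [] = 1 := by simp [wprod]

theorem Mono.contract {a b c : A} (habc : C.comp a b c) {v : List A} {y : ℝ} :
    ∀ (u : List A) (x : ℝ), C.Mono x (u ++ a :: b :: v) y → C.Mono x (u ++ c :: v) y := by
  intro u
  induction u with
  | nil =>
    intro x h
    obtain ⟨x1, hx1, hx1d, x2, hx2, hx2d, hrest⟩ := h
    obtain ⟨p, hp, hp'⟩ := C.comp_ex _ _ _ habc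
    -- a point z in the image of `a`, the domain of `b`, between app a x1 and x2
    have hz : ∃ z, C.app a x1 ≤ z ∧ z ≤ x2 ∧ z ∈ C.dom (C.inv a) ∧ z ∈ C.dom b := by
      have e1 : C.app a x1 ∈ C.dom (C.inv a) := C.inv_dom _ _ hx1d
      have e2 : C.app a p ∈ C.dom (C.inv a) := C.inv_dom _ _ hp
      rcases le_total (C.app a p) (C.app a x1) with h1 | h1
      · exact ⟨C.app a x1, le_rfl, hx2, e1, (C.dom_oc b).out hp' hx2d ⟨h1, hx2⟩⟩
      · rcases le_total (C.app a p) x2 with h2 | h2
        · exact ⟨C.app a p, h1, h2, e2, hp'⟩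
        · exact ⟨x2, hx2, le_rfl, (C.dom_oc _).out e1 e2 ⟨hx2, h2⟩, hx2d⟩
    obtain ⟨z, hz1, hz2, hz3, hz4⟩ := hz
    have hx' : C.app (C.inv a) z ∈ C.dom a := by
      have := C.inv_dom _ _ hz3
      rwa [C.inv_inv] at this
    have hx'' : C.app a (C.app (C.inv a) z) = z := by
      have := C.inv_app _ _ hz3
      rwa [C.inv_inv] at this
    refine ⟨C.app (C.inv a) z, ?_, ?_, ?_⟩
    · have := C.mono (C.inv a) _ (C.inv_dom _ _ hx1d) _ hz3 hz1
      rw [C.inv_app _ _ hx1d] at this
      linarith
    · exact C.comp_dom _ _ _ _ habc hx' (by rw [hx'']; exact hz4)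
    · rw [C.comp_app _ _ _ _ habc hx' (by rw [hx'']; exact hz4), hx'']
      exact hrest.of_le (C.mono b _ hz4 _ hx2d hz2)
  | cons d u ih =>
    intro x h
    obtain ⟨x1, hx1, hx1d, hrest⟩ := h
    exact ⟨x1, hx1, hx1d, ih _ hrest⟩

theorem Red.le_of_mono {w : List A} (h : C.Red w) : ∀ {x y : ℝ}, C.Mono x w y → x ≤ y := by
  induction h with
  | nil => intro x y h; exact h
  | one =>
    intro x y h
    obtain ⟨x1, hx1, _, h2⟩ := h
    rw [C.one_app] at h2
    exact le_trans hx1 h2
  | comp u v a b c habc _ ih =>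
    intro x y h
    exact ih (h.contract habc u x)

/-- A closed increasing chain (a closed transversal) is non-trivial in the universal group. -/
theorem wprod_ne_one_of_mono {w : List A} {x y : ℝ} (h : C.Mono x w y) (hxy : y < x) :
    C.wprod w ≠ 1 := fun h1 =>
  absurd ((red_of_wprod_eq_one h1).le_of_mono h) (not_le.mpr hxy)

end LineCalc

end Pool.Agent.Helper240
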